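import Mathlib
import Pool.Agent.H61.Geo.Defs

/-!
# Arithmetic half of the weak Amoroso-David theorem: common definitions

`K` is a number field, Galois over `ℚ`, `G = K ≃ₐ[ℚ] K` its Galois group. A rational prime `q`
enters only through the data `Loc K q`: a non-archimedean absolute value `v` on `K`, at most `1` on
algebraic integers, with `v q < 1`, and a Frobenius element `φ` (`φ x ≡ x ^ q` modulo `v < 1`).
-/

open MvPolynomial H61.Geo

namespace H25.Arith

/-- local data at a prime number `q` -/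
structure Loc (K : Type*) [Field K] [NumberField K] (q : ℕ) where
  /-- the absolute value -/
  v : AbsoluteValue K ℝ
  na : IsNonarchimedean v
  le_one : ∀ x : K, IsIntegral ℤ x → v x ≤ 1
  lt_one : v (q : K) < 1
  /-- the Frobenius -/
  φ : K ≃ₐ[ℚ] K
  frob : ∀ x : K, IsIntegral ℤ x → v (φ x - x ^ q) < 1

/-- `x` is simple for `ℓ` if no other conjugate of `x` is congruent to `x` -/
def Simple {K : Type*} [Field K] [NumberField K] {q : ℕ} (ℓ : Loc K q) (x : K) : Prop :=
  ∀ g : K ≃ₐ[ℚ] K, ℓ.v (g x - x) < 1 → g x = x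

open Classical in
/-- the group elements `g` for which some `φ g b_i` is not simple -/
noncomputable def bad {K : Type*} [Field K] [NumberField K] {q r : ℕ} (ℓ : Loc K q)
    (b : Fin r → K) : Finset (K ≃ₐ[ℚ] K) :=
  Finset.univ.filter fun g => ∃ i, ¬ Simple ℓ (ℓ.φ (g (b i)))

open Classical in
/-- the conjugates of `x` -/
noncomputable def orb {K : Type*} [Field K] [NumberField K] (x : K) : Finset K :=
  Finset.univ.image fun g : K ≃ₐ[ℚ] K => g x

open Classical in
/-- the conjugates of `x` which are not simple -/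
noncomputable def nons {K : Type*} [Field K] [NumberField K] {q : ℕ} (ℓ : Loc K q) (x : K) :
    Finset K :=
  (orb x).filter fun y => ¬ Simple ℓ y

/-- the absolute logarithmic Weil height of an algebraic integer -/
noncomputable def hh {K : Type*} [Field K] [NumberField K] (σ : K →+* ℂ) (x : K) : ℝ :=
  (∑ g : K ≃ₐ[ℚ] K, Real.log (max 1 ‖σ (g x)‖)) / Fintype.card (K ≃ₐ[ℚ] K)

/-- the box `[0,L]^r` -/
abbrev Box (r L : ℕ) : Type := Fin r → Fin (L + 1)

/-- the monomial `b^v`, `v` in the box -/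
def bm {K : Type*} [Field K] {r L : ℕ} (b : Fin r → K) (v : Box r L) : K :=
  ∏ i, b i ^ (v i : ℕ)

/-- the matrix `(g (w_x)_y)` with rows `(g, y)` and columns `x` -/
def MM {K : Type*} [Field K] [NumberField K] {X Y : Type*} (w : X → Y → K) :
    Matrix ((K ≃ₐ[ℚ] K) × Y) X K :=
  fun p x => p.1 (w x p.2)

/-- the matrix of the derivative rows: rows `(g, κ)`, `κ ∈ [0,T)^r`, columns `v ∈ [0,L]^r`,
entries `∏_i binom(v_i, κ_i) (g b_i)^(v_i - κ_i)` -/
def JJ {K : Type*} [Field K] [NumberField K] {r : ℕ} (b : Fin r → K) (L T : ℕ) :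
    Matrix ((K ≃ₐ[ℚ] K) × (Fin r → Fin T)) (Box r L) K :=
  fun p v => ∏ i, ((Nat.choose (v i) (p.2 i) : ℕ) : K) * p.1 (b i) ^ ((v i : ℕ) - (p.2 i : ℕ))

/-- the joint monomial vectors `((b^v)^q)_{q ∈ Ψ}` -/
def jw {K : Type*} [Field K] {r L : ℕ} (b : Fin r → K) (Ψ : Finset Nat.Primes) (v : Box r L) :
    Ψ → K :=
  fun q => bm b v ^ ((q : Nat.Primes) : ℕ)

/-- the joint dimension -/
noncomputable def Jd {K : Type*} [Field K] [NumberField K] {r : ℕ} (b : Fin r → K)
    (Ψ : Finset Nat.Primes) (L : ℕ) : ℕ :=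
  Module.finrank ℚ (Submodule.span ℚ (Set.range (jw (L := L) b Ψ)))

end H25.Arith
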