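import Pool.Agent.H25.Arith.RankMod
import Pool.Agent.H25.Arith.Defs

/-!
# AH-DISC : the discriminant is divisible by `q^(#nonsimple / 2)`

Let `n = #(orb x)`, `e : Fin n ≃ orb x` an enumeration of the conjugates, `V = vandermonde (e ·)`.
PROOF. (1) The matrix `Vᵀ V` has the entries `∑_{y ∈ orb x} y^(i+j)`, fixed by the Galois group and
integral over `ℤ`, so rational integers: `Vᵀ V = M.map (Int.cast)`, `M : Matrix (Fin n) (Fin n) ℤ`
(an element of `K` fixed by all of `G` is in the image of `ℚ`, `IsGalois.mem_bot_iff_fixed`/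
`IsGalois.tfae`; a rational number integral over `ℤ` is an integer). `D := det M`, `(D : K) = (det V)^2 ≠ 0`
by `Matrix.det_vandermonde_ne_zero_iff`.
(2) Let `Q = {y : 𝓞 K | ℓ.v y < 1}`, an ideal of `𝓞 K` (nonarchimedean and `v ≤ 1` on `𝓞 K`), prime,
containing the prime `q`, hence maximal (or: `𝓞 K ⧸ Q` is a domain; take its fraction field `k`; it has
characteristic `q`). Let `W` be the matrix `V` reduced to `k` (the entries are in `𝓞 K`). Two rows of `W`
of indices `i, j` with `v (e i - e j) < 1` are equal. So `W` has at most `c` distinct rows, where `c` is the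
number of classes of `orb x` modulo `Q` (the cardinality of the image of `orb x → k`), `rank W ≤ c`,
`rank (Wᵀ W) ≤ c` (`Matrix.rank_mul_le_right`), and `Wᵀ W` is the image of `M` in `k`. By `pow_dvd_det`,
`q^(n - c) ∣ D`.
(3) `#(nons ℓ x) ≤ 2 (n - c)`: for a map `p` on a finite set `S` of `n` elements with image of `c`
elements, the elements which share their image with another element are the union of the fibres `F` with
`#F ≥ 2`, and `n - c = ∑_F (#F - 1) ≥ ∑_{#F ≥ 2} #F / 2`. `y ∈ orb x` is not simple iff there is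
`g` with `v (g y - y) < 1` and `g y ≠ y`, i.e. iff another element of `orb x = orb y` is in the class of `y`.
So `(#nons + 1)/2 ≤ n - c` (natural division).
-/

namespace H25.Arith

open NumberField

namespace Disc

/-- an algebraic integer fixed by the Galois group is a rational integer -/
theorem exists_int {K : Type*} [Field K] [NumberField K] [IsGalois ℚ K] (y : K)
    (hy : IsIntegral ℤ y) (hf : ∀ g : K ≃ₐ[ℚ] K, g y = y) : ∃ m : ℤ, (m : K) = y := by
  obtain ⟨r, hr⟩ := (IsGalois.mem_range_algebraMap_iff_fixed (F := ℚ) y).2 hf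
  have h1 : IsIntegral ℤ r := by
    rw [← hr] at hy
    exact (isIntegral_algebraMap_iff (algebraMap ℚ K).injective).1 hy
  obtain ⟨m, hm⟩ := IsIntegrallyClosed.isIntegral_iff.1 h1
  refine ⟨m, ?_⟩
  rw [← hr, ← hm]
  simp

theorem mem_orb {K : Type*} [Field K] [NumberField K] {x y : K} :
    y ∈ orb x ↔ ∃ g : K ≃ₐ[ℚ] K, g x = y := by
  classical
  unfold orb
  simp

theorem map_mem_orb {K : Type*} [Field K] [NumberField K] {x y : K} (h : y ∈ orb x)
    (g : K ≃ₐ[ℚ] K) : g y ∈ orb x := by
  obtain ⟨g', rfl⟩ := mem_orb.1 h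
  exact mem_orb.2 ⟨g'.trans g, rfl⟩

theorem orb_integral {K : Type*} [Field K] [NumberField K] {x y : K} (hx : IsIntegral ℤ x)
    (h : y ∈ orb x) : IsIntegral ℤ y := by
  obtain ⟨g, rfl⟩ := mem_orb.1 h
  exact hx.map (g.toAlgHom.restrictScalars ℤ)

/-- the power sums of the conjugates are fixed by the Galois group -/
theorem sum_fixed {K : Type*} [Field K] [NumberField K] (x : K) (i : ℕ) (g : K ≃ₐ[ℚ] K) :
    g (∑ y ∈ orb x, y ^ i) = ∑ y ∈ orb x, y ^ i := by
  classical
  rw [map_sum]
  refine Finset.sum_nbij (fun y => g y) ?_ ?_ ?_ ?_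
  · intro y hy
    exact map_mem_orb hy g
  · intro y _ z _ h
    exact g.injective h
  · intro y hy
    refine ⟨g.symm y, map_mem_orb hy g.symm, ?_⟩
    simp
  · intro y _
    simp

/-- for a map with image of `c` elements, at most `2 (n - c)` elements share their image -/
theorem comb {n : ℕ} {k : Type*} [DecidableEq k] (p : Fin n → k) (N : Finset (Fin n))
    (hN : ∀ t ∈ N, ∃ t', t' ≠ t ∧ p t' = p t) :
    (N.card + 1) / 2 ≤ n - (Finset.univ.image p).card := by
  classical
  -- enlarge `N` to all such elements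
  set N' : Finset (Fin n) := Finset.univ.filter fun t => ∃ t', t' ≠ t ∧ p t' = p t with hN'
  have hsub : N ⊆ N' := fun t ht => by simpa [hN'] using hN t ht
  have h1 : 2 * (N'.image p).card ≤ N'.card := by
    refine Finset.mul_card_image_le_card N' 2 ?_
    intro b hb
    obtain ⟨t, ht, rfl⟩ := Finset.mem_image.1 hb
    obtain ⟨t', ht', hp⟩ := (Finset.mem_filter.1 ht).2
    have h2 : ({t, t'} : Finset (Fin n)) ⊆ N'.filter fun a => p a = p t := by
      intro s hs
      rcases Finset.mem_insert.1 hs with rfl | hs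
      · exact Finset.mem_filter.2 ⟨ht, rfl⟩
      · rw [Finset.mem_singleton] at hs
        subst hs
        exact Finset.mem_filter.2 ⟨Finset.mem_filter.2 ⟨Finset.mem_univ _, t, ht'.symm, hp.symm⟩, hp⟩
    calc 2 = ({t, t'} : Finset (Fin n)).card := (Finset.card_pair ht'.symm).symm
      _ ≤ _ := Finset.card_le_card h2
  have h2 : (Finset.univ.image p).card ≤ (N'ᶜ).card + (N'.image p).card := by
    have h3 : (Finset.univ.image p) ⊆ (N'ᶜ.image p) ∪ (N'.image p) := by
      intro b hb
      obtain ⟨t, -, rfl⟩ := Finset.mem_image.1 hb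
      by_cases ht : t ∈ N'
      · exact Finset.mem_union_right _ (Finset.mem_image_of_mem _ ht)
      · exact Finset.mem_union_left _ (Finset.mem_image_of_mem _ (Finset.mem_compl.2 ht))
    calc (Finset.univ.image p).card ≤ _ := Finset.card_le_card h3
      _ ≤ (N'ᶜ.image p).card + (N'.image p).card := Finset.card_union_le _ _
      _ ≤ _ := Nat.add_le_add_right Finset.card_image_le _
  have h3 : (N'ᶜ).card + N'.card = n := by
    rw [add_comm, Finset.card_add_card_compl, Fintype.card_fin]
  have h4 := Finset.card_le_card hsub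
  omega

section

variable {K : Type*} [Field K] [NumberField K] {q : ℕ} (ℓ : Loc K q)

/-- the ideal of the algebraic integers with `v < 1` -/
def QQ : Ideal (𝓞 K) where
  carrier := {y | ℓ.v (y : K) < 1}
  add_mem' := by
    intro a b ha hb
    simp only [Set.mem_ofPred_eq, map_add] at ha hb ⊢
    exact lt_of_le_of_lt (ℓ.na _ _) (max_lt ha hb)
  zero_mem' := by simp
  smul_mem' := by
    intro c a ha
    simp only [Set.mem_ofPred_eq, smul_eq_mul, map_mul] at ha ⊢
    have h1 := ℓ.le_one (c : K) c.isIntegral_coe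
    have h2 := ℓ.v.nonneg (a : K)
    have h3 := ℓ.v.nonneg (c : K)
    nlinarith

theorem mem_QQ {y : 𝓞 K} : y ∈ QQ ℓ ↔ ℓ.v (y : K) < 1 := Iff.rfl

instance QQ_prime : (QQ ℓ).IsPrime := by
  refine ⟨?_, ?_⟩
  · intro h
    have h1 : (1 : 𝓞 K) ∈ QQ ℓ := h ▸ Submodule.mem_top
    rw [mem_QQ] at h1
    simp at h1
  · intro a b hab
    rw [mem_QQ, mem_QQ] at *
    by_contra hcon
    push Not at hcon
    have h1 : ((a * b : 𝓞 K) : K) = (a : K) * (b : K) := rfl
    rw [h1, map_mul] at hab
    nlinarith [hcon.1, hcon.2]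

theorem cast_mem_QQ : ((q : ℕ) : 𝓞 K) ∈ QQ ℓ := by
  rw [mem_QQ]
  simpa using ℓ.lt_one

theorem QQ_maximal (hq : q.Prime) : (QQ ℓ).IsMaximal := by
  refine Ring.DimensionLEOne.maximalOfPrime ?_ (QQ_prime ℓ)
  intro h
  have h1 := cast_mem_QQ ℓ
  rw [h, Ideal.mem_bot] at h1
  exact hq.ne_zero (by exact_mod_cast h1)

end

end Disc

open Disc

theorem disc_dvd {K : Type*} [Field K] [NumberField K] [IsGalois ℚ K] (x : K)
    (hx : IsIntegral ℤ x) (e : Fin (orb x).card ≃ orb x) :
    ∃ D : ℤ, (D : K) = (Matrix.vandermonde fun i => (e i : K)).det ^ 2 ∧ D ≠ 0 ∧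
      ∀ (q : ℕ) (_ : q.Prime) (ℓ : Loc K q), (q : ℤ) ^ (((nons ℓ x).card + 1) / 2) ∣ D := by
  classical
  -- the integral matrix
  have hM : ∀ i : ℕ, ∃ m : ℤ, (m : K) = ∑ y ∈ orb x, y ^ i := fun i =>
    exists_int _ (IsIntegral.sum _ fun y hy => (orb_integral hx hy).pow i) (sum_fixed x i)
  choose m hm using hM
  have hsum : ∀ f : K → K, ∑ t, f (e t) = ∑ y ∈ orb x, f y := by
    intro f
    rw [← Finset.sum_coe_sort (orb x) f]
    exact Equiv.sum_comp e fun y => f (y : K)
  set V : Matrix (Fin (orb x).card) (Fin (orb x).card) K :=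
    Matrix.vandermonde fun i => (e i : K) with hV
  set M : Matrix (Fin (orb x).card) (Fin (orb x).card) ℤ :=
    Matrix.of fun i j => m ((i : ℕ) + j) with hMdef
  have hVM : M.map (Int.castRingHom K) = V.transpose * V := by
    ext i j
    rw [Matrix.mul_apply]
    simp only [Matrix.map_apply, Matrix.transpose_apply, hMdef, Matrix.of_apply, hV,
      Matrix.vandermonde_apply, eq_intCast, hm]
    rw [← hsum]
    exact Finset.sum_congr rfl fun t _ => pow_add _ _ _
  have hD : ((M.det : ℤ) : K) = V.det ^ 2 := by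
    have h1 := RingHom.map_det (Int.castRingHom K) M
    rw [eq_intCast] at h1
    rw [h1, RingHom.mapMatrix_apply, hVM, Matrix.det_mul, Matrix.det_transpose, sq]
  have hV0 : V.det ≠ 0 := by
    rw [hV, Matrix.det_vandermonde_ne_zero_iff]
    intro a b h
    exact e.injective (Subtype.ext h)
  refine ⟨M.det, hD, ?_, ?_⟩
  · intro h
    rw [h, Int.cast_zero] at hD
    exact hV0 (pow_eq_zero_iff (two_ne_zero)|>.1 hD.symm)
  intro q hq ℓ
  have hmax := QQ_maximal ℓ hq
  let _ : Field (𝓞 K ⧸ QQ ℓ) := Ideal.Quotient.field (QQ ℓ)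
  set π : 𝓞 K →+* (𝓞 K ⧸ QQ ℓ) := Ideal.Quotient.mk (QQ ℓ) with hπ
  have hchar : CharP (𝓞 K ⧸ QQ ℓ) q := by
    apply ringChar.of_eq
    have h0 : ((q : ℕ) : 𝓞 K ⧸ QQ ℓ) = 0 := by
      rw [← map_natCast π]
      exact Ideal.Quotient.eq_zero_iff_mem.2 (cast_mem_QQ ℓ)
    rcases (Nat.dvd_prime hq).1 (ringChar.dvd h0) with h | h
    · exfalso
      have h1 : ((1 : ℕ) : 𝓞 K ⧸ QQ ℓ) = 0 := by
        rw [← h]
        exact ringChar.Nat.cast_ringChar
      rw [Nat.cast_one] at h1
      exact one_ne_zero h1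
    · exact h
  -- the lifts
  have hint : ∀ t, IsIntegral ℤ ((e t : K)) := fun t => orb_integral hx (e t).2
  set u : Fin (orb x).card → 𝓞 K := fun t => ⟨(e t : K), hint t⟩ with hu
  have huK : ∀ t, ((u t : 𝓞 K) : K) = e t := fun t => rfl
  set p : Fin (orb x).card → (𝓞 K ⧸ QQ ℓ) := fun t => π (u t) with hp
  set W : Matrix (Fin (orb x).card) (Fin (orb x).card) (𝓞 K ⧸ QQ ℓ) :=
    Matrix.vandermonde p with hW
  have hWM : M.map (Int.castRingHom (𝓞 K ⧸ QQ ℓ)) = W.transpose * W := by
    ext i j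
    rw [Matrix.mul_apply]
    simp only [Matrix.map_apply, Matrix.transpose_apply, hMdef, Matrix.of_apply, hW,
      Matrix.vandermonde_apply, eq_intCast]
    have h1 : ((m ((i : ℕ) + j) : ℤ) : 𝓞 K) = ∑ t, u t ^ ((i : ℕ) + j) := by
      apply RingOfIntegers.ext
      rw [RingOfIntegers.coe_eq_algebraMap, RingOfIntegers.coe_eq_algebraMap, map_sum, map_intCast, hm,
        ← hsum]
      refine Finset.sum_congr rfl fun t _ => ?_
      rw [map_pow]
      rfl
    have h2 := congrArg π h1
    rw [map_intCast, map_sum] at h2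
    rw [h2]
    refine Finset.sum_congr rfl fun t _ => ?_
    rw [map_pow, pow_add]
  have hrank : (M.map (Int.castRingHom (𝓞 K ⧸ QQ ℓ))).rank ≤ (Finset.univ.image p).card := by
    rw [hWM]
    refine (Matrix.rank_mul_le_right _ _).trans ?_
    rw [Matrix.rank_eq_finrank_span_row]
    have hr : Set.range W.row =
        (((Finset.univ.image p).image fun a => fun j : Fin (orb x).card => a ^ (j : ℕ) :
          Finset (Fin (orb x).card → (𝓞 K ⧸ QQ ℓ))) : Set _) := by
      ext w
      simp only [Finset.coe_image, Finset.coe_univ, Set.image_univ, Set.mem_range, Set.mem_image,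
        exists_exists_eq_and]
      rfl
    rw [hr]
    exact (finrank_span_finset_le_card _).trans Finset.card_image_le
  have hdvd := pow_dvd_det hq M _ hrank
  refine (pow_dvd_pow _ ?_).trans hdvd
  -- the non-simple conjugates
  set N : Finset (Fin (orb x).card) := Finset.univ.filter fun t => (e t : K) ∈ nons ℓ x with hN
  have hNcard : (nons ℓ x).card ≤ N.card := by
    have h1 : nons ℓ x ⊆ N.image fun t => (e t : K) := by
      intro y hy
      have hy' : y ∈ orb x := (Finset.mem_filter.1 hy).1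
      refine Finset.mem_image.2 ⟨e.symm ⟨y, hy'⟩, ?_, by simp⟩
      rw [hN, Finset.mem_filter]
      refine ⟨Finset.mem_univ _, ?_⟩
      simpa using hy
    exact (Finset.card_le_card h1).trans Finset.card_image_le
  have hcomb := comb p N ?_
  · refine le_trans ?_ hcomb
    omega
  intro t ht
  have h1 := (Finset.mem_filter.1 ht).2
  obtain ⟨h2, h3⟩ := Finset.mem_filter.1 h1
  unfold Simple at h3
  push Not at h3
  obtain ⟨g, hg, hne⟩ := h3
  have h4 : g (e t : K) ∈ orb x := map_mem_orb h2 g
  refine ⟨e.symm ⟨g (e t : K), h4⟩, ?_, ?_⟩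
  · intro h
    apply hne
    have := congrArg (fun s => (e s : K)) h
    simpa using this
  · simp only [hp, hπ]
    rw [Ideal.Quotient.eq, mem_QQ]
    have h5 : ((u (e.symm ⟨g (e t : K), h4⟩) - u t : 𝓞 K) : K) = g (e t : K) - e t := by
      rw [RingOfIntegers.coe_eq_algebraMap, map_sub, ← RingOfIntegers.coe_eq_algebraMap,
        ← RingOfIntegers.coe_eq_algebraMap, huK, huK, Equiv.apply_symm_apply]
    rw [h5]
    exact hg

end H25.Arith
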