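import Pool.Agent.H25.Arith.Defs

/-!
# AH-HH : elementary facts on the height and the conjugates

PROOFS. `hh_nonneg`: all terms are `≥ 0`. `hh_pow`: `max 1 (t^m) = (max 1 t)^m` for `t ≥ 0`
(both cases `t ≤ 1`, `t ≥ 1`) and `log (s^m) = m log s`. `orb_pow_card_le`: `orb (x^m)` is the image of `orb x`
under `y ↦ y^m`. `sum_shift`: reindex `g ↦ g * h` (`Equiv.mulRight`, `Fintype.sum_equiv`). `one_le_orb`:
`x ∈ orb x`. `bm_bound`: `‖σ (g (bm b v))‖ = ∏ ‖σ (g b_i)‖^(v_i) ≤ ∏ max(1, ‖..‖)^L`. `isIntegral_*`: closure properties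
(`IsIntegral.prod`, `IsIntegral.pow`, `IsIntegral.map`).
-/

open H61.Geo

namespace H25.Arith

variable {K : Type*} [Field K] [NumberField K] {r : ℕ}

theorem hh_nonneg (σ : K →+* ℂ) (x : K) : 0 ≤ hh σ x := by
  unfold hh
  exact div_nonneg (Finset.sum_nonneg fun g _ => Real.log_nonneg (le_max_left _ _))
    (Nat.cast_nonneg _)

theorem hh_pow (σ : K →+* ℂ) (x : K) (m : ℕ) : hh σ (x ^ m) = m * hh σ x := by
  have h1 : ∀ t : ℝ, 0 ≤ t → max 1 (t ^ m) = (max 1 t) ^ m := by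
    intro t ht
    rcases le_total t 1 with h | h
    · rw [max_eq_left h, one_pow, max_eq_left (pow_le_one₀ ht h)]
    · rw [max_eq_right h, max_eq_right (one_le_pow₀ h)]
  unfold hh
  rw [← mul_div_assoc, Finset.mul_sum]
  congr 1
  refine Finset.sum_congr rfl fun g _ => ?_
  rw [map_pow, map_pow, norm_pow, h1 _ (norm_nonneg _), Real.log_pow]

theorem one_le_orb (x : K) : 1 ≤ (orb x).card := by
  classical
  refine Finset.card_pos.2 ⟨x, ?_⟩
  unfold orb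
  exact Finset.mem_image.2 ⟨1, Finset.mem_univ _, rfl⟩

theorem orb_pow_card_le (x : K) (m : ℕ) : (orb (x ^ m)).card ≤ (orb x).card := by
  classical
  have h1 : orb (x ^ m) ⊆ (orb x).image (fun y => y ^ m) := by
    intro y hy
    unfold orb at hy ⊢
    obtain ⟨g, -, rfl⟩ := Finset.mem_image.1 hy
    exact Finset.mem_image.2 ⟨g x, Finset.mem_image.2 ⟨g, Finset.mem_univ _, rfl⟩,
      (map_pow g x m).symm⟩
  exact (Finset.card_le_card h1).trans Finset.card_image_le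

theorem sum_shift (σ : K →+* ℂ) (x : K) (h : K ≃ₐ[ℚ] K) :
    ∑ g : K ≃ₐ[ℚ] K, Real.log (max 1 ‖σ (g (h x))‖) =
      (Fintype.card (K ≃ₐ[ℚ] K) : ℝ) * hh σ x := by
  have hc : (Fintype.card (K ≃ₐ[ℚ] K) : ℝ) ≠ 0 := by
    exact_mod_cast Fintype.card_ne_zero
  unfold hh
  rw [mul_div_cancel₀ _ hc]
  exact Fintype.sum_equiv (Equiv.mulRight h) _ _ fun g => rfl

theorem bm_bound (σ : K →+* ℂ) (b : Fin r → K) (g : K ≃ₐ[ℚ] K) {L : ℕ} (v : Box r L) :
    ‖σ (g (bm b v))‖ ≤ ∏ i, max 1 ‖σ (g (b i))‖ ^ L := by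
  unfold bm
  rw [map_prod, map_prod, norm_prod]
  refine Finset.prod_le_prod (fun i _ => norm_nonneg _) fun i _ => ?_
  rw [map_pow, map_pow, norm_pow]
  calc ‖σ (g (b i))‖ ^ (v i : ℕ) ≤ max 1 ‖σ (g (b i))‖ ^ (v i : ℕ) :=
        pow_le_pow_left₀ (norm_nonneg _) (le_max_right _ _) _
    _ ≤ max 1 ‖σ (g (b i))‖ ^ L :=
        pow_le_pow_right₀ (le_max_left _ _) (Nat.lt_succ_iff.1 (v i).2)

theorem isIntegral_bm (b : Fin r → K) (hb : ∀ i, IsIntegral ℤ (b i)) {L : ℕ} (v : Box r L) :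
    IsIntegral ℤ (bm b v) := by
  unfold bm
  exact IsIntegral.prod _ fun i _ => (hb i).pow _

theorem isIntegral_gal (g : K ≃ₐ[ℚ] K) {x : K} (hx : IsIntegral ℤ x) : IsIntegral ℤ (g x) := by
  exact hx.map ((g : K →ₐ[ℚ] K).restrictScalars ℤ)

end H25.Arith
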