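import Pool.Agent.H25.Arith.OrbSum
import Pool.Agent.H25.Arith.HH

/-!
# AH-LINKS : orbit size = degree, height = Mahler measure

PROOFS. `orb_card`: over `K` (Galois) `minpoly ℚ x = ∏_{y ∈ orb x} (X - y)` (it splits, is separable, and its roots
in `K` are the `g x`: `minpoly.exists_algEquiv_of_root`-type lemmas, `IsConjRoot`); so the degree is `#(orb x)`
(`Polynomial.card_rootSet_eq_natDegree`).
`hh_mahler`: `minpoly ℤ x` maps to `minpoly ℚ x` (`minpoly.isIntegrallyClosed_eq_field_fractions'`), so its image in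
`ℂ[X]` under `ℤ → ℂ` is `∏_{y ∈ orb x} (X - σ y)` (image of the polynomial over `K` under `σ`), monic with
Mahler measure `∏_{y ∈ orb x} max 1 ‖σ y‖` (`Polynomial.mahlerMeasure_eq_leadingCoeff_mul_prod_roots`,
or multiplicativity and `mahlerMeasure_X_sub_C`). Take logarithms, and
`∑_{y ∈ orb x} log max 1 ‖σ y‖ = #(orb x) * hh σ x` by `orb_sum` (divide by `#G`).
-/

namespace H25.Arith

variable {K : Type*} [Field K] [NumberField K] [IsGalois ℚ K]


open Classical in
theorem links_orb_eq (x : K) : orb x = ((minpoly ℚ x).map (algebraMap ℚ K)).roots.toFinset := by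
  have hx : IsIntegral ℚ x := Algebra.IsIntegral.isIntegral x
  ext y
  rw [Multiset.mem_toFinset, ← Polynomial.aroots_def, ← isConjRoot_iff_mem_minpoly_aroots hx]
  unfold orb
  rw [Finset.mem_image]
  constructor
  · rintro ⟨g, -, rfl⟩
    exact isConjRoot_of_algEquiv x g
  · intro h
    obtain ⟨g, hg⟩ := h.symm.exists_algEquiv
    exact ⟨g, Finset.mem_univ _, hg⟩

theorem links_nodup (x : K) : ((minpoly ℚ x).map (algebraMap ℚ K)).roots.Nodup := by
  have hx : (minpoly ℚ x).Separable := IsGalois.separable ℚ x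
  exact Polynomial.nodup_aroots_iff_of_splits
    (minpoly.ne_zero (Algebra.IsIntegral.isIntegral x)) (Normal.splits inferInstance x) |>.2 hx

theorem links_splits (x : K) : ((minpoly ℚ x).map (algebraMap ℚ K)).Splits :=
  Normal.splits inferInstance x

theorem orb_card (x : K) : (orb x).card = (minpoly ℚ x).natDegree := by
  classical
  rw [links_orb_eq, Multiset.toFinset_card_of_nodup (links_nodup x),
    ← Polynomial.natDegree_map (algebraMap ℚ K)]
  exact (links_splits x).natDegree_eq_card_roots.symm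

theorem links_prod (x : K) : (minpoly ℚ x).map (algebraMap ℚ K) =
    ∏ y ∈ orb x, (Polynomial.X - Polynomial.C y) := by
  classical
  have h1 : ((minpoly ℚ x).map (algebraMap ℚ K)).Monic :=
    (minpoly.monic (Algebra.IsIntegral.isIntegral x)).map _
  have h2 := (links_splits x).eq_prod_roots
  rw [h1.leadingCoeff, Polynomial.C_1, one_mul] at h2
  conv_lhs => rw [h2]
  rw [links_orb_eq, Finset.prod, Multiset.toFinset_val, Multiset.dedup_eq_self.2 (links_nodup x)]

theorem hh_mahler (σ : K →+* ℂ) (x : K) (hx : IsIntegral ℤ x) :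
    ((orb x).card : ℝ) * hh σ x =
      Real.log ((minpoly ℤ x).map (Int.castRingHom ℂ)).mahlerMeasure := by
  classical
  have h1 : (minpoly ℤ x).map (Int.castRingHom ℂ) =
      ∏ y ∈ orb x, (Polynomial.X - Polynomial.C (σ y)) := by
    have h2 := links_prod x
    rw [minpoly.isIntegrallyClosed_eq_field_fractions' ℚ hx] at h2
    have h3 := congrArg (Polynomial.map σ) h2
    rw [Polynomial.map_map, Polynomial.map_map, Polynomial.map_prod] at h3
    rw [show Int.castRingHom ℂ = σ.comp ((algebraMap ℚ K).comp (algebraMap ℤ ℚ)) from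
      RingHom.ext_int _ _, ← RingHom.comp_assoc] at *
    rw [h3]
    refine Finset.prod_congr rfl fun y _ => ?_
    simp
  have h4 : ((minpoly ℤ x).map (Int.castRingHom ℂ)).mahlerMeasure =
      ∏ y ∈ orb x, max 1 ‖σ y‖ := by
    rw [h1, Finset.prod, Polynomial.prod_mahlerMeasure_eq_mahlerMeasure_prod, Finset.prod,
      Multiset.map_map]
    congr 1
    refine Multiset.map_congr rfl fun y _ => ?_
    simp [Polynomial.mahlerMeasure_X_sub_C]
  rw [h4, Real.log_prod]
  · have h5 := orb_sum x (fun y => Real.log (max 1 ‖σ y‖))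
    have hc : (Fintype.card (K ≃ₐ[ℚ] K) : ℝ) ≠ 0 := by
      exact_mod_cast Fintype.card_ne_zero
    unfold hh
    rw [← mul_div_assoc, h5, mul_div_cancel_left₀ _ hc]
  · intro y _
    exact (lt_of_lt_of_le one_pos (le_max_left _ _)).ne'

end H25.Arith
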