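import Pool.Agent.H25.Arith.OrbSum

/-!
# AH-DISCB : upper bound for the discriminant

PROOF. Let `n = #(orb x) ≥ 1`. `|D| = ‖σ (det V)‖^2 = ‖det (σ V)‖^2`, and by the Leibniz formula
`‖det (σ V)‖ ≤ n! ∏_i max(1, ‖σ (e i)‖)^(n-1)` (the entry `(i,j)` is `(σ (e i))^j`, `j ≤ n-1`), so
`log |D| ≤ 2 log n! + 2 (n-1) ∑_{y ∈ orb x} log max(1, ‖σ y‖)`, and `log n! ≤ n log n`,
`∑_{y ∈ orb x} log max(1,‖σ y‖) = n hh σ x` by `orb_sum`. (All the logarithms are `≥ 0`.)
-/

namespace H25.Arith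

/-- Leibniz bound for a Vandermonde determinant. -/
theorem norm_det_vandermonde_le {n : ℕ} (y : Fin n → ℂ) :
    ‖(Matrix.vandermonde y).det‖ ≤ (n.factorial : ℝ) * ∏ i, (max 1 ‖y i‖) ^ n := by
  rw [Matrix.det_apply]
  refine (norm_sum_le _ _).trans ?_
  have h : ∀ p ∈ (Finset.univ : Finset (Equiv.Perm (Fin n))),
      ‖Equiv.Perm.sign p • ∏ i, Matrix.vandermonde y (p i) i‖ ≤ ∏ i, (max 1 ‖y i‖) ^ n := by
    intro p _
    have h1 : ‖Equiv.Perm.sign p • ∏ i, Matrix.vandermonde y (p i) i‖ =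
        ∏ i, ‖y (p i)‖ ^ (i : ℕ) := by
      rcases Int.units_eq_one_or (Equiv.Perm.sign p) with hs | hs
      · rw [hs, one_smul, norm_prod]
        simp [Matrix.vandermonde_apply]
      · rw [hs, Units.smul_def, Units.val_neg, Units.val_one, neg_smul, one_smul, norm_neg,
          norm_prod]
        simp [Matrix.vandermonde_apply]
    rw [h1]
    calc ∏ i, ‖y (p i)‖ ^ (i : ℕ) ≤ ∏ i, (max 1 ‖y (p i)‖) ^ n := by
          refine Finset.prod_le_prod (fun i _ => by positivity) fun i _ => ?_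
          calc ‖y (p i)‖ ^ (i : ℕ) ≤ (max 1 ‖y (p i)‖) ^ (i : ℕ) := by
                gcongr
                exact le_max_right _ _
            _ ≤ (max 1 ‖y (p i)‖) ^ n := pow_le_pow_right₀ (le_max_left _ _) i.2.le
      _ = ∏ i, (max 1 ‖y i‖) ^ n := Equiv.prod_comp p fun i => (max 1 ‖y i‖) ^ n
  refine (Finset.sum_le_sum h).trans ?_
  rw [Finset.sum_const, Finset.card_univ, Fintype.card_perm, Fintype.card_fin, nsmul_eq_mul]

theorem disc_bound {K : Type*} [Field K] [NumberField K] [IsGalois ℚ K] (σ : K →+* ℂ) (x : K)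
    (e : Fin (orb x).card ≃ orb x) (D : ℤ) (hD0 : D ≠ 0)
    (hD : (D : K) = (Matrix.vandermonde fun i => (e i : K)).det ^ 2) :
    Real.log |(D : ℝ)| ≤ 2 * (orb x).card * Real.log (orb x).card +
      2 * (orb x).card * (orb x).card * hh σ x := by
  classical
  obtain ⟨n, hn⟩ : ∃ n, n = (orb x).card := ⟨_, rfl⟩
  revert e
  rw [← hn]
  intro e hD
  have hn1 : 1 ≤ n := by
    rw [hn]
    refine Finset.card_pos.mpr ⟨(1 : K ≃ₐ[ℚ] K) x, ?_⟩
    unfold orb
    exact Finset.mem_image_of_mem _ (Finset.mem_univ _)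
  set y : Fin n → ℂ := fun i => σ (e i : K) with hy
  have hdet : σ ((Matrix.vandermonde fun i => (e i : K)).det) = (Matrix.vandermonde y).det := by
    rw [RingHom.map_det]
    congr 1
    ext i j
    simp [Matrix.vandermonde_apply, hy]
  have habs : |(D : ℝ)| = ‖(Matrix.vandermonde y).det‖ ^ 2 := by
    have h1 : ((D : ℤ) : ℂ) = (Matrix.vandermonde y).det ^ 2 := by
      rw [← hdet, ← map_pow, ← hD, map_intCast]
    rw [← norm_pow, ← h1, Complex.norm_intCast]
  have hDpos : 0 < |(D : ℝ)| := abs_pos.mpr (by exact_mod_cast hD0)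
  have hdpos : 0 < ‖(Matrix.vandermonde y).det‖ := by
    rw [habs] at hDpos
    exact lt_of_le_of_ne (norm_nonneg _) fun h => by rw [← h] at hDpos; simp at hDpos
  have hmax : ∀ i, 0 < max 1 ‖y i‖ := fun i => lt_of_lt_of_le one_pos (le_max_left _ _)
  have hlog : Real.log ‖(Matrix.vandermonde y).det‖ ≤
      Real.log (n.factorial : ℝ) + (n : ℝ) * ∑ i, Real.log (max 1 ‖y i‖) := by
    have hf : (0 : ℝ) < n.factorial := by exact_mod_cast n.factorial_pos
    have hp : 0 < ∏ i, (max 1 ‖y i‖) ^ n := Finset.prod_pos fun i _ => pow_pos (hmax i) n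
    calc Real.log ‖(Matrix.vandermonde y).det‖
        ≤ Real.log ((n.factorial : ℝ) * ∏ i, (max 1 ‖y i‖) ^ n) :=
          Real.log_le_log hdpos (norm_det_vandermonde_le y)
      _ = Real.log (n.factorial : ℝ) + (n : ℝ) * ∑ i, Real.log (max 1 ‖y i‖) := by
          rw [Real.log_mul hf.ne' hp.ne', Real.log_prod (fun i _ => (pow_pos (hmax i) n).ne'),
            Finset.mul_sum]
          simp [Real.log_pow]
  have hfact : Real.log (n.factorial : ℝ) ≤ n * Real.log n := by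
    have h1 : (n.factorial : ℝ) ≤ (n : ℝ) ^ n := by exact_mod_cast Nat.factorial_le_pow n
    calc Real.log (n.factorial : ℝ) ≤ Real.log ((n : ℝ) ^ n) :=
          Real.log_le_log (by exact_mod_cast n.factorial_pos) h1
      _ = n * Real.log n := Real.log_pow n n
  have hsum : ∑ i, Real.log (max 1 ‖y i‖) = ∑ z ∈ orb x, Real.log (max 1 ‖σ z‖) := by
    rw [← Finset.sum_coe_sort (orb x) fun z => Real.log (max 1 ‖σ z‖)]
    exact Equiv.sum_comp e fun z : orb x => Real.log (max 1 ‖σ (z : K)‖)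
  have horb := orb_sum x (fun z => Real.log (max 1 ‖σ z‖))
  have hG : (0 : ℝ) < (Fintype.card (K ≃ₐ[ℚ] K) : ℝ) := by exact_mod_cast Fintype.card_pos
  have hs : ∑ z ∈ orb x, Real.log (max 1 ‖σ z‖) = (n : ℝ) * hh σ x := by
    unfold hh
    rw [mul_div_assoc', eq_div_iff hG.ne', mul_comm]
    rw [← hn] at horb
    exact horb.symm
  rw [habs, Real.log_pow]
  rw [hsum, hs] at hlog
  push_cast
  nlinarith [hlog, hfact]

end H25.Arith
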