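import Pool.Agent.H25.Arith.Defs

/-!
# AH-ORBSUM : averages over the group are averages over the conjugates

PROOF. `∑_g f (g x) = ∑_{y ∈ orb x} ∑_{g : g x = y} f y = ∑_{y ∈ orb x} #{g | g x = y} f y`
(`Finset.sum_fiberwise_of_maps_to`), and for `y = g₀ x` the map `g ↦ g₀ * g` is a bijection from
`{g | g x = x}` to `{g | g x = y}`, so all fibres have the same number `s` of elements; summing `1`,
`s * #(orb x) = #G`.
-/

namespace H25.Arith

open Classical in
private lemma orbSum_fib {K : Type*} [Field K] [NumberField K] (x : K) {y : K}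
    (hy : y ∈ orb x) :
    (Finset.univ.filter fun g : K ≃ₐ[ℚ] K => g x = y).card =
      (Finset.univ.filter fun g : K ≃ₐ[ℚ] K => g x = x).card := by
  unfold orb at hy
  obtain ⟨g₀, -, rfl⟩ := Finset.mem_image.1 hy
  symm
  refine Finset.card_bij (fun g _ => g₀ * g) ?_ ?_ ?_
  · intro g hg
    rw [Finset.mem_filter] at hg ⊢
    refine ⟨Finset.mem_univ _, ?_⟩
    rw [AlgEquiv.mul_apply, hg.2]
  · intro g _ g' _ h
    exact mul_left_cancel h
  · intro g hg
    rw [Finset.mem_filter] at hg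
    refine ⟨g₀⁻¹ * g, ?_, mul_inv_cancel_left _ _⟩
    rw [Finset.mem_filter]
    refine ⟨Finset.mem_univ _, ?_⟩
    rw [AlgEquiv.mul_apply, hg.2]
    exact g₀.symm_apply_apply x

theorem orb_sum {K : Type*} [Field K] [NumberField K] (x : K) (f : K → ℝ) :
    ((orb x).card : ℝ) * ∑ g : K ≃ₐ[ℚ] K, f (g x) =
      (Fintype.card (K ≃ₐ[ℚ] K) : ℝ) * ∑ y ∈ orb x, f y := by
  classical
  have hmap : ∀ g ∈ (Finset.univ : Finset (K ≃ₐ[ℚ] K)), g x ∈ orb x := by
    intro g _
    unfold orb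
    exact Finset.mem_image_of_mem _ (Finset.mem_univ g)
  have h1 : ∀ h : K → ℝ, ∑ g : K ≃ₐ[ℚ] K, h (g x) =
      ((Finset.univ.filter fun g : K ≃ₐ[ℚ] K => g x = x).card : ℝ) * ∑ y ∈ orb x, h y := by
    intro h
    rw [← Finset.sum_fiberwise_of_maps_to hmap, Finset.mul_sum]
    refine Finset.sum_congr rfl fun y hy => ?_
    have h2 : ∑ g ∈ Finset.univ.filter (fun g : K ≃ₐ[ℚ] K => g x = y), h (g x) =
        ∑ g ∈ Finset.univ.filter (fun g : K ≃ₐ[ℚ] K => g x = y), h y :=
      Finset.sum_congr rfl fun g hg => by rw [(Finset.mem_filter.1 hg).2]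
    rw [h2, Finset.sum_const, nsmul_eq_mul]
    congr 2
    convert orbSum_fib x hy
  have h3 := h1 (fun _ => 1)
  rw [Finset.sum_const, nsmul_eq_mul, mul_one, Finset.sum_const, nsmul_eq_mul, mul_one,
    Finset.card_univ] at h3
  rw [h1 f, h3]
  ring

end H25.Arith
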