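import Pool.Agent.H25.Arith.Disc
import Pool.Agent.H25.Arith.DiscBound
import Pool.Agent.H25.Arith.OrbSum

/-!
# AH-FEWBAD : few primes are bad

PROOF. Write `G` for the group, `n_i = #(orb (b i)) ≥ 1`.
(1) For every prime `q`: `#(bad (ℓ q) b) ≤ ∑_i #{g | ¬ Simple (φ g b_i)} = ∑_i #{g | ¬ Simple (g b_i)}`
    (bijection `g ↦ φ * g`) and `n_i * #{g | ¬ Simple (g b_i)} = #G * #(nons (ℓ q) (b i))`
    (`orb_sum` with `f y = if Simple y then 0 else 1`).
(2) So for `q ∈ Ψ` there is `i` with `#(nons (ℓ q) (b i)) > (β/r) n_i` (note `r ≥ 1` if `Ψ ≠ ∅`, because for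
    `r = 0` `bad` is empty and `β * #G < 0` is false). Let `Ψ_i` be the set of the `q ∈ Ψ` with this
    property; `#Ψ ≤ ∑_i #Ψ_i` (`Finset.card_biUnion_le`).
(3) Fix `i`. Let `D` be the integer of `disc_dvd`. The powers `q^((#nons+1)/2)`, `q ∈ Ψ_i`, are pairwise
    coprime and divide `D ≠ 0`, so `∏_{q ∈ Ψ_i} q^((#nons+1)/2) ≤ |D|` and with
    `(#nons + 1)/2 ≥ #nons/2 > β n_i/(2r)` (natural division on the left), `log q ≥ log N > 0`:
    `#Ψ_i * (β n_i/(2r)) * log N ≤ log |D| ≤ 2 n_i log n_i + 2 n_i^2 hh(b_i) ≤ 2 n_i (log n + η)`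
    (`disc_bound`; `n_i ≤ n`, `n_i hh ≤ n hh ≤ η`; `hh ≥ 0`). So `#Ψ_i β log N ≤ 4 r (log n + η)`.
Summing over `i`: `#Ψ β log N ≤ 4 r^2 (log n + η)`.
-/

namespace H25.Arith

section aux

variable {K : Type*} [Field K] [NumberField K]

open Classical in
lemma fb_card_nons {q : ℕ} (ℓ : Loc K q) (x : K) :
    ((orb x).card : ℝ) *
      ((Finset.univ.filter fun g : K ≃ₐ[ℚ] K => ¬ Simple ℓ (g x)).card : ℝ) =
      (Fintype.card (K ≃ₐ[ℚ] K) : ℝ) * ((nons ℓ x).card : ℝ) := by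
  have h := orb_sum x (fun y => if ¬ Simple ℓ y then 1 else 0)
  unfold nons
  rw [Finset.natCast_card_filter, Finset.natCast_card_filter]
  exact h

open Classical in
lemma fb_bad {q r : ℕ} (ℓ : Loc K q) (b : Fin r → K) :
    ((bad ℓ b).card : ℝ) ≤ ∑ i, ((Finset.univ.filter fun g : K ≃ₐ[ℚ] K =>
      ¬ Simple ℓ (g (b i))).card : ℝ) := by
  have h1 : bad ℓ b ⊆ Finset.univ.biUnion (fun i => Finset.univ.filter fun g : K ≃ₐ[ℚ] K =>
      ¬ Simple ℓ (ℓ.φ (g (b i)))) := by
    intro g hg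
    unfold bad at hg
    rw [Finset.mem_filter] at hg
    obtain ⟨-, i, hi⟩ := hg
    exact Finset.mem_biUnion.2 ⟨i, Finset.mem_univ _, Finset.mem_filter.2 ⟨Finset.mem_univ _, hi⟩⟩
  have h2 : (bad ℓ b).card ≤ ∑ i, (Finset.univ.filter fun g : K ≃ₐ[ℚ] K =>
      ¬ Simple ℓ (ℓ.φ (g (b i)))).card := (Finset.card_le_card h1).trans Finset.card_biUnion_le
  have h3 : ∀ i, (Finset.univ.filter fun g : K ≃ₐ[ℚ] K => ¬ Simple ℓ (ℓ.φ (g (b i)))).card =
      (Finset.univ.filter fun g : K ≃ₐ[ℚ] K => ¬ Simple ℓ (g (b i))).card := by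
    intro i
    refine Finset.card_equiv (Equiv.mulLeft ℓ.φ) fun g => ?_
    simp only [Finset.mem_filter, Finset.mem_univ, true_and, Equiv.coe_mulLeft]
    rfl
  simp only [h3] at h2
  exact_mod_cast h2

lemma fb_orb_pos (x : K) : 0 < (orb x).card := by
  classical
  refine Finset.card_pos.2 ⟨x, ?_⟩
  unfold orb
  exact Finset.mem_image.2 ⟨1, Finset.mem_univ _, rfl⟩

lemma fb_hh_nonneg (σ : K →+* ℂ) (x : K) : 0 ≤ hh σ x := by
  unfold hh
  refine div_nonneg (Finset.sum_nonneg fun g _ => Real.log_nonneg (le_max_left _ _)) ?_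
  positivity

end aux

theorem few_bad {K : Type*} [Field K] [NumberField K] [IsGalois ℚ K] (σ : K →+* ℂ)
    (ℓ : ∀ q : Nat.Primes, Loc K q) {r : ℕ} (b : Fin r → K) (hb : ∀ i, IsIntegral ℤ (b i))
    (n : ℕ) (hn : ∀ i, (orb (b i)).card ≤ n) (η : ℝ) (hη : ∀ i, n * hh σ (b i) ≤ η)
    (β : ℝ) (hβ : 0 < β) (N : ℕ) (hN : 2 ≤ N) (Ψ : Finset Nat.Primes)
    (hΨ : ∀ q ∈ Ψ, N ≤ (q : ℕ) ∧
      β * (Fintype.card (K ≃ₐ[ℚ] K) : ℝ) < ((bad (ℓ q) b).card : ℝ)) :
    (Ψ.card : ℝ) * (β * Real.log N) ≤ 4 * (r : ℝ) ^ 2 * (Real.log n + η) := by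
  classical
  have hG : (0 : ℝ) < Fintype.card (K ≃ₐ[ℚ] K) := by
    exact_mod_cast Fintype.card_pos
  have hN1 : (2 : ℝ) ≤ N := by exact_mod_cast hN
  have hlogN : 0 < Real.log N := Real.log_pos (by linarith)
  set Ψi : Fin r → Finset Nat.Primes := fun i =>
    Ψ.filter (fun q => β * (orb (b i)).card < r * (nons (ℓ q) (b i)).card) with hΨi
  -- (2) every prime is bad for some `i`
  have h2 : Ψ ⊆ Finset.univ.biUnion Ψi := by
    intro q hq
    by_contra hcon
    have hall : ∀ i, (r : ℝ) * (nons (ℓ q) (b i)).card ≤ β * (orb (b i)).card := by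
      intro i
      by_contra h
      push Not at h
      exact hcon (Finset.mem_biUnion.2 ⟨i, Finset.mem_univ _, Finset.mem_filter.2 ⟨hq, h⟩⟩)
    have h3 := (hΨ q hq).2.trans_le (fb_bad (ℓ q) b)
    have h4 : ∀ i : Fin r, ((Finset.univ.filter fun g : K ≃ₐ[ℚ] K =>
        ¬ Simple (ℓ q) (g (b i))).card : ℝ) * r ≤ β * Fintype.card (K ≃ₐ[ℚ] K) := by
      intro i
      have h5 := fb_card_nons (ℓ q) (b i)
      have h6 : (0 : ℝ) < (orb (b i)).card := by exact_mod_cast fb_orb_pos (b i)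
      have h7 := hall i
      rw [← mul_le_mul_iff_right₀ h6]
      calc ((orb (b i)).card : ℝ) * (((Finset.univ.filter fun g : K ≃ₐ[ℚ] K =>
            ¬ Simple (ℓ q) (g (b i))).card : ℝ) * r)
          = (Fintype.card (K ≃ₐ[ℚ] K) : ℝ) * (r * (nons (ℓ q) (b i)).card) := by
            rw [← mul_assoc, h5]; ring
        _ ≤ (Fintype.card (K ≃ₐ[ℚ] K) : ℝ) * (β * (orb (b i)).card) :=
            mul_le_mul_of_nonneg_left h7 hG.le
        _ = (orb (b i)).card * (β * Fintype.card (K ≃ₐ[ℚ] K)) := by ring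
    have h5 := Finset.sum_le_sum fun (i : Fin r) (_ : i ∈ Finset.univ) => h4 i
    rw [← Finset.sum_mul, Finset.sum_const, Finset.card_univ, Fintype.card_fin,
      nsmul_eq_mul] at h5
    rcases Nat.eq_zero_or_pos r with hr | hr
    · subst hr
      simp only [Finset.univ_eq_empty, Finset.sum_empty] at h3
      have : 0 < β * (Fintype.card (K ≃ₐ[ℚ] K) : ℝ) := by positivity
      linarith
    · have hr' : (0 : ℝ) < r := by exact_mod_cast hr
      have h6 : (r : ℝ) * (β * Fintype.card (K ≃ₐ[ℚ] K)) <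
          r * (∑ i, ((Finset.univ.filter fun g : K ≃ₐ[ℚ] K =>
            ¬ Simple (ℓ q) (g (b i))).card : ℝ)) := mul_lt_mul_of_pos_left h3 hr'
      rw [mul_comm (r : ℝ) (∑ i, _)] at h6
      linarith
  -- (3) bound for each `i`
  have h3 : ∀ i, ((Ψi i).card : ℝ) * (β * Real.log N) ≤ 4 * r * (Real.log n + η) := by
    intro i
    have hr : (0 : ℝ) < r := by exact_mod_cast (Fin.pos i)
    set x := b i with hx
    obtain ⟨D, hD, hD0, hdvd⟩ := disc_dvd x (hb i) (orb x).equivFin.symm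
    have hbound := disc_bound σ x (orb x).equivFin.symm D hD0 hD
    set m : Nat.Primes → ℕ := fun q => ((nons (ℓ q) x).card + 1) / 2 with hm
    have hprod : ∏ q ∈ Ψi i, ((q : ℕ) : ℤ) ^ m q ∣ D := by
      refine Finset.prod_dvd_of_coprime ?_ fun q _ => hdvd q q.2 (ℓ q)
      intro p _ q _ hpq
      refine IsCoprime.pow ?_
      rw [Nat.isCoprime_iff_coprime]
      exact (Nat.coprime_primes p.2 q.2).2 fun h => hpq (Subtype.ext h)
    have hposq : ∀ q : Nat.Primes, (0 : ℝ) < ((q : ℕ) : ℝ) := fun q => by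
      exact_mod_cast q.2.pos
    have hle : ∏ q ∈ Ψi i, ((q : ℕ) : ℝ) ^ m q ≤ |(D : ℝ)| := by
      have h4 : (∏ q ∈ Ψi i, ((q : ℕ) : ℤ) ^ m q) ≤ |D| :=
        Int.le_of_dvd (abs_pos.2 hD0) ((dvd_abs _ _).2 hprod)
      have h5 : ((∏ q ∈ Ψi i, ((q : ℕ) : ℤ) ^ m q : ℤ) : ℝ) ≤ ((|D| : ℤ) : ℝ) := by
        exact_mod_cast h4
      push_cast at h5
      exact h5
    have hlog : ∑ q ∈ Ψi i, (m q : ℝ) * Real.log ((q : ℕ) : ℝ) ≤ Real.log |(D : ℝ)| := by
      have h4 := Real.log_le_log (Finset.prod_pos fun q _ => pow_pos (hposq q) _) hle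
      rw [Real.log_prod (fun q _ => (pow_pos (hposq q) _).ne')] at h4
      simpa only [Real.log_pow] using h4
    have hx0 : (0 : ℝ) < (orb x).card := by exact_mod_cast fb_orb_pos x
    have hlow : ((Ψi i).card : ℝ) * (β * (orb x).card / (2 * r) * Real.log N) ≤
        ∑ q ∈ Ψi i, (m q : ℝ) * Real.log ((q : ℕ) : ℝ) := by
      rw [← nsmul_eq_mul]
      refine Finset.card_nsmul_le_sum _ _ _ fun q hq => ?_
      rw [hΨi, Finset.mem_filter] at hq
      have h5 : Real.log N ≤ Real.log ((q : ℕ) : ℝ) :=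
        Real.log_le_log (by linarith) (by exact_mod_cast (hΨ q hq.1).1)
      have h6 : β * (orb x).card / (2 * r) ≤ (m q : ℝ) := by
        have h7 : ((nons (ℓ q) x).card : ℝ) ≤ 2 * (m q : ℝ) := by
          have : (nons (ℓ q) x).card ≤ 2 * m q := by
            simp only [hm]; omega
          exact_mod_cast this
        rw [div_le_iff₀ (by positivity)]
        have h8 := hq.2
        nlinarith
      exact mul_le_mul h6 h5 hlogN.le (by positivity)
    have hup : Real.log |(D : ℝ)| ≤ 2 * (orb x).card * (Real.log n + η) := by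
      refine hbound.trans ?_
      have h5 : Real.log (orb x).card ≤ Real.log n :=
        Real.log_le_log hx0 (by exact_mod_cast hn i)
      have h6 : ((orb x).card : ℝ) * hh σ x ≤ η := by
        refine le_trans (mul_le_mul_of_nonneg_right ?_ (fb_hh_nonneg σ x)) (hη i)
        exact_mod_cast hn i
      have h7 : (0 : ℝ) ≤ 2 * (orb x).card := by positivity
      calc 2 * ((orb x).card : ℝ) * Real.log (orb x).card + 2 * (orb x).card * (orb x).card * hh σ x
          = 2 * (orb x).card * (Real.log (orb x).card + (orb x).card * hh σ x) := by ring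
        _ ≤ 2 * (orb x).card * (Real.log n + η) :=
            mul_le_mul_of_nonneg_left (add_le_add h5 h6) h7
    have hfin := (hlow.trans hlog).trans hup
    have h8 : ((Ψi i).card : ℝ) * (β * Real.log N) * ((orb x).card / (2 * r)) ≤
        4 * r * (Real.log n + η) * ((orb x).card / (2 * r)) := by
      calc ((Ψi i).card : ℝ) * (β * Real.log N) * ((orb x).card / (2 * r))
          = ((Ψi i).card : ℝ) * (β * (orb x).card / (2 * r) * Real.log N) := by ring
        _ ≤ 2 * (orb x).card * (Real.log n + η) := hfin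
        _ = 4 * r * (Real.log n + η) * ((orb x).card / (2 * r)) := by
            field_simp
            ring
    exact le_of_mul_le_mul_right h8 (by positivity)
  have h4 : (Ψ.card : ℝ) ≤ ∑ i, ((Ψi i).card : ℝ) := by
    have := (Finset.card_le_card h2).trans Finset.card_biUnion_le
    exact_mod_cast this
  calc (Ψ.card : ℝ) * (β * Real.log N) ≤ (∑ i, ((Ψi i).card : ℝ)) * (β * Real.log N) :=
        mul_le_mul_of_nonneg_right h4 (by positivity)
    _ = ∑ i, ((Ψi i).card : ℝ) * (β * Real.log N) := Finset.sum_mul _ _ _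
    _ ≤ ∑ _i : Fin r, 4 * r * (Real.log n + η) := Finset.sum_le_sum fun i _ => h3 i
    _ = 4 * (r : ℝ) ^ 2 * (Real.log n + η) := by
        rw [Finset.sum_const, Finset.card_univ, Fintype.card_fin, nsmul_eq_mul]
        ring

end H25.Arith
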