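import Pool.Agent.H25.Arith.LemE

/-!
# AH-LEMECOR : the joint dimension is bounded by `C₁ Hd`

PROOF. Put `T = ⌈(4/3) (r/d + 3)⌉₊`, `C₁ = T^r * (1 + ⌈r/d + r T/d + 2⌉₊)`. Take `R, E` from `lemmaE_raw`, `β = 1/4`.
Let `S = ∑ hh ≥ 0`, `λ = log N ≥ log 2`. `n ≥ L + 1 ≥ 1`; `log (L+1) ≤ log n ≤ λ/d` (from `n^d ≤ N`).
`Q L S ≤ 1`. If `Ψ` is empty then `Jd = 0` (the span of vectors in `∅ → K` is `0`): trivial. Otherwise `Q ≥ q ≥ 2`,
so `L S ≤ Q L S ≤ 1`. And `1 ≤ 2 log 2 ≤ 2 λ`. So the inequality of `lemmaE_raw` gives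
`(3/4) T λ E ≤ (R+E) r λ/d + R (r T λ/d + 2 λ) + 2 λ E`; divide by `λ > 0`:
`E ((3/4) T - r/d - 2) ≤ R (r/d + r T/d + 2)`, and `(3/4) T - r/d - 2 ≥ 1`. So `E ≤ R (r/d + rT/d + 2)`,
`Jd ≤ R + E ≤ R (1 + ⌈..⌉₊) ≤ T^r Hd (1 + ⌈..⌉₊)`.
-/

open H61.Geo

namespace H25.Arith

private theorem lemECor_empty {K : Type} [Field K] [NumberField K] [IsGalois ℚ K] {r : ℕ}
    (b : Fin r → K) (L : ℕ) : Jd b ∅ L = 0 := by
  unfold Jd
  have h1 : Subsingleton ((∅ : Finset Nat.Primes) → K) :=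
    ⟨fun f g => funext fun q => absurd q.2 (Finset.notMem_empty _)⟩
  exact Module.finrank_zero_of_subsingleton

private theorem lemECor_arith {r T c lam d R E LS QLS l1 : ℝ} (hr : 0 ≤ r)
    (hT : r / d + 3 ≤ 3 / 4 * T) (hT0 : 0 ≤ T) (hc : r / d + r * T / d + 2 ≤ c) (hlam : 1 / 2 ≤ lam)
    (hR : 0 ≤ R) (hE : 0 ≤ E) (hl1 : l1 ≤ lam / d) (hLS : LS ≤ 1) (hQLS : QLS ≤ 1)
    (h4 : T * ((1 - 1 / 4) * lam) * E ≤ (R + E) * (r * l1) + R * (r * T * l1 + LS) + E * QLS) :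
    E ≤ R * c := by
  have hlam0 : 0 < lam := by linarith
  have e1 : (R + E) * (r * l1) ≤ (R + E) * (r * (lam / d)) :=
    mul_le_mul_of_nonneg_left (mul_le_mul_of_nonneg_left hl1 hr) (by linarith)
  have e2 : R * (r * T * l1 + LS) ≤ R * (r * T * (lam / d) + 2 * lam) := by
    refine mul_le_mul_of_nonneg_left ?_ hR
    have := mul_le_mul_of_nonneg_left hl1 (mul_nonneg hr hT0)
    linarith
  have e3 : E * QLS ≤ E * (2 * lam) := mul_le_mul_of_nonneg_left (by linarith) hE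
  have e4 : lam * (3 / 4 * T * E) ≤ lam * ((R + E) * (r / d) + R * (r * T / d + 2) + 2 * E) := by
    have e5 : lam * (3 / 4 * T * E) = T * ((1 - 1 / 4) * lam) * E := by ring
    have e6 : lam * ((R + E) * (r / d) + R * (r * T / d + 2) + 2 * E) =
        (R + E) * (r * (lam / d)) + R * (r * T * (lam / d) + 2 * lam) + E * (2 * lam) := by ring
    rw [e5, e6]
    linarith
  have e7 := le_of_mul_le_mul_left e4 hlam0
  have e8 : (r / d + 3) * E ≤ 3 / 4 * T * E := mul_le_mul_of_nonneg_right hT hE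
  have e9 : E ≤ R * (r / d + r * T / d + 2) := by nlinarith
  exact e9.trans (mul_le_mul_of_nonneg_left hc hR)

theorem lemmaE (r : ℕ) (d : ℝ) (hd : 0 < d) : ∃ C1 : ℕ,
    ∀ (K : Type) [Field K] [NumberField K] [IsGalois ℚ K] (σ : K →+* ℂ)
      (ℓ : ∀ q : Nat.Primes, Loc K q) (b : Fin r → K),
      (∀ i, b i ≠ 0) → (∀ i, IsIntegral ℤ (b i)) →
      ∀ (n N Q L : ℕ) (Ψ : Finset Nat.Primes), 2 ≤ N → (n : ℝ) ^ d ≤ N → L + 1 ≤ n →
      (∀ q ∈ Ψ, N ≤ (q : ℕ) ∧ (q : ℕ) ≤ Q ∧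
        ((bad (ℓ q) b).card : ℝ) ≤ 1 / 4 * Fintype.card (K ≃ₐ[ℚ] K)) →
      (Q : ℝ) * L * ∑ i, hh σ (b i) ≤ 1 → Jd b Ψ L ≤ C1 * Hd ℚ b L := by
  set T : ℕ := ⌈(4 / 3 : ℝ) * (r / d + 3)⌉₊ with hTdef
  set c : ℕ := ⌈(r : ℝ) / d + r * T / d + 2⌉₊ with hcdef
  refine ⟨T ^ r * (1 + c), ?_⟩
  intro K _ _ _ σ ℓ b hb0 hbi n N Q L Ψ hN hnN hL hΨ hQ
  rcases Ψ.eq_empty_or_nonempty with rfl | hne
  · rw [lemECor_empty]; exact Nat.zero_le _
  obtain ⟨q0, hq0⟩ := hne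
  obtain ⟨R, E, h1, _, h3, h4⟩ := lemmaE_raw σ ℓ b hb0 hbi L T Ψ N Q hN (1 / 4) hΨ
  have hS : 0 ≤ ∑ i, hh σ (b i) := by
    refine Finset.sum_nonneg fun i _ => ?_
    unfold hh
    refine div_nonneg (Finset.sum_nonneg fun g _ => Real.log_nonneg (le_max_left _ _)) ?_
    positivity
  have hQ1 : (1 : ℝ) ≤ Q := by
    have := (hΨ q0 hq0).2.1
    have h5 := q0.2.one_lt
    have h6 : 1 ≤ Q := by omega
    exact_mod_cast h6
  have hLS : (L : ℝ) * ∑ i, hh σ (b i) ≤ 1 := by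
    refine le_trans ?_ hQ
    rw [mul_assoc]
    exact le_mul_of_one_le_left (mul_nonneg (Nat.cast_nonneg _) hS) hQ1
  have hlam : 1 / 2 ≤ Real.log N := by
    have h5 : (2 : ℝ) ≤ N := by exact_mod_cast hN
    have h6 := Real.log_le_log (by norm_num) h5
    have := Real.log_two_gt_d9
    linarith
  have hl1 : Real.log ((L : ℝ) + 1) ≤ Real.log N / d := by
    have h5 : (L : ℝ) + 1 ≤ n := by exact_mod_cast hL
    have h6 : 0 < (L : ℝ) + 1 := by positivity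
    have h7 := Real.log_le_log h6 h5
    have hn0 : (0 : ℝ) < n := lt_of_lt_of_le h6 h5
    have h8 := Real.log_le_log (Real.rpow_pos_of_pos hn0 d) hnN
    rw [Real.log_rpow hn0] at h8
    rw [le_div_iff₀ hd]
    have h9 := mul_le_mul_of_nonneg_right h7 hd.le
    linarith
  have hT1 : (r : ℝ) / d + 3 ≤ 3 / 4 * T := by
    have := Nat.le_ceil ((4 / 3 : ℝ) * (r / d + 3))
    rw [← hTdef] at this
    linarith
  have hc1 : (r : ℝ) / d + r * T / d + 2 ≤ c := Nat.le_ceil _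
  have key := lemECor_arith (r := (r : ℝ)) (T := (T : ℝ)) (c := (c : ℝ)) (lam := Real.log N)
    (d := d) (R := (R : ℝ)) (E := (E : ℝ))
    (Nat.cast_nonneg _) hT1
    (Nat.cast_nonneg _) hc1 hlam (Nat.cast_nonneg _) (Nat.cast_nonneg _) hl1 hLS hQ h4
  have key2 : E ≤ R * c := by exact_mod_cast key
  calc Jd b Ψ L ≤ R + E := h3
    _ ≤ R + R * c := by omega
    _ = R * (1 + c) := by ring
    _ ≤ (T ^ r * Hd ℚ b L) * (1 + c) := Nat.mul_le_mul_right _ h1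
    _ = T ^ r * (1 + c) * Hd ℚ b L := by ring

end H25.Arith
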