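import Mathlib

/-!
# AH-PRIMES : many primes in `[N, N^2]`

PROOF. `#{p prime, N ≤ p ≤ N^2} ≥ π(N^2) - N`, and by `Chebyshev.pi_ge` (Mathlib/NumberTheory/Chebyshev.lean)
`π(m) ≥ (m log 2 - log (m+1)) / log m`; with `m = N^2`: `≥ (N^2 log 2 - log (N^2+1))/(2 log N) - N ≥ C N` for `N`
large since `N / log N → ∞`.
-/

namespace H25.Arith

theorem many_primes (C : ℕ) : ∃ N0 : ℕ, ∀ N : ℕ, N0 ≤ N →
    C * N ≤ ((Finset.Icc N (N ^ 2)).filter Nat.Prime).card := by
  refine ⟨256 * (C + 1) ^ 2 + 8, fun N hN => ?_⟩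
  have hN8 : (8 : ℝ) ≤ N := by
    have : 8 ≤ N := le_trans (Nat.le_add_left _ _) hN
    exact_mod_cast this
  have hNpos : (0 : ℝ) < N := by linarith
  have hC0 : (0 : ℝ) ≤ C := Nat.cast_nonneg _
  have hs : 16 * ((C : ℝ) + 1) ≤ Real.sqrt N := by
    apply Real.le_sqrt_of_sq_le
    have : 256 * (C + 1) ^ 2 ≤ N := le_trans (Nat.le_add_right _ _) hN
    have h2 : ((256 * (C + 1) ^ 2 : ℕ) : ℝ) ≤ N := by exact_mod_cast this
    push_cast at h2
    nlinarith
  have hsq : Real.sqrt N * Real.sqrt N = N := Real.mul_self_sqrt hNpos.le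
  have hspos : 0 < Real.sqrt N := Real.sqrt_pos.mpr hNpos
  -- card bound
  have hcard : Nat.primeCounting (N ^ 2) ≤ ((Finset.Icc N (N ^ 2)).filter Nat.Prime).card + N := by
    have h1 : (Nat.primesLE (N ^ 2)) ⊆ (Finset.Icc N (N ^ 2)).filter Nat.Prime ∪ Finset.range N := by
      intro p hp
      rw [Nat.mem_primesLE] at hp
      by_cases h : p < N
      · exact Finset.mem_union_right _ (Finset.mem_range.mpr h)
      · refine Finset.mem_union_left _ (Finset.mem_filter.mpr ⟨Finset.mem_Icc.mpr ⟨by omega, hp.1⟩, hp.2⟩)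
    have h2 := Finset.card_le_card h1
    have h3 := Finset.card_union_le ((Finset.Icc N (N ^ 2)).filter Nat.Prime) (Finset.range N)
    rw [Finset.card_range] at h3
    have h4 : (Nat.primesLE (N ^ 2)).card = Nat.primeCounting (N ^ 2) :=
      Nat.primesLE_card_eq_primeCounting _
    omega
  have hpi := Chebyshev.pi_ge (N ^ 2)
  have hlog1 : Real.log ((N : ℝ) ^ 2) ≤ 4 * Real.sqrt N := by
    have e1 : ((N : ℝ)) ^ 2 = (Real.sqrt N) ^ 4 := by
      calc ((N : ℝ)) ^ 2 = (Real.sqrt N * Real.sqrt N) ^ 2 := by rw [hsq]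
        _ = (Real.sqrt N) ^ 4 := by ring
    rw [e1, Real.log_pow]
    have := Real.log_le_sub_one_of_pos hspos
    push_cast
    nlinarith
  have hlogpos : 0 < Real.log ((N : ℝ) ^ 2) := Real.log_pos (by nlinarith)
  have hlog2 : Real.log ((N : ℝ) ^ 2 + 1) ≤ 2 * N := by
    have h1 : (N : ℝ) ^ 2 + 1 ≤ ((N : ℝ) + 1) ^ 2 := by nlinarith
    have h2 : Real.log ((N : ℝ) ^ 2 + 1) ≤ Real.log (((N : ℝ) + 1) ^ 2) :=
      Real.log_le_log (by positivity) h1
    rw [Real.log_pow] at h2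
    have h3 := Real.log_le_sub_one_of_pos (show (0 : ℝ) < N + 1 by linarith)
    push_cast at h2
    nlinarith
  have hl2 : (1 : ℝ) / 2 ≤ Real.log 2 := by
    have := Real.log_two_gt_d9
    linarith
  have hnum : (N : ℝ) ^ 2 / 4 ≤ (N : ℝ) ^ 2 * Real.log 2 - Real.log ((N : ℝ) ^ 2 + 1) := by
    nlinarith [mul_le_mul_of_nonneg_left hl2 (sq_nonneg (N : ℝ)), mul_le_mul_of_nonneg_right hN8 hNpos.le]
  have hpi2 : ((C : ℝ) + 1) * N ≤ (Nat.primeCounting (N ^ 2) : ℝ) := by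
    push_cast at hpi
    refine le_trans ?_ hpi
    rw [le_div_iff₀ hlogpos]
    have h5 : ((C : ℝ) + 1) * N * Real.log ((N : ℝ) ^ 2) ≤ ((C : ℝ) + 1) * N * (4 * Real.sqrt N) :=
      mul_le_mul_of_nonneg_left hlog1 (by positivity)
    have h6 : ((C : ℝ) + 1) * N * (4 * Real.sqrt N) ≤ (N : ℝ) ^ 2 / 4 := by
      have : 16 * ((C : ℝ) + 1) * Real.sqrt N ≤ N := by
        calc 16 * ((C : ℝ) + 1) * Real.sqrt N ≤ Real.sqrt N * Real.sqrt N :=
              mul_le_mul_of_nonneg_right hs hspos.le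
          _ = N := hsq
      nlinarith [mul_le_mul_of_nonneg_left this hNpos.le]
    linarith
  have hfin : ((C * N : ℕ) : ℝ) + N ≤ ((((Finset.Icc N (N ^ 2)).filter Nat.Prime).card + N : ℕ) : ℝ) := by
    calc ((C * N : ℕ) : ℝ) + N = ((C : ℝ) + 1) * N := by push_cast; ring
      _ ≤ (Nat.primeCounting (N ^ 2) : ℝ) := hpi2
      _ ≤ _ := by exact_mod_cast hcard
  have : C * N + N ≤ ((Finset.Icc N (N ^ 2)).filter Nat.Prime).card + N := by exact_mod_cast hfin
  omega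

end H25.Arith
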