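import Pool.Agent.H25.Arith.LocEx
import Pool.Agent.H25.Arith.FewBad
import Pool.Agent.H25.Arith.LemECor
import Pool.Agent.H25.Arith.PrimeCount

/-!
# AH-FIN2 : good primes for `a^m`

PROOF. `C₁` from `lemmaE r d`; `ℓ q := Classical.choice (exists_loc K q q.2)`; `b := pw a m`, `b i = a i ^ m`:
nonzero, integral, `#(orb (b i)) ≤ #(orb (a i)) ≤ n` (`orb_pow_card_le`), `hh σ (b i) = m hh σ (a i)` (`hh_pow`), so
`n hh σ (b i) ≤ m ≤ N^2`. `N ≥ n^d` is large, `log n ≤ log N/d`, `1 ≤ 2 log N`.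
(1) `Ψ₂` = the primes in `[N^3, N^6]` (`N^6 = (N^3)^2`): `#Ψ₂ ≥ 2 N^3` by `many_primes` (`C = 2`).
    `B₂ := {q ∈ Ψ₂ | #bad (ℓ q) b > #G/4}`: `few_bad` (`η = N^2`, `β = 1/4`, `N^3` for `N`):
    `#B₂ * log(N^3)/4 ≤ 4 r^2 (log n + N^2)`, so `#B₂ ≤ 16 r^2 (1/d + 2 N^2) ≤ N^3` for `N` large.
    `LL := Ψ₂ \ B₂` (mapped to `Finset ℕ`), `#LL ≥ N^3`.
(2) `l ∈ LL`, `L * N^9 ≤ n`: `lemmaE` for `b`, `Ψ = {l}`, `Q = N^6` and `N^3` for `N` (`n^d ≤ N ≤ N^3`):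
    `Q L ∑ hh (b i) ≤ N^6 L r N^2/n ≤ r N^8/N^9 ≤ 1` (`N ≥ r`), `L + 1 ≤ n`. So
    `Hd (pw b l) L ≤ Jd b {l} L ≤ C₁ Hd b L` (`Hd_pw_le_Jd`).
-/

open H61.Geo MvPolynomial

namespace H25.Arith

lemma fin2_pow_large (d : ℝ) (hd : 0 < d) (M : ℕ) : ∃ n0 : ℕ, 1 ≤ n0 ∧
    ∀ n N : ℕ, n0 ≤ n → (n : ℝ) ^ d ≤ N → M ≤ N := by
  refine ⟨⌈(M : ℝ) ^ (1 / d)⌉₊ + 1, by omega, fun n N hn hN => ?_⟩
  have h1 : (M : ℝ) ^ (1 / d) ≤ n := by
    refine (Nat.le_ceil _).trans ?_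
    exact_mod_cast (Nat.le_succ _).trans hn
  have h2 : (M : ℝ) ≤ (n : ℝ) ^ d := by
    calc (M : ℝ) = ((M : ℝ) ^ (1 / d)) ^ d := by
          rw [← Real.rpow_mul (Nat.cast_nonneg _), one_div, inv_mul_cancel₀ hd.ne', Real.rpow_one]
      _ ≤ (n : ℝ) ^ d := Real.rpow_le_rpow (by positivity) h1 hd.le
  exact_mod_cast h2.trans hN

theorem step_two (r : ℕ) (d : ℝ) (hd : 0 < d) : ∃ C1 n0 : ℕ,
    ∀ (K : Type) [Field K] [NumberField K] [IsGalois ℚ K] (σ : K →+* ℂ) (a : Fin r → K)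
      (n N m : ℕ), n0 ≤ n → (n : ℝ) ^ d ≤ N → (∀ i, a i ≠ 0) → (∀ i, IsIntegral ℤ (a i)) →
      (∀ i, (orb (a i)).card ≤ n) → (∀ i, n * hh σ (a i) ≤ 1) → m ≤ N ^ 2 →
      ∃ LL : Finset ℕ, N ^ 3 ≤ LL.card ∧ ∀ l ∈ LL, l.Prime ∧ N ^ 3 ≤ l ∧ l ≤ N ^ 6 ∧
        ∀ L : ℕ, L * N ^ 9 ≤ n → Hd ℚ (pw (pw a m) l) L ≤ C1 * Hd ℚ (pw a m) L := by
  classical
  obtain ⟨C1, hC1⟩ := lemmaE r d hd
  obtain ⟨N0, hN0⟩ := many_primes 2
  obtain ⟨n0, hn0, hn0'⟩ := fin2_pow_large d hd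
    (N0 + 2 + r + ⌈6 * (r : ℝ) ^ 2 * (1 / d + 2)⌉₊)
  refine ⟨C1, n0, ?_⟩
  intro K _ _ _ σ a n N m hn hnN ha0 hai hcard hhh hm
  have hNbig := hn0' n N hn hnN
  have hN2 : 2 ≤ N := by omega
  have hNr : r ≤ N := by omega
  have hNN0 : N0 ≤ N := by omega
  have hNc : 6 * (r : ℝ) ^ 2 * (1 / d + 2) ≤ N := by
    refine (Nat.le_ceil _).trans ?_
    exact_mod_cast (by omega : ⌈6 * (r : ℝ) ^ 2 * (1 / d + 2)⌉₊ ≤ N)
  have hn1 : 1 ≤ n := hn0.trans hn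
  have hn1' : (1 : ℝ) ≤ n := by exact_mod_cast hn1
  have hn' : (0 : ℝ) < n := by linarith
  have hN2' : (2 : ℝ) ≤ N := by exact_mod_cast hN2
  have hNN3 : N ≤ N ^ 3 := Nat.le_self_pow (by norm_num) N
  set ℓ : ∀ q : Nat.Primes, Loc K q := fun q => Classical.choice (exists_loc K q q.2) with hℓ
  set b : Fin r → K := pw a m with hb
  have hb0 : ∀ i, b i ≠ 0 := fun i => pow_ne_zero _ (ha0 i)
  have hbi : ∀ i, IsIntegral ℤ (b i) := fun i => (hai i).pow _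
  have hbc : ∀ i, (orb (b i)).card ≤ n := fun i => (orb_pow_card_le (a i) m).trans (hcard i)
  have hbh : ∀ i, n * hh σ (b i) ≤ (N : ℝ) ^ 2 := by
    intro i
    have h1 : hh σ (b i) = m * hh σ (a i) := hh_pow σ (a i) m
    have h2 : (m : ℝ) ≤ (N : ℝ) ^ 2 := by exact_mod_cast hm
    rw [h1]
    have h3 := hhh i
    have h4 := hh_nonneg σ (a i)
    calc (n : ℝ) * (m * hh σ (a i)) = m * (n * hh σ (a i)) := by ring
      _ ≤ m * 1 := mul_le_mul_of_nonneg_left h3 (Nat.cast_nonneg _)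
      _ ≤ (N : ℝ) ^ 2 := by simpa using h2
  set Ψ₂ : Finset Nat.Primes := (Finset.Icc (N ^ 3) ((N ^ 3) ^ 2)).subtype Nat.Prime with hΨ₂
  have hmem : ∀ q : Nat.Primes, q ∈ Ψ₂ → N ^ 3 ≤ (q : ℕ) ∧ (q : ℕ) ≤ N ^ 6 := by
    intro q hq
    have h1 : (q : ℕ) ∈ Finset.Icc (N ^ 3) ((N ^ 3) ^ 2) := Finset.mem_subtype.1 hq
    rw [Finset.mem_Icc, ← pow_mul] at h1
    exact h1
  have hΨcard : 2 * N ^ 3 ≤ Ψ₂.card := by
    have h1 : Ψ₂.card = ((Finset.Icc (N ^ 3) ((N ^ 3) ^ 2)).filter Nat.Prime).card :=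
      Finset.card_subtype _ _
    rw [h1]
    exact hN0 (N ^ 3) (hNN0.trans hNN3)
  set B₂ : Finset Nat.Primes := Ψ₂.filter
    (fun q => (1 / 4 : ℝ) * (Fintype.card (K ≃ₐ[ℚ] K) : ℝ) < ((bad (ℓ q) b).card : ℝ)) with hB₂
  have hNlog : (1 : ℝ) / 2 ≤ Real.log N := by
    have h1 := Real.log_two_gt_d9
    have h2 : Real.log 2 ≤ Real.log N := Real.log_le_log (by norm_num) hN2'
    linarith
  have hlogn : Real.log n ≤ Real.log N / d := by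
    rw [le_div_iff₀ hd]
    have h1 : Real.log ((n : ℝ) ^ d) ≤ Real.log N := Real.log_le_log (by positivity) hnN
    rw [Real.log_rpow hn'] at h1
    linarith
  have hB : (B₂.card : ℝ) ≤ (N : ℝ) ^ 3 := by
    have h1 := few_bad σ ℓ b hbi n hbc ((N : ℝ) ^ 2) hbh (1 / 4) (by norm_num) (N ^ 3)
      (hN2.trans hNN3) B₂ (fun q hq => by
        rw [hB₂, Finset.mem_filter] at hq
        exact ⟨(hmem q hq.1).1, hq.2⟩)
    have h2 : Real.log ((N ^ 3 : ℕ) : ℝ) = 3 * Real.log N := by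
      push_cast
      rw [Real.log_pow]
      norm_num
    rw [h2] at h1
    have hlogpos : 0 < Real.log N := by linarith
    have h3 : Real.log n + (N : ℝ) ^ 2 ≤ Real.log N * (1 / d + 2 * (N : ℝ) ^ 2) := by
      have h4 : (N : ℝ) ^ 2 ≤ Real.log N * (2 * (N : ℝ) ^ 2) := by nlinarith [sq_nonneg (N : ℝ)]
      have h5 : Real.log N / d = Real.log N * (1 / d) := by ring
      linarith
    have h4 : (1 : ℝ) / d + 2 * (N : ℝ) ^ 2 ≤ (N : ℝ) ^ 2 * (1 / d + 2) := by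
      have h5 : (0 : ℝ) ≤ 1 / d := by positivity
      have h6 : (1 : ℝ) ≤ (N : ℝ) ^ 2 := by nlinarith
      nlinarith
    have h5 : (B₂.card : ℝ) * (1 / 4 * (3 * Real.log N)) ≤
        Real.log N * (4 * (r : ℝ) ^ 2 * ((N : ℝ) ^ 2 * (1 / d + 2))) := by
      calc (B₂.card : ℝ) * (1 / 4 * (3 * Real.log N)) ≤
          4 * (r : ℝ) ^ 2 * (Real.log n + (N : ℝ) ^ 2) := h1
        _ ≤ 4 * (r : ℝ) ^ 2 * (Real.log N * (1 / d + 2 * (N : ℝ) ^ 2)) :=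
            mul_le_mul_of_nonneg_left h3 (by positivity)
        _ ≤ 4 * (r : ℝ) ^ 2 * (Real.log N * ((N : ℝ) ^ 2 * (1 / d + 2))) :=
            mul_le_mul_of_nonneg_left (mul_le_mul_of_nonneg_left h4 hlogpos.le) (by positivity)
        _ = _ := by ring
    have h6 : (B₂.card : ℝ) * (3 / 4) ≤ 4 * (r : ℝ) ^ 2 * ((N : ℝ) ^ 2 * (1 / d + 2)) := by
      refine le_of_mul_le_mul_left ?_ hlogpos
      calc Real.log N * ((B₂.card : ℝ) * (3 / 4)) = (B₂.card : ℝ) * (1 / 4 * (3 * Real.log N)) := by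
            ring
        _ ≤ _ := h5
    have h7 : (6 * (r : ℝ) ^ 2 * (1 / d + 2)) * (N : ℝ) ^ 2 ≤ N * (N : ℝ) ^ 2 :=
      mul_le_mul_of_nonneg_right hNc (by positivity)
    have h8 : 0 ≤ (r : ℝ) ^ 2 * (1 / d + 2) * (N : ℝ) ^ 2 := by positivity
    nlinarith
  have hB' : B₂.card ≤ N ^ 3 := by exact_mod_cast hB
  let emb : Nat.Primes ↪ ℕ := ⟨fun q => (q : ℕ), Subtype.val_injective⟩
  refine ⟨(Ψ₂ \ B₂).map emb, ?_, ?_⟩
  · have h1 : Ψ₂.card ≤ (Ψ₂ \ B₂).card + B₂.card :=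
      Finset.card_le_card_sdiff_add_card
    rw [Finset.card_map]
    omega
  · intro l hl
    obtain ⟨q, hq, rfl⟩ := Finset.mem_map.1 hl
    rw [Finset.mem_sdiff] at hq
    obtain ⟨hq1, hq2⟩ := hq
    have hq3 := hmem q hq1
    refine ⟨q.2, hq3.1, hq3.2, fun L hL => ?_⟩
    have hbad : ((bad (ℓ q) b).card : ℝ) ≤ 1 / 4 * Fintype.card (K ≃ₐ[ℚ] K) := by
      by_contra h
      push Not at h
      exact hq2 (Finset.mem_filter.2 ⟨hq1, h⟩)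
    have hNpow : 2 ≤ N ^ 9 := hN2.trans (Nat.le_self_pow (by norm_num) N)
    have hLn : L + 1 ≤ n := by
      rcases Nat.eq_zero_or_pos L with h | h
      · omega
      · have h1 : L * 2 ≤ L * N ^ 9 := Nat.mul_le_mul_left L hNpow
        omega
    have hQ : ((N ^ 6 : ℕ) : ℝ) * L * ∑ i, hh σ (b i) ≤ 1 := by
      have h1 : (n : ℝ) * (((N ^ 6 : ℕ) : ℝ) * L * ∑ i, hh σ (b i)) ≤ n * 1 := by
        have h2 : (n : ℝ) * ∑ i, hh σ (b i) ≤ r * (N : ℝ) ^ 2 := by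
          rw [Finset.mul_sum]
          calc ∑ i, (n : ℝ) * hh σ (b i) ≤ ∑ _i : Fin r, (N : ℝ) ^ 2 :=
                Finset.sum_le_sum fun i _ => hbh i
            _ = r * (N : ℝ) ^ 2 := by
                rw [Finset.sum_const, Finset.card_univ, Fintype.card_fin, nsmul_eq_mul]
        have h3 : ((L : ℝ)) * (N : ℝ) ^ 9 ≤ n := by exact_mod_cast hL
        have h4 : (r : ℝ) ≤ N := by exact_mod_cast hNr
        calc (n : ℝ) * (((N ^ 6 : ℕ) : ℝ) * L * ∑ i, hh σ (b i))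
            = ((N : ℝ) ^ 6 * L) * (n * ∑ i, hh σ (b i)) := by push_cast; ring
          _ ≤ ((N : ℝ) ^ 6 * L) * (r * (N : ℝ) ^ 2) :=
              mul_le_mul_of_nonneg_left h2 (by positivity)
          _ ≤ ((N : ℝ) ^ 6 * L) * (N * (N : ℝ) ^ 2) :=
              mul_le_mul_of_nonneg_left (mul_le_mul_of_nonneg_right h4 (by positivity))
                (by positivity)
          _ = L * (N : ℝ) ^ 9 := by ring
          _ ≤ n * 1 := by linarith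
      exact le_of_mul_le_mul_left h1 hn'
    have hfin := hC1 K σ ℓ b hb0 hbi n (N ^ 3) (N ^ 6) L {q} (hN2.trans hNN3)
      (hnN.trans (by exact_mod_cast hNN3)) hLn (fun q' hq' => by
        rw [Finset.mem_singleton] at hq'
        subst hq'
        exact ⟨hq3.1, hq3.2, hbad⟩) hQ
    exact (Hd_pw_le_Jd b {q} q (Finset.mem_singleton_self q) L).trans hfin

end H25.Arith
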