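import Pool.Agent.H25.Arith.Fin1
import Pool.Agent.H25.Arith.Fin2
import Pool.Agent.H25.Arith.Links

/-!
# The arithmetic half of the weak Amoroso-David theorem
-/

open H61.Geo MvPolynomial

namespace H25.Arith

theorem arith_half (r : ℕ) (d : ℝ) (hd : 0 < d) : ∃ C1 n0 : ℕ,
    ∀ (K : Type) [Field K] [NumberField K] [IsGalois ℚ K] (σ : K →+* ℂ) (a : Fin r → K)
      (n N : ℕ), n0 ≤ n → (n : ℝ) ^ d ≤ N → (∀ i, a i ≠ 0) → (∀ i, IsIntegral ℤ (a i)) →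
      (∀ i, (orb (a i)).card ≤ n) → (∀ i, n * hh σ (a i) ≤ 1) →
      ∃ m1 m2 : ℕ, m1 ≠ m2 ∧ m1.Prime ∧ m2.Prime ∧ N ≤ m1 ∧ m1 ≤ N ^ 2 ∧ N ≤ m2 ∧ m2 ≤ N ^ 2 ∧
        (∀ P ∈ restrictDegree (Fin r) ℚ (n / N ^ 3),
          (aeval (pw a m1) P = 0 ↔ aeval (pw a m2) P = 0)) ∧
        ∃ LL : Finset ℕ, N ^ 3 ≤ LL.card ∧ ∀ l ∈ LL, l.Prime ∧ N ^ 3 ≤ l ∧ l ≤ N ^ 6 ∧
          ∀ L : ℕ, L * N ^ 9 ≤ n → Hd ℚ (pw (pw a m1) l) L ≤ C1 * Hd ℚ (pw a m1) L := by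
  obtain ⟨n1, h1⟩ := step_one r d hd
  obtain ⟨C1, n2, h2⟩ := step_two r d hd
  refine ⟨C1, max n1 n2, ?_⟩
  intro K _ _ _ σ a n N hn hN ha0 hai horb hh1
  obtain ⟨m1, m2, hne, hp1, hp2, ha, hb, hc, hd', hP⟩ :=
    h1 K σ a n N (le_trans (le_max_left _ _) hn) hN ha0 hai horb hh1
  exact ⟨m1, m2, hne, hp1, hp2, ha, hb, hc, hd', hP,
    h2 K σ a n N m1 (le_trans (le_max_right _ _) hn) hN ha0 hai horb hh1 hb⟩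

end H25.Arith
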