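import Mathlib

/-!
# AH-DETA : bounds for determinants

PROOFS.
* `v_det_le` (nonarchimedean) and `norm_det_le` (archimedean): Leibniz formula `Matrix.det_apply'`;
  each of the `n!` terms has absolute value `≤ ∏ i, ρ i` (write `det A = det Aᵀ` or use the form
  `∏ i, A (τ i) i` and reindex `∏ i, ρ (τ i) = ∏ i, ρ i`); nonarchimedean: the maximum over the terms
  (`IsNonarchimedean.finset_image_add_of_nonempty` / induction). `v` of the sign is `1`.
* `v_det_rank_le`: for `i ∈ S` write the row `A i = C i + D i`, `D i j = A i j - C i j`, `v (D i j) ≤ ε`.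
  Multilinearity in the rows of `S` (`MultilinearMap.map_add_univ`/`Matrix.detRowAlternating`, or
  `MultilinearMap.map_add_finset`-type expansions; it may be convenient to put `C' i = C i`, `D' i = D i` for
  `i ∈ S` and `C' i = 0`, `D' i = A i` for `i ∉ S`, and to expand over all subsets `U` of the index set):
  `det A = ∑_{U ⊆ S} det (rows: C i (i ∈ U), D i (i ∈ S \ U), A i (i ∉ S))`.
  If `#U > s` the rows `C i`, `i ∈ U`, are linearly dependent (rank of `C` is `≤ s`), so the determinant is `0`.
  If `#U ≤ s` the determinant has `v ≤ ε ^ #(S \ U) ≤ ε ^ (#S - s)` by `v_det_le` (rows bounds `1`, `ε`, `1`).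
-/

namespace H25.Arith

theorem deta_sum_le {K : Type*} [Field K] (v : AbsoluteValue K ℝ) (hna : IsNonarchimedean v)
    {κ : Type*} (s : Finset κ) (f : κ → K) (B : ℝ) (hB : 0 ≤ B) (h : ∀ i ∈ s, v (f i) ≤ B) :
    v (∑ i ∈ s, f i) ≤ B := by
  classical
  induction s using Finset.induction_on with
  | empty => rw [Finset.sum_empty, map_zero]; exact hB
  | insert a s ha ih =>
    rw [Finset.sum_insert ha]
    exact (hna _ _).trans (max_le (h a (Finset.mem_insert_self _ _))
      (ih fun i hi => h i (Finset.mem_insert_of_mem hi)))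

theorem v_det_le {K : Type*} [Field K] (v : AbsoluteValue K ℝ) (hna : IsNonarchimedean v)
    {ι : Type*} [Fintype ι] [DecidableEq ι] (A : Matrix ι ι K) (ρ : ι → ℝ)
    (h : ∀ i j, v (A i j) ≤ ρ i) : v A.det ≤ ∏ i, ρ i := by
  have hρ : ∀ i, 0 ≤ ρ i := fun i => (v.nonneg _).trans (h i i)
  rw [Matrix.det_apply']
  refine deta_sum_le v hna _ _ _ (Finset.prod_nonneg fun i _ => hρ i) fun σ _ => ?_
  have hs : v (((Equiv.Perm.sign σ : ℤ)) : K) = 1 := by
    rcases Int.units_eq_one_or (Equiv.Perm.sign σ) with h1 | h1 <;> rw [h1] <;> simp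
  rw [map_mul, hs, one_mul, map_prod]
  calc ∏ i, v (A (σ i) i) ≤ ∏ i, ρ (σ i) :=
        Finset.prod_le_prod (fun i _ => v.nonneg _) fun i _ => h _ _
    _ = ∏ i, ρ i := Equiv.prod_comp σ ρ

theorem norm_det_le {ι : Type*} [Fintype ι] [DecidableEq ι] (A : Matrix ι ι ℂ) (ρ : ι → ℝ)
    (h : ∀ i j, ‖A i j‖ ≤ ρ i) : ‖A.det‖ ≤ ((Fintype.card ι).factorial : ℝ) * ∏ i, ρ i := by
  rw [Matrix.det_apply']
  refine (norm_sum_le _ _).trans ?_
  have h1 : ∀ σ ∈ (Finset.univ : Finset (Equiv.Perm ι)),
      ‖(((Equiv.Perm.sign σ : ℤ)) : ℂ) * ∏ i, A (σ i) i‖ ≤ ∏ i, ρ i := by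
    intro σ _
    have hs : ‖(((Equiv.Perm.sign σ : ℤ)) : ℂ)‖ = 1 := by
      rcases Int.units_eq_one_or (Equiv.Perm.sign σ) with h1 | h1 <;> rw [h1] <;> simp
    rw [norm_mul, hs, one_mul, norm_prod]
    calc ∏ i, ‖A (σ i) i‖ ≤ ∏ i, ρ (σ i) :=
          Finset.prod_le_prod (fun i _ => norm_nonneg _) fun i _ => h _ _
      _ = ∏ i, ρ i := Equiv.prod_comp σ ρ
  refine (Finset.sum_le_sum h1).trans ?_
  rw [Finset.sum_const, nsmul_eq_mul, Finset.card_univ, Fintype.card_perm]

theorem v_det_rank_le {K : Type*} [Field K] (v : AbsoluteValue K ℝ) (hna : IsNonarchimedean v)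
    {ι : Type*} [Fintype ι] [DecidableEq ι] (A C : Matrix ι ι K) (hA : ∀ i j, v (A i j) ≤ 1)
    (hC : ∀ i j, v (C i j) ≤ 1) (S : Finset ι) (ε : ℝ) (h0 : 0 ≤ ε) (h1 : ε ≤ 1)
    (h : ∀ i ∈ S, ∀ j, v (A i j - C i j) ≤ ε) (s : ℕ) (hs : C.rank ≤ s) :
    v A.det ≤ ε ^ (S.card - s) := by
  set C' : ι → ι → K := fun i => if i ∈ S then C i else 0 with hC'
  set D' : ι → ι → K := fun i => if i ∈ S then A i - C i else A i with hD'
  have hsum : A = (C' + D' : ι → ι → K) := by
    funext i
    simp only [hC', hD', Pi.add_apply]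
    split_ifs
    · rw [add_sub_cancel]
    · rw [zero_add]
  have hdet : A.det = ∑ U : Finset ι, Matrix.det (U.piecewise C' D' : ι → ι → K) := by
    have h2 := (Matrix.detRowAlternating (R := K) (n := ι)).toMultilinearMap.map_add_univ C' D'
    rw [← hsum] at h2
    exact h2
  rw [hdet]
  refine deta_sum_le v hna _ _ _ (pow_nonneg h0 _) fun U _ => ?_
  by_cases hUS : U ⊆ S
  · by_cases hUs : U.card ≤ s
    · have h2 := v_det_le v hna (U.piecewise C' D' : ι → ι → K)
        (fun i => if i ∈ S \ U then ε else 1) ?_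
      · refine h2.trans ?_
        rw [Finset.prod_ite_mem, Finset.univ_inter, Finset.prod_const]
        refine pow_le_pow_of_le_one h0 h1 ?_
        rw [Finset.card_sdiff_of_subset hUS]
        omega
      · intro i j
        by_cases hi : i ∈ U
        · rw [Finset.piecewise_eq_of_mem _ _ _ hi, if_neg (by
            rw [Finset.mem_sdiff]; exact fun h => h.2 hi)]
          simp only [hC', if_pos (hUS hi)]
          exact hC i j
        · rw [Finset.piecewise_eq_of_notMem _ _ _ hi]
          by_cases hiS : i ∈ S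
          · rw [if_pos (Finset.mem_sdiff.2 ⟨hiS, hi⟩)]
            simp only [hD', if_pos hiS, Pi.sub_apply]
            exact h i hiS j
          · rw [if_neg (by rw [Finset.mem_sdiff]; exact fun h => hiS h.1)]
            simp only [hD', if_neg hiS]
            exact hA i j
    · have hz : Matrix.det (U.piecewise C' D' : ι → ι → K) = 0 := by
        by_contra hne
        apply hUs
        have hli : LinearIndependent K (Matrix.row (U.piecewise C' D' : ι → ι → K)) := by
          rw [Matrix.linearIndependent_rows_iff_isUnit, Matrix.isUnit_iff_isUnit_det]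
          exact IsUnit.mk0 _ hne
        have hli2 : LinearIndependent K (fun i : U => C i.1) := by
          have h3 := hli.comp (Subtype.val : U → ι) Subtype.val_injective
          convert h3 using 1
          funext i
          simp only [Function.comp, Matrix.row]
          rw [Finset.piecewise_eq_of_mem _ _ _ i.2]
          simp only [hC', if_pos (hUS i.2)]
        have h4 : Module.finrank K (Submodule.span K (Set.range fun i : U => C i.1)) =
            U.card := by
          rw [finrank_span_eq_card hli2, Fintype.card_coe]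
        rw [← h4]
        refine le_trans ?_ hs
        rw [Matrix.rank_eq_finrank_span_row]
        refine Submodule.finrank_mono (Submodule.span_mono ?_)
        rintro _ ⟨i, rfl⟩
        exact ⟨i.1, rfl⟩
      rw [hz, map_zero]
      exact pow_nonneg h0 _
  · obtain ⟨i, hi, hiS⟩ := Finset.not_subset.1 hUS
    have hz : Matrix.det (U.piecewise C' D' : ι → ι → K) = 0 := by
      refine Matrix.det_eq_zero_of_row_eq_zero i fun j => ?_
      rw [Finset.piecewise_eq_of_mem _ _ _ hi]
      simp only [hC', if_neg hiS]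
      rfl
    rw [hz, map_zero]
    exact pow_nonneg h0 _

end H25.Arith
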