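import Pool.Agent.H25.Arith.DetA

/-!
# AH-DETB : row operations and a lower bound for the valuation of a determinant

PROOF. Choose `c p : ι → K` for `p ∈ S`, put `c p = 0` for `p ∉ S`. Let
`U = Matrix.fromBlocks 1 0 (-(fun p i => c p i)) 1`; `det U = 1` (`Matrix.det_fromBlocks_zero₁₂`).
`M' := U * M` has the rows `M (inl i)` and `M (inr p) - ∑_i c p i • M (inl i)`; `det M' = det M`.
Row bounds: `1` for `inl i` and for `inr p`, `p ∉ S`; `ρ` for `inr p`, `p ∈ S`. Apply `v_det_le`: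
`v (det M) ≤ ∏ (row bounds) = ρ ^ #S`.
-/

namespace H25.Arith

theorem v_det_sum_le {K : Type*} [Field K] (v : AbsoluteValue K ℝ) (hna : IsNonarchimedean v)
    {ι κ : Type*} [Fintype ι] [DecidableEq ι] [Fintype κ] [DecidableEq κ]
    (M : Matrix (ι ⊕ κ) (ι ⊕ κ) K) (hM : ∀ i j, v (M i j) ≤ 1) (S : Finset κ) (ρ : ℝ)
    (h : ∀ p ∈ S, ∃ c : ι → K, ∀ j, v (M (Sum.inr p) j - ∑ i, c i * M (Sum.inl i) j) ≤ ρ) :
    v M.det ≤ ρ ^ S.card := by
  have h' : ∀ p : κ, ∃ c : ι → K, (p ∈ S →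
      ∀ j, v (M (Sum.inr p) j - ∑ i, c i * M (Sum.inl i) j) ≤ ρ) ∧ (p ∉ S → c = 0) := by
    intro p
    by_cases hp : p ∈ S
    · obtain ⟨c, hc⟩ := h p hp
      exact ⟨c, fun _ => hc, fun h => absurd hp h⟩
    · exact ⟨0, fun h => absurd h hp, fun _ => rfl⟩
  choose c hc1 hc2 using h'
  let U : Matrix (ι ⊕ κ) (ι ⊕ κ) K := Matrix.fromBlocks 1 0 (-(Matrix.of c)) 1
  have hU : U.det = 1 := by
    change (Matrix.fromBlocks 1 0 (-(Matrix.of c)) 1).det = 1
    rw [Matrix.det_fromBlocks_zero₁₂, Matrix.det_one, Matrix.det_one, one_mul]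
  have h1 : ∀ i j, (U * M) (Sum.inl i) j = M (Sum.inl i) j := by
    intro i j
    rw [Matrix.mul_apply, Fintype.sum_sum_type]
    simp only [U, Matrix.fromBlocks_apply₁₁, Matrix.fromBlocks_apply₁₂, Matrix.one_apply,
      Matrix.zero_apply, ite_mul, one_mul, zero_mul, Finset.sum_ite_eq, Finset.mem_univ, if_true,
      Finset.sum_const_zero, add_zero]
  have h2 : ∀ p j, (U * M) (Sum.inr p) j =
      M (Sum.inr p) j - ∑ i, c p i * M (Sum.inl i) j := by
    intro p j
    rw [Matrix.mul_apply, Fintype.sum_sum_type]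
    simp only [U, Matrix.fromBlocks_apply₂₁, Matrix.fromBlocks_apply₂₂, Matrix.one_apply,
      Matrix.neg_apply, Matrix.of_apply, ite_mul, one_mul, zero_mul, Finset.sum_ite_eq,
      Finset.mem_univ, if_true, neg_mul, Finset.sum_neg_distrib]
    ring
  have h3 : (U * M).det = M.det := by rw [Matrix.det_mul, hU, one_mul]
  have h4 := v_det_le v hna (U * M)
    (Sum.elim (fun _ => 1) (fun p => if p ∈ S then ρ else 1)) (by
      rintro (i | p) j
      · rw [h1]
        exact hM _ _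
      · rw [h2]
        simp only [Sum.elim_inr]
        split_ifs with hp
        · exact hc1 p hp j
        · rw [hc2 p hp]
          simpa using hM (Sum.inr p) j)
  rw [h3, Fintype.prod_sum_type] at h4
  simp only [Sum.elim_inl, Sum.elim_inr, Finset.prod_const_one, one_mul] at h4
  rwa [Finset.prod_ite_mem, Finset.univ_inter, Finset.prod_const] at h4

end H25.Arith
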