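import Pool.Agent.H25.Arith.SimpleCongr
import Pool.Agent.H25.Arith.HH

/-!
# AH-FC : the Frobenius congruence for monomials on good group elements

PROOF. For `i : Fin r`: `g ∉ bad ℓ b` gives `Simple ℓ (φ (g (b i)))`, so `simple_congr` (with `x = g (b i)`,
integral by `isIntegral_gal`) gives `v ((g b_i)^q - φ (g b_i)) ≤ v q` : this is `frob_var`.
`frob_mon`: `g (bm b v)^q = ∏ ((g b_i)^q)^(v_i)` and `φ (g (bm b v)) = ∏ (φ (g b_i))^(v_i)`. All factors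
have `v ≤ 1`, and `v (y^k - z^k) ≤ v (y - z)`, `v (∏ y_i - ∏ z_i) ≤ max_i v (y_i - z_i)` if all `v ≤ 1`
(ultrametric inequality; induction on `k` and on the finset of indices).
-/

namespace H25.Arith

variable {K : Type*} [Field K] [NumberField K] [IsGalois ℚ K] {r q : ℕ}

omit [IsGalois ℚ K] in
/-- The difference of powers is small. -/
lemma fc_pow (ℓ : Loc K q) {y z : K} {c : ℝ} (hy : ℓ.v y ≤ 1) (hz : ℓ.v z ≤ 1)
    (h : ℓ.v (y - z) ≤ c) (k : ℕ) : ℓ.v (y ^ k - z ^ k) ≤ c := by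
  induction k with
  | zero =>
    have h0 := (ℓ.v.nonneg (y - z)).trans h
    simpa using h0
  | succ k ih =>
    have e : y ^ (k + 1) - z ^ (k + 1) = y ^ k * (y - z) + (y ^ k - z ^ k) * z := by ring
    rw [e]
    refine (ℓ.na _ _).trans (max_le ?_ ?_)
    · rw [map_mul, map_pow]
      exact (mul_le_of_le_one_left (ℓ.v.nonneg _) (pow_le_one₀ (ℓ.v.nonneg _) hy)).trans h
    · rw [map_mul]
      exact (mul_le_of_le_one_right (ℓ.v.nonneg _) hz).trans ih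

omit [IsGalois ℚ K] in
/-- The difference of products is small. -/
lemma fc_prod (ℓ : Loc K q) {y z : Fin r → K} {c : ℝ} (hc : 0 ≤ c) (hy : ∀ i, ℓ.v (y i) ≤ 1)
    (hz : ∀ i, ℓ.v (z i) ≤ 1) (h : ∀ i, ℓ.v (y i - z i) ≤ c) (s : Finset (Fin r)) :
    ℓ.v (∏ i ∈ s, y i - ∏ i ∈ s, z i) ≤ c := by
  classical
  induction s using Finset.induction_on with
  | empty => simpa using hc
  | insert a s ha ih =>
    rw [Finset.prod_insert ha, Finset.prod_insert ha]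
    have e : y a * ∏ i ∈ s, y i - z a * ∏ i ∈ s, z i =
        (∏ i ∈ s, y i) * (y a - z a) + (∏ i ∈ s, y i - ∏ i ∈ s, z i) * z a := by ring
    rw [e]
    refine (ℓ.na _ _).trans (max_le ?_ ?_)
    · rw [map_mul, map_prod]
      exact (mul_le_of_le_one_left (ℓ.v.nonneg _)
        (Finset.prod_le_one (fun _ _ => ℓ.v.nonneg _) fun i _ => hy i)).trans (h a)
    · rw [map_mul]
      exact (mul_le_of_le_one_right (ℓ.v.nonneg _) (hz a)).trans ih

theorem frob_var (hq : q.Prime) (ℓ : Loc K q) (b : Fin r → K) (hb : ∀ i, IsIntegral ℤ (b i))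
    (g : K ≃ₐ[ℚ] K) (hg : g ∉ bad ℓ b) (i : Fin r) :
    ℓ.v (g (b i) ^ q - ℓ.φ (g (b i))) ≤ ℓ.v (q : K) := by
  classical
  have hs : Simple ℓ (ℓ.φ (g (b i))) := by
    by_contra hc
    apply hg
    rw [bad, Finset.mem_filter]
    exact ⟨Finset.mem_univ _, i, hc⟩
  exact simple_congr hq ℓ (isIntegral_gal g (hb i)) hs

theorem frob_mon (hq : q.Prime) (ℓ : Loc K q) (b : Fin r → K) (hb : ∀ i, IsIntegral ℤ (b i))
    (g : K ≃ₐ[ℚ] K) (hg : g ∉ bad ℓ b) {L : ℕ} (v : Box r L) :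
    ℓ.v (g (bm b v) ^ q - ℓ.φ (g (bm b v))) ≤ ℓ.v (q : K) := by
  have e1 : g (bm b v) ^ q = ∏ i, (g (b i) ^ q) ^ (v i : ℕ) := by
    rw [bm, map_prod, ← Finset.prod_pow]
    refine Finset.prod_congr rfl fun i _ => ?_
    rw [map_pow, ← pow_mul, ← pow_mul, mul_comm]
  have e2 : ℓ.φ (g (bm b v)) = ∏ i, ℓ.φ (g (b i)) ^ (v i : ℕ) := by
    rw [bm, map_prod, map_prod]
    refine Finset.prod_congr rfl fun i _ => ?_
    rw [map_pow, map_pow]
  have h1 : ∀ i, IsIntegral ℤ (g (b i)) := fun i => isIntegral_gal g (hb i)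
  have h2 : ∀ i, ℓ.v (g (b i) ^ q) ≤ 1 := fun i => ℓ.le_one _ ((h1 i).pow q)
  have h3 : ∀ i, ℓ.v (ℓ.φ (g (b i))) ≤ 1 := fun i => ℓ.le_one _ (isIntegral_gal _ (h1 i))
  rw [e1, e2]
  refine fc_prod ℓ (ℓ.v.nonneg _) (fun i => ?_) (fun i => ?_) (fun i => ?_) _
  · rw [map_pow]
    exact pow_le_one₀ (ℓ.v.nonneg _) (h2 i)
  · rw [map_pow]
    exact pow_le_one₀ (ℓ.v.nonneg _) (h3 i)
  · exact fc_pow ℓ (h2 i) (h3 i) (frob_var hq ℓ b hb g hg i) _

end H25.Arith
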