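import Pool.Agent.H25.Arith.RK

/-!
# AH-JRANK : links between `Hd`, `Jd` and ranks; rank of the derivative rows

PROOFS.
* `Hd_eq_rank`: `Sp ℚ b L = span ℚ {∏ i, b i ^ v i | v ∈ box}` (`H61.Geo.Sp_eq_span`), transported to
  `Unit → K` (linear equivalence `LinearEquiv.funUnique`), then `rank_MM`.
* `Hd_pw_eq_rank`: the same for `pw b m` (`bm (pw b m) v = bm b v ^ m`).
* `Jd_eq_rank`: `rank_MM`.
* `Hd_pw_le_Jd`, `q ∈ Ψ`: the span of `jw b Ψ` maps onto `Sp ℚ (pw b q) L` by the coordinate `q`.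
* `rank_JJ_le`: the rows of `JJ b L T` are the union over `κ : Fin r → Fin T` (`T ^ r` values) of the rows
  `(g, κ)`, so it is enough that for fixed `κ` the matrix `J_κ (g, v) = ∏ i binom(v i, κ i) (g b_i)^(v_i - κ_i)`
  has rank `≤ Hd ℚ b L` (the row space of the union is the sum of the row spaces; finrank of a supremum is at
  most the sum). And `J_κ (g, v) = (∏ i (g b_i)^(κ_i))⁻¹ * MM (fun v _ => bm b v) (g, ()) v * ∏ i binom(v_i, κ_i)`
  (if `κ_i > v_i` for some `i` both sides are `0`), i.e. `J_κ = diag * MM .. * diag` up to the obvious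
  reindexing of the rows, so its rank is `≤ rank (MM ..) = Hd ℚ b L`
  (`Matrix.rank_mul_le_left`, `Matrix.rank_mul_le_right`).
-/

open H61.Geo

namespace H25.Arith

section aux

lemma jr_rank_add {m n F : Type*} [Fintype m] [Fintype n] [Field F] (A B : Matrix m n F) :
    (A + B).rank ≤ A.rank + B.rank := by
  unfold Matrix.rank
  rw [Matrix.mulVecLin_add]
  refine le_trans (Submodule.finrank_mono (LinearMap.range_add_le _ _)) ?_
  exact Submodule.finrank_add_le_finrank_add_finrank _ _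

lemma jr_rank_sum {m n ι F : Type*} [Fintype m] [Fintype n] [Field F]
    (s : Finset ι) (A : ι → Matrix m n F) : (∑ i ∈ s, A i).rank ≤ ∑ i ∈ s, (A i).rank := by
  classical
  induction s using Finset.induction_on with
  | empty => simp
  | insert a s ha ih =>
    rw [Finset.sum_insert ha, Finset.sum_insert ha]
    exact (jr_rank_add _ _).trans (Nat.add_le_add_left ih _)

lemma jr_Sp {K : Type*} [Field K] [Algebra ℚ K] {r : ℕ} (x : Fin r → K) (L : ℕ) :
    Sp ℚ x L = Submodule.span ℚ (Set.range (fun v : Box r L => bm x v)) := by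
  rw [Sp_eq_span]
  congr 1
  ext w
  constructor
  · rintro ⟨v, hv, rfl⟩
    exact ⟨fun i => ⟨v i, Nat.lt_succ_of_le (hv i)⟩, rfl⟩
  · rintro ⟨v, rfl⟩
    exact ⟨fun i => (v i : ℕ), fun i => Nat.le_of_lt_succ (v i).2, rfl⟩

lemma jr_bm_pw {K : Type*} [Field K] {r L : ℕ} (b : Fin r → K) (m : ℕ) (v : Box r L) :
    bm (pw b m) v = bm b v ^ m := by
  unfold bm pw
  rw [← Finset.prod_pow]
  refine Finset.prod_congr rfl fun i _ => ?_
  rw [← pow_mul, ← pow_mul, mul_comm]

end aux

variable {K : Type*} [Field K] [NumberField K] [IsGalois ℚ K] {r : ℕ}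

lemma jr_unit {X : Type*} [Fintype X] (w : X → K) :
    Module.finrank ℚ (Submodule.span ℚ (Set.range w)) =
      (MM (fun (v : X) (_ : Unit) => w v)).rank := by
  rw [rank_MM]
  have h := (LinearEquiv.funUnique Unit ℚ K).finrank_map_eq
    (Submodule.span ℚ (Set.range (fun (v : X) (_ : Unit) => w v)))
  rw [← h, Submodule.map_span, ← Set.range_comp]
  rfl

theorem Hd_eq_rank (b : Fin r → K) (L : ℕ) :
    Hd ℚ b L = (MM (fun (v : Box r L) (_ : Unit) => bm b v)).rank := by
  unfold Hd
  rw [jr_Sp, jr_unit]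

theorem Hd_pw_eq_rank (b : Fin r → K) (m L : ℕ) :
    Hd ℚ (pw b m) L = (MM (fun (v : Box r L) (_ : Unit) => bm b v ^ m)).rank := by
  rw [Hd_eq_rank]
  simp only [jr_bm_pw]

theorem Jd_eq_rank (b : Fin r → K) (Ψ : Finset Nat.Primes) (L : ℕ) :
    Jd b Ψ L = (MM (jw (L := L) b Ψ)).rank := by
  rw [rank_MM]
  rfl

theorem Hd_pw_le_Jd (b : Fin r → K) (Ψ : Finset Nat.Primes) (q : Nat.Primes) (hq : q ∈ Ψ) (L : ℕ) :
    Hd ℚ (pw b q) L ≤ Jd b Ψ L := by
  unfold Hd Jd
  rw [jr_Sp]
  have h : Submodule.span ℚ (Set.range (fun v : Box r L => bm (pw b q) v)) =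
      (Submodule.span ℚ (Set.range (jw (L := L) b Ψ))).map
        (LinearMap.proj (R := ℚ) (φ := fun _ : Ψ => K) (⟨q, hq⟩ : Ψ)) := by
    rw [Submodule.map_span, ← Set.range_comp]
    congr 2
    ext v
    exact jr_bm_pw b q v
  rw [h]
  exact Submodule.finrank_map_le _ _

theorem rank_JJ_le (b : Fin r → K) (hb : ∀ i, b i ≠ 0) (L T : ℕ) :
    (JJ b L T).rank ≤ T ^ r * Hd ℚ b L := by
  classical
  rw [Hd_eq_rank]
  set A : (Fin r → Fin T) → Matrix ((K ≃ₐ[ℚ] K) × (Fin r → Fin T)) (Box r L) K :=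
    fun κ => fun p v => if p.2 = κ then JJ b L T p v else 0 with hA
  have hsum : JJ b L T = ∑ κ, A κ := by
    ext p v
    rw [Matrix.sum_apply]
    simp [hA]
  have hrank : ∀ κ, (A κ).rank ≤ (MM (fun (v : Box r L) (_ : Unit) => bm b v)).rank := by
    intro κ
    set P : Matrix ((K ≃ₐ[ℚ] K) × (Fin r → Fin T)) ((K ≃ₐ[ℚ] K) × Unit) K :=
      fun p g => if p.2 = κ ∧ p.1 = g.1 then (∏ i, p.1 (b i) ^ (κ i : ℕ))⁻¹ else 0 with hP
    set D : Matrix (Box r L) (Box r L) K :=
      Matrix.diagonal fun v => ∏ i, ((Nat.choose (v i) (κ i) : ℕ) : K) with hD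
    have hfac : A κ = P * (MM (fun (v : Box r L) (_ : Unit) => bm b v) * D) := by
      ext p v
      rw [Matrix.mul_apply, Fintype.sum_eq_single (p.1, ())]
      · rw [hD, Matrix.mul_diagonal]
        simp only [hA, hP]
        by_cases h : p.2 = κ
        · rw [if_pos h, if_pos ⟨h, trivial⟩]
          subst h
          unfold JJ MM bm
          simp only
          rw [map_prod, ← Finset.prod_inv_distrib, ← Finset.prod_mul_distrib,
            ← Finset.prod_mul_distrib]
          refine Finset.prod_congr rfl fun i _ => ?_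
          have hne : p.1 (b i) ≠ 0 := by
            rw [Ne, map_eq_zero]
            exact hb i
          rw [map_pow]
          by_cases hle : (p.2 i : ℕ) ≤ (v i : ℕ)
          · have : p.1 (b i) ^ (v i : ℕ) =
                p.1 (b i) ^ (p.2 i : ℕ) * p.1 (b i) ^ ((v i : ℕ) - (p.2 i : ℕ)) := by
              rw [← pow_add, Nat.add_sub_cancel' hle]
            rw [this]
            field_simp
          · rw [Nat.choose_eq_zero_of_lt (not_le.1 hle)]
            simp
        · rw [if_neg h, if_neg (fun h' => h h'.1), zero_mul]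
      · rintro ⟨g, u⟩ hg
        have : ¬ (p.2 = κ ∧ p.1 = g) := by
          rintro ⟨-, rfl⟩
          exact hg rfl
        simp only [hP]
        rw [if_neg this, zero_mul]
    rw [hfac]
    exact (Matrix.rank_mul_le_right _ _).trans (Matrix.rank_mul_le_left _ _)
  rw [hsum]
  refine (jr_rank_sum _ _).trans ((Finset.sum_le_sum fun κ _ => hrank κ).trans ?_)
  rw [Finset.sum_const, smul_eq_mul]
  simp

end H25.Arith
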