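import Mathlib

/-!
# AH-MINOR : nonzero minors of maximal size, adapted to a block of rows

PROOFS. `exists_minor_one`: choose `rank M` linearly independent rows `f` (a maximal independent subfamily of
the rows spans the row space, whose dimension is `M.rank`: `Matrix.rank_eq_finrank_span_row`,
`exists_linearIndependent'`/`exists_fun_fin_finrank_span_eq`), then in the matrix `M.submatrix f id`, which has
rank `M.rank`, choose `M.rank` linearly independent columns `c`; a square matrix with independent columns has a
nonzero determinant (`Matrix.linearIndependent_cols_iff_isUnit`).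
`exists_minor`: choose rows `f1` of `M1` forming a basis of the row space of `M1`; extend this independent family
by rows of `M2` to a basis of the row space of `fromRows M1 M2` (`exists_linearIndepOn_extension` or greedy);
the number of added rows is `E = rank (fromRows M1 M2) - rank M1`, `f2` is injective because the family is
independent. Then choose columns as before.
-/

namespace H25.Arith

open Submodule Module in
theorem ahm_rows {F V : Type*} [Field F] [AddCommGroup V] [Module F V] {ι : Type*} [Fintype ι]
    (v : ι → V) (n : ℕ) (hn : Module.finrank F (Submodule.span F (Set.range v)) = n) :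
    ∃ f : Fin n → ι, Function.Injective f ∧
      Submodule.span F (Set.range (v ∘ f)) = Submodule.span F (Set.range v) ∧
      LinearIndependent F (v ∘ f) := by
  obtain ⟨κ, a, ha, hsp, hli⟩ := exists_linearIndependent' F v
  have : Finite κ := Finite.of_injective a ha
  have : Fintype κ := Fintype.ofFinite κ
  have hcard : Fintype.card κ = n := by
    rw [← hn, ← hsp]
    exact (finrank_span_eq_card hli).symm
  have e : Fin n ≃ κ := (finCongr hcard.symm).trans (Fintype.equivFin κ).symm
  refine ⟨a ∘ e, ha.comp e.injective, ?_, ?_⟩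
  · rw [← hsp]
    congr 1
    ext x
    constructor
    · rintro ⟨y, rfl⟩
      exact ⟨e y, rfl⟩
    · rintro ⟨y, rfl⟩
      exact ⟨e.symm y, by simp⟩
  · have := hli.comp e e.injective
    simpa [Function.comp_assoc] using this

theorem ahm_det {F : Type*} [Field F] {I X : Type*} [Fintype I] [DecidableEq I] [Fintype X]
    (M : Matrix I X F) (h : LinearIndependent F M.row) : ∃ c : I → X,
      (M.submatrix id c).det ≠ 0 := by
  have hr : M.rank = Fintype.card I := h.rank_matrix
  rw [Matrix.rank_eq_finrank_span_cols] at hr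
  obtain ⟨c, -, -, hc⟩ := ahm_rows M.col (Fintype.card I) hr
  let e : I ≃ Fin (Fintype.card I) := Fintype.equivFin I
  refine ⟨c ∘ e, ?_⟩
  have h2 : LinearIndependent F (M.submatrix id (c ∘ e)).col := by
    have := hc.comp e e.injective
    exact this
  rw [Matrix.linearIndependent_cols_iff_isUnit, Matrix.isUnit_iff_isUnit_det] at h2
  exact h2.ne_zero

theorem exists_minor_one {F : Type*} [Field F] {R X : Type*} [Fintype R] [Fintype X]
    (M : Matrix R X F) : ∃ (f : Fin M.rank → R) (c : Fin M.rank → X),
      (M.submatrix f c).det ≠ 0 := by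
  obtain ⟨f, -, -, hf⟩ := ahm_rows M.row M.rank (Matrix.rank_eq_finrank_span_row M).symm
  obtain ⟨c, hc⟩ := ahm_det (M.submatrix f id) hf
  exact ⟨f, c, hc⟩

theorem exists_minor {F : Type*} [Field F] {R1 R2 X : Type*} [Fintype R1] [Fintype R2]
    [Fintype X] (M1 : Matrix R1 X F) (M2 : Matrix R2 X F) :
    ∃ (E : ℕ) (f1 : Fin M1.rank → R1) (f2 : Fin E → R2) (c : Fin M1.rank ⊕ Fin E → X),
      (Matrix.fromRows M1 M2).rank = M1.rank + E ∧ Function.Injective f2 ∧
      ((Matrix.fromRows M1 M2).submatrix (Sum.map f1 f2) c).det ≠ 0 := by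
  classical
  obtain ⟨f1, hf1i, hf1s, hf1⟩ :=
    ahm_rows M1.row M1.rank (Matrix.rank_eq_finrank_span_row M1).symm
  set N := Matrix.fromRows M1 M2 with hN
  have hNl : ∀ i, N.row (Sum.inl i) = M1.row i := fun i => rfl
  have hNr : ∀ i, N.row (Sum.inr i) = M2.row i := fun i => rfl
  set s : Set (R1 ⊕ R2) := Set.range (fun i => Sum.inl (f1 i)) with hs
  have hinj : Function.Injective (fun i => (Sum.inl (f1 i) : R1 ⊕ R2)) :=
    fun a b hab => hf1i (Sum.inl_injective hab)
  have hLs : LinearIndepOn F N.row s := by
    rw [hs, linearIndepOn_range_iff hinj]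
    exact hf1
  obtain ⟨b, -, hsb, hbs, hLb⟩ := exists_linearIndepOn_extension hLs (Set.subset_univ s)
  have himg : N.row '' s = Set.range (M1.row ∘ f1) := by
    ext x
    constructor
    · rintro ⟨_, ⟨i, rfl⟩, rfl⟩
      exact ⟨i, rfl⟩
    · rintro ⟨i, rfl⟩
      exact ⟨_, ⟨i, rfl⟩, rfl⟩
  have hb1 : ∀ x, (Sum.inl x : R1 ⊕ R2) ∈ b → Sum.inl x ∈ s := by
    intro x hx
    by_contra hxs
    have h1 : N.row (Sum.inl x) ∈ Submodule.span F (N.row '' s) := by
      rw [himg, hf1s]
      exact Submodule.subset_span ⟨x, rfl⟩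
    have h2 : N.row '' s ⊆ N.row '' (b \ {Sum.inl x}) := by
      apply Set.image_mono
      intro y hy
      refine ⟨hsb hy, ?_⟩
      rintro rfl
      exact hxs hy
    exact hLb.notMem_span hx (Submodule.span_mono h2 h1)
  set b2 : Set R2 := {y | (Sum.inr y : R1 ⊕ R2) ∈ b} with hb2
  let e2 : Fin (Fintype.card b2) ≃ b2 := (Fintype.equivFin b2).symm
  let f2 : Fin (Fintype.card b2) → R2 := fun i => (e2 i : R2)
  have hf2 : Function.Injective f2 := Subtype.val_injective.comp e2.injective
  have hmem : ∀ x, Sum.map f1 f2 x ∈ b := by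
    rintro (i | i)
    · exact hsb ⟨i, rfl⟩
    · exact (e2 i).2
  have hinj2 : Function.Injective (Sum.map f1 f2) := Sum.map_injective.2 ⟨hf1i, hf2⟩
  have hLI : LinearIndependent F (fun x => N.row (Sum.map f1 f2 x)) := by
    have h1 : LinearIndependent F (fun x : b => N.row x) := hLb
    have h2 := h1.comp (fun x => (⟨Sum.map f1 f2 x, hmem x⟩ : b)) (by
      intro x y hxy
      exact hinj2 (congrArg Subtype.val hxy))
    exact h2
  have hrange : Set.range (fun x => N.row (Sum.map f1 f2 x)) = N.row '' b := by
    ext z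
    constructor
    · rintro ⟨x, rfl⟩
      exact ⟨_, hmem x, rfl⟩
    · rintro ⟨x, hx, rfl⟩
      rcases x with x | x
      · obtain ⟨i, hi⟩ := hb1 x hx
        exact ⟨Sum.inl i, by simp only [Sum.map_inl]; rw [← hi]⟩
      · refine ⟨Sum.inr (e2.symm ⟨x, hx⟩), ?_⟩
        have : f2 (e2.symm ⟨x, hx⟩) = x := by simp [f2]
        simp only [Sum.map_inr, this]
  have hspan : Submodule.span F (Set.range (fun x => N.row (Sum.map f1 f2 x))) =
      Submodule.span F (Set.range N.row) := by
    rw [hrange]
    apply le_antisymm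
    · apply Submodule.span_mono
      rintro _ ⟨x, -, rfl⟩
      exact ⟨x, rfl⟩
    · rw [Submodule.span_le]
      rintro _ ⟨x, rfl⟩
      exact hbs ⟨x, Set.mem_univ x, rfl⟩
  have hrank : N.rank = M1.rank + Fintype.card b2 := by
    rw [Matrix.rank_eq_finrank_span_row, ← hspan, finrank_span_eq_card hLI]
    simp
  obtain ⟨c, hc⟩ := ahm_det (N.submatrix (Sum.map f1 f2) id) hLI
  exact ⟨Fintype.card b2, f1, f2, c, hrank, hf2, hc⟩

end H25.Arith
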