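import Pool.Agent.H25.Arith.PF
import Pool.Agent.H25.Arith.DetA
import Pool.Agent.H25.Arith.Minor
import Pool.Agent.H25.Arith.JRank
import Pool.Agent.H25.Arith.FC

/-!
# AH-LEMA : for all but few good primes `Hd (pw b q) L ≥ θ Hd b L`

Two statements: `valA` (valuation of the minor) and `lemmaA`.

PROOF of `valA`. `A i j := φ (g (f i (bm b (c j))))`, `det A = φ (g Δ)` (`RingHom.map_det`/`AlgEquiv`-version).
`C i j := (g (f i (bm b (c j))))^q`. For `i ∈ S := {i | g * f i ∉ bad}`: `v (A i j - C i j) ≤ v q` by `frob_mon`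
(`v (-x) = v x`). `C` is a submatrix of `MM (fun v _ => bm b v ^ q)` (row `(g * f i, ())`, column `c j`), whose rank is
`Hd ℚ (pw b q) L` (`Hd_pw_eq_rank`); the rank of a submatrix is at most the rank (rows: the row space of
`M.submatrix f id` is contained in that of `M`; columns: transpose). All entries of `A`, `C` are integral, so
`v ≤ 1`. Apply `v_det_rank_le` with `ε = v q`.

PROOF of `lemmaA`. `H := Hd ℚ b L ≥ 1` (`H61.Geo.Hd_pos`) is the rank of `MM (fun v _ => bm b v)` (`Hd_eq_rank`).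
`exists_minor_one` gives rows `f i` and columns `c j`, `i, j : Fin H` (cast along the equality of ranks), with
`Δ = det (f i (bm b (c j))) ≠ 0`; `Δ` is integral (`IsIntegral.det`).
For `q ∈ Ψ`, `g' : G`, with `g = φ⁻¹ g'`: `v (g' Δ) = v (φ (g Δ)) ≤ v q ^ k q g'`,
`k q g' := #{i | φ⁻¹ g' f i ∉ bad} - H_q`, `H_q = Hd ℚ (pw b q) L` (truncated subtraction).
`∑_{g'} k q g' ≥ ∑_g #{i | g f i ∉ bad} - #G H_q = H (#G - #bad) - #G H_q ≥ #G H (1 - β - θ)`
(exchange the sums; `g ↦ g f i` is a bijection).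
`‖σ (g Δ)‖ ≤ B g := H! ∏_i ∏_k max(1, ‖σ (g f_i b_k)‖)^L` by `norm_det_le` and `bm_bound`, and
`∑_g log (B g) = #G (log H! + H L ∑_k hh (b k))` by `sum_shift`; `log H! ≤ H log H ≤ H r log (L+1)` since
`H ≤ (L+1)^r` (number of columns; `Nat.factorial_lt_self_pow`/`Nat.factorial_le_pow`).
`prod_formula`: `∑_{q ∈ Ψ} #G H (1-θ-β) log q ≤ #G H (r log (L+1) + L ∑ hh)`, `log q ≥ log N`. Divide by `#G H > 0`.
-/

open H61.Geo

namespace H25.Arith

section aux

lemma la_rank_sub {F R X I J : Type*} [Field F] [Fintype R] [Fintype X] [Fintype I] [Fintype J]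
    (M : Matrix R X F) (f : I → R) (c : J → X) : (M.submatrix f c).rank ≤ M.rank := by
  classical
  have h : M.submatrix f c = ((1 : Matrix R R F).submatrix f id) * (M *
      ((1 : Matrix X X F).submatrix id c)) := by
    ext i j
    simp [Matrix.mul_apply, Matrix.one_apply]
  rw [h]
  exact (Matrix.rank_mul_le_right _ _).trans (Matrix.rank_mul_le_left _ _)

end aux

variable {K : Type*} [Field K] [NumberField K] [IsGalois ℚ K] {r : ℕ}

open Classical in
theorem valA {q : ℕ} (hq : q.Prime) (ℓ : Loc K q) (b : Fin r → K) (hb : ∀ i, IsIntegral ℤ (b i))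
    (L : ℕ) {H : ℕ} (f : Fin H → (K ≃ₐ[ℚ] K)) (c : Fin H → Box r L) (g : K ≃ₐ[ℚ] K) :
    ℓ.v (ℓ.φ (g (Matrix.of fun i j => f i (bm b (c j))).det)) ≤
      ℓ.v (q : K) ^ ((Finset.univ.filter fun i : Fin H => g * f i ∉ bad ℓ b).card -
        Hd ℚ (pw b q) L) := by
  set A : Matrix (Fin H) (Fin H) K := Matrix.of fun i j => ℓ.φ (g (f i (bm b (c j)))) with hA
  set C : Matrix (Fin H) (Fin H) K := Matrix.of fun i j => (g (f i (bm b (c j)))) ^ q with hC
  have hdet : ℓ.φ (g (Matrix.of fun i j => f i (bm b (c j))).det) = A.det := by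
    rw [AlgEquiv.map_det, AlgEquiv.map_det]
    rfl
  have hint : ∀ i j, IsIntegral ℤ (g (f i (bm b (c j)))) := fun i j =>
    isIntegral_gal g (isIntegral_gal (f i) (isIntegral_bm b hb _))
  rw [hdet]
  refine v_det_rank_le ℓ.v ℓ.na A C (fun i j => ?_) (fun i j => ?_) _ _ (ℓ.v.nonneg _)
    ℓ.lt_one.le (fun i hi j => ?_) _ ?_
  · exact ℓ.le_one _ (isIntegral_gal _ (hint i j))
  · exact ℓ.le_one _ ((hint i j).pow q)
  · rw [Finset.mem_filter] at hi
    have h := frob_mon hq ℓ b hb (g * f i) hi.2 (c j)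
    rw [ℓ.v.map_sub] at h
    exact h
  · rw [Hd_pw_eq_rank]
    have h : C = (MM (fun (v : Box r L) (_ : Unit) => bm b v ^ q)).submatrix
        (fun i => (g * f i, ())) c := by
      ext i j
      simp only [hC, MM, Matrix.submatrix_apply, Matrix.of_apply, map_pow]
      rfl
    rw [h]
    exact la_rank_sub _ _ _


theorem lemmaA (σ : K →+* ℂ) (ℓ : ∀ q : Nat.Primes, Loc K q) (b : Fin r → K)
    (hb : ∀ i, IsIntegral ℤ (b i)) (L : ℕ) (Ψ : Finset Nat.Primes) (N : ℕ) (hN : 2 ≤ N)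
    (θ β : ℝ) (hθβ : θ + β < 1)
    (hΨ : ∀ q ∈ Ψ, N ≤ (q : ℕ) ∧
      ((bad (ℓ q) b).card : ℝ) ≤ β * Fintype.card (K ≃ₐ[ℚ] K) ∧
      (Hd ℚ (pw b q) L : ℝ) ≤ θ * Hd ℚ b L) :
    (Ψ.card : ℝ) * ((1 - θ - β) * Real.log N) ≤
      r * Real.log (L + 1) + L * ∑ i, hh σ (b i) := by
  classical
  obtain ⟨H, hH⟩ : ∃ H, H = Hd ℚ b L := ⟨_, rfl⟩
  have hr : (MM (fun (v : Box r L) (_ : Unit) => bm b v)).rank = H := by rw [hH, Hd_eq_rank]
  obtain ⟨f, c, hΔ⟩ : ∃ (f : Fin H → (K ≃ₐ[ℚ] K)) (c : Fin H → Box r L),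
      (Matrix.of fun i j => f i (bm b (c j))).det ≠ 0 := by
    have h := exists_minor_one (MM (fun (v : Box r L) (_ : Unit) => bm b v))
    rw [hr] at h
    obtain ⟨f, c, h⟩ := h
    exact ⟨fun i => (f i).1, c, h⟩
  set Δ := (Matrix.of fun i j => f i (bm b (c j))).det with hΔd
  set n : ℝ := (Fintype.card (K ≃ₐ[ℚ] K) : ℝ) with hn
  have hn0 : 0 < n := by
    rw [hn]
    exact_mod_cast Fintype.card_pos
  have hΔint : IsIntegral ℤ Δ :=
    IsIntegral.det fun i j => isIntegral_gal _ (isIntegral_bm b hb _)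
  have hH1 : 0 < H := by rw [hH]; exact Hd_pos b L
  have hHR : (0 : ℝ) < H := by exact_mod_cast hH1
  have hHle : H ≤ (L + 1) ^ r := by
    rw [← hr]
    refine (Matrix.rank_le_card_width _).trans (le_of_eq ?_)
    simp [Box]
  let k : Nat.Primes → (K ≃ₐ[ℚ] K) → ℕ := fun q g' =>
    (Finset.univ.filter fun i : Fin H => (ℓ q).φ⁻¹ * g' * f i ∉ bad (ℓ q) b).card -
      Hd ℚ (pw b q) L
  have hk : ∀ q ∈ Ψ, ∀ g' : K ≃ₐ[ℚ] K, (ℓ q).v (g' Δ) ≤ (ℓ q).v ((q : ℕ) : K) ^ k q g' := by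
    intro q _ g'
    have h := valA q.2 (ℓ q) b hb L f c ((ℓ q).φ⁻¹ * g')
    have e : (ℓ q).φ (((ℓ q).φ⁻¹ * g') Δ) = g' Δ := by
      change ((ℓ q).φ * ((ℓ q).φ⁻¹ * g')) Δ = g' Δ
      rw [mul_inv_cancel_left]
    rw [← e]
    exact h
  let B : (K ≃ₐ[ℚ] K) → ℝ := fun g =>
    (H.factorial : ℝ) * ∏ i : Fin H, ∏ j, max 1 ‖σ (g (f i (b j)))‖ ^ L
  have hB : ∀ g : K ≃ₐ[ℚ] K, ‖σ (g Δ)‖ ≤ B g := by
    intro g
    have h1 : σ (g Δ) = (Matrix.of fun i j => σ (g (f i (bm b (c j))))).det := by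
      rw [hΔd, AlgEquiv.map_det, RingHom.map_det]
      rfl
    rw [h1]
    have h := norm_det_le (Matrix.of fun i j => σ (g (f i (bm b (c j)))))
      (fun i => ∏ j, max 1 ‖σ (g (f i (b j)))‖ ^ L) (fun i j => bm_bound σ b (g * f i) (c j))
    rw [Fintype.card_fin] at h
    exact h
  have hpf := prod_formula σ ℓ Ψ Δ hΔ hΔint k hk B hB
  have hlog : ∑ g, Real.log (B g) = n * (Real.log H.factorial + H * (L * ∑ j, hh σ (b j))) := by
    have h1 : ∀ g : K ≃ₐ[ℚ] K, Real.log (B g) = Real.log H.factorial +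
        ∑ i : Fin H, ∑ j, L * Real.log (max 1 ‖σ (g (f i (b j)))‖) := by
      intro g
      have hp : ∀ i : Fin H, ∀ j, (max 1 ‖σ (g (f i (b j)))‖ ^ L : ℝ) ≠ 0 := fun i j =>
        (pow_pos (lt_of_lt_of_le one_pos (le_max_left _ _)) _).ne'
      rw [Real.log_mul (Nat.cast_ne_zero.2 (Nat.factorial_ne_zero _))
        (Finset.prod_ne_zero_iff.2 fun i _ => Finset.prod_ne_zero_iff.2 fun j _ => hp i j),
        Real.log_prod fun i _ => Finset.prod_ne_zero_iff.2 fun j _ => hp i j]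
      congr 1
      refine Finset.sum_congr rfl fun i _ => ?_
      rw [Real.log_prod fun j _ => hp i j]
      refine Finset.sum_congr rfl fun j _ => ?_
      rw [Real.log_pow]
    simp_rw [h1]
    rw [Finset.sum_add_distrib, Finset.sum_const, Finset.card_univ, nsmul_eq_mul, mul_add]
    congr 1
    rw [Finset.sum_comm]
    have h2 : ∀ i : Fin H, ∑ g : K ≃ₐ[ℚ] K, ∑ j, L * Real.log (max 1 ‖σ (g (f i (b j)))‖) =
        n * (L * ∑ j, hh σ (b j)) := by
      intro i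
      rw [Finset.sum_comm, Finset.mul_sum, Finset.mul_sum]
      refine Finset.sum_congr rfl fun j _ => ?_
      rw [← Finset.mul_sum, sum_shift σ (b j) (f i)]
      ring
    rw [Finset.sum_congr rfl fun i _ => h2 i, Finset.sum_const, Finset.card_univ,
      Fintype.card_fin, nsmul_eq_mul]
    ring
  have hlow : ∀ q ∈ Ψ, n * H * (1 - θ - β) ≤ ∑ g, (k q g : ℝ) := by
    intro q hq
    obtain ⟨-, h2, h3⟩ := hΨ q hq
    have h4 : ∀ g : K ≃ₐ[ℚ] K, ((Finset.univ.filter fun i : Fin H =>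
        (ℓ q).φ⁻¹ * g * f i ∉ bad (ℓ q) b).card : ℝ) - (Hd ℚ (pw b q) L : ℝ) ≤ (k q g : ℝ) := by
      intro g
      rw [sub_le_iff_le_add]
      have : (Finset.univ.filter fun i : Fin H =>
        (ℓ q).φ⁻¹ * g * f i ∉ bad (ℓ q) b).card ≤ k q g + Hd ℚ (pw b q) L := by
        simp only [k]
        omega
      exact_mod_cast this
    have h5 : ∑ g : K ≃ₐ[ℚ] K, ((Finset.univ.filter fun i : Fin H =>
        (ℓ q).φ⁻¹ * g * f i ∉ bad (ℓ q) b).card : ℝ) = H * (n - (bad (ℓ q) b).card) := by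
      simp_rw [Finset.card_filter, Nat.cast_sum]
      rw [Finset.sum_comm]
      have h6 : ∀ i : Fin H, ∑ g : K ≃ₐ[ℚ] K,
          (((if (ℓ q).φ⁻¹ * g * f i ∉ bad (ℓ q) b then 1 else 0 : ℕ)) : ℝ) =
          n - (bad (ℓ q) b).card := by
        intro i
        have h7 : ∑ g : K ≃ₐ[ℚ] K,
          (((if (ℓ q).φ⁻¹ * g * f i ∉ bad (ℓ q) b then 1 else 0 : ℕ)) : ℝ) =
          ∑ g : K ≃ₐ[ℚ] K, (((if g ∉ bad (ℓ q) b then 1 else 0 : ℕ)) : ℝ) :=
          Fintype.sum_equiv ((Equiv.mulLeft (ℓ q).φ⁻¹).trans (Equiv.mulRight (f i))) _ _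
            fun g => rfl
        rw [h7, ← Nat.cast_sum, ← Finset.card_filter, Finset.filter_not, Finset.filter_mem_eq_inter,
          Finset.univ_inter, ← Finset.compl_eq_univ_sdiff, Finset.card_compl,
          Nat.cast_sub (Finset.card_le_univ _)]
      rw [Finset.sum_congr rfl fun i _ => h6 i, Finset.sum_const, Finset.card_univ,
        Fintype.card_fin, nsmul_eq_mul]
    have h8 := Finset.sum_le_sum fun g (_ : g ∈ (Finset.univ : Finset (K ≃ₐ[ℚ] K))) => h4 g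
    rw [Finset.sum_sub_distrib, h5, Finset.sum_const, Finset.card_univ, nsmul_eq_mul] at h8
    refine le_trans ?_ h8
    rw [← hH] at h3
    have h9 : (H : ℝ) * (bad (ℓ q) b).card ≤ H * (β * n) := mul_le_mul_of_nonneg_left h2 hHR.le
    have h10 : n * (Hd ℚ (pw b q) L : ℝ) ≤ n * (θ * H) := mul_le_mul_of_nonneg_left h3 hn0.le
    linarith
  have hfac : Real.log H.factorial ≤ H * (r * Real.log (L + 1)) := by
    have h1 : (H.factorial : ℝ) ≤ (H : ℝ) ^ H := by exact_mod_cast Nat.factorial_le_pow H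
    have h2 : (H : ℝ) ≤ ((L : ℝ) + 1) ^ r := by exact_mod_cast hHle
    calc Real.log H.factorial ≤ Real.log ((H : ℝ) ^ H) :=
          Real.log_le_log (by exact_mod_cast Nat.factorial_pos H) h1
      _ = H * Real.log H := Real.log_pow _ _
      _ ≤ H * Real.log (((L : ℝ) + 1) ^ r) :=
          mul_le_mul_of_nonneg_left (Real.log_le_log hHR h2) hHR.le
      _ = H * (r * Real.log (L + 1)) := by rw [Real.log_pow]
  have hlN : 0 ≤ Real.log N := Real.log_nonneg (by exact_mod_cast (by omega : 1 ≤ N))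
  have hsum : (Ψ.card : ℝ) * (n * H * (1 - θ - β) * Real.log N) ≤
      ∑ q ∈ Ψ, (∑ g, (k q g : ℝ)) * Real.log ((q : ℕ) : ℝ) := by
    rw [← nsmul_eq_mul, ← Finset.sum_const]
    refine Finset.sum_le_sum fun q hq => ?_
    have h1 : Real.log N ≤ Real.log ((q : ℕ) : ℝ) :=
      Real.log_le_log (by exact_mod_cast (by omega : 0 < N)) (by exact_mod_cast (hΨ q hq).1)
    have h2 : 0 ≤ n * H * (1 - θ - β) :=
      mul_nonneg (mul_nonneg hn0.le hHR.le) (by linarith)
    exact (mul_le_mul_of_nonneg_left h1 h2).trans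
      (mul_le_mul_of_nonneg_right (hlow q hq) (hlN.trans h1))
  have hfin := (hsum.trans hpf).trans (le_of_eq hlog)
  have h1 : n * (Real.log H.factorial + H * (L * ∑ j, hh σ (b j))) ≤
      n * (H * (r * Real.log (L + 1)) + H * (L * ∑ j, hh σ (b j))) :=
    mul_le_mul_of_nonneg_left (by linarith) hn0.le
  have h2 : (n * H) * ((Ψ.card : ℝ) * ((1 - θ - β) * Real.log N)) ≤
      (n * H) * (r * Real.log (L + 1) + L * ∑ i, hh σ (b i)) := by
    calc (n * H) * ((Ψ.card : ℝ) * ((1 - θ - β) * Real.log N))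
        = (Ψ.card : ℝ) * (n * H * (1 - θ - β) * Real.log N) := by ring
      _ ≤ _ := hfin.trans h1
      _ = _ := by ring
  exact le_of_mul_le_mul_left h2 (mul_pos hn0 hHR)

end H25.Arith
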