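import Pool.Agent.H25.Arith.Defs

/-!
# AH-SEP : triangular separators; doubling

PROOF of `separators`. Let `I_q(A) = {P ∈ restrictDegree A | P(b^q) = 0}`. `Jd b Ψ L` is the dimension of the
space `E_Ψ(L) = {(P(b^q))_{q ∈ Ψ} | P ∈ restrictDegree L} ⊆ K^Ψ` (image of `restrictDegree` under a `ℚ`-linear
map; the monomials `x^v`, `v` in the box, span `restrictDegree L`, and `jw b Ψ v = (v-th monomial at b^q)_q`).
Claim, by induction on the number `k` of elements of `Ψ`: if `k * A + L0 ≤ L` then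
`∑_{q ∈ Ψ} Hd (pw b q) L0 ≤ dim E_Ψ(L)`.
Take `j ∈ Ψ` with `dim I_j(A)` minimal (`Finset.exists_min_image`). For `i ∈ Ψ`, `i ≠ j` : `I_i(A) ⊄ I_j(A)`
(otherwise equal by dimension, contradicting `hdist`), so there is `P_i ∈ restrictDegree A` with
`P_i(b^i) = 0`, `P_i(b^j) ≠ 0`. `S := ∏_{i ≠ j} P_i`, of degree `≤ (k-1) A` in each variable
(`H61.Geo.rd_prod`, `rd_mul`). For `R ∈ restrictDegree L0`, `S R ∈ restrictDegree L` vanishes at `b^i`, `i ≠ j`,
and has the value `S(b^j) R(b^j)` at `b^j`, `S(b^j) ≠ 0`. So the kernel of the projection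
`E_Ψ(L) → E_{Ψ \ j}(L)` (surjective) has dimension at least `dim {R(b^j)} = Hd (pw b j) L0`. By rank-nullity and
the induction hypothesis for `Ψ \ j`: `dim E_Ψ(L) ≥ Hd (pw b j) L0 + ∑_{i ≠ j} Hd (pw b i) L0`.

PROOF of `Hd_two_mul`. Every `v ∈ [0,2L]^r` is `ε L + w` with `ε ∈ {0,1}^r`, `w ∈ [0,L]^r`
(`ε_i = 1` iff `v_i > L`), so `Sp (2L) ≤ ⨆_ε (b^{εL}) • Sp L`, a sum of `2^r` spaces of dimension `≤ Hd L`
(images of `Sp L` under multiplication by `b^{εL}`). `H61.Geo.Sp_eq_span`.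
-/

open H61.Geo MvPolynomial

namespace H25.Arith

variable {K : Type*} [Field K] [NumberField K] {r : ℕ}


/-! ### the general statement, for arbitrary points -/

section general

variable {ι : Type*}

/-- the joint evaluation map -/
noncomputable def sepEv (x : ι → Fin r → K) (Ψ : Finset ι) :
    MvPolynomial (Fin r) ℚ →ₗ[ℚ] (Ψ → K) :=
  LinearMap.pi fun q => (aeval (x q)).toLinearMap

theorem sepEv_apply (x : ι → Fin r → K) (Ψ : Finset ι) (P : MvPolynomial (Fin r) ℚ) (q : Ψ) :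
    sepEv x Ψ P q = aeval (x q) P := rfl

/-- the polynomials of degree at most `A` in each variable vanishing at `x` -/
noncomputable def sepI (x : Fin r → K) (A : ℕ) : Submodule ℚ (MvPolynomial (Fin r) ℚ) :=
  restrictDegree (Fin r) ℚ A ⊓ LinearMap.ker (aeval x : MvPolynomial (Fin r) ℚ →ₐ[ℚ] K).toLinearMap

theorem mem_sepI {x : Fin r → K} {A : ℕ} {P : MvPolynomial (Fin r) ℚ} :
    P ∈ sepI x A ↔ P ∈ restrictDegree (Fin r) ℚ A ∧ aeval x P = 0 := by
  simp [sepI]

instance (x : Fin r → K) (A : ℕ) : FiniteDimensional ℚ (sepI x A) :=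
  Submodule.finiteDimensional_of_le (S₂ := restrictDegree (Fin r) ℚ A) inf_le_left

theorem sep_exists {x y : Fin r → K} {A : ℕ}
    (hdist : ∃ P ∈ restrictDegree (Fin r) ℚ A, ¬ (aeval x P = 0 ↔ aeval y P = 0))
    (hle : Module.finrank ℚ (sepI y A) ≤ Module.finrank ℚ (sepI x A)) :
    ∃ P ∈ restrictDegree (Fin r) ℚ A, aeval x P = 0 ∧ aeval y P ≠ 0 := by
  by_contra hcon
  push Not at hcon
  have h1 : sepI x A ≤ sepI y A := by
    intro P hP
    rw [mem_sepI] at hP ⊢
    exact ⟨hP.1, hcon P hP.1 hP.2⟩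
  have h2 : sepI x A = sepI y A := Submodule.eq_of_le_of_finrank_le h1 hle
  obtain ⟨P, hP, hn⟩ := hdist
  apply hn
  constructor
  · intro h
    have : P ∈ sepI y A := h2 ▸ mem_sepI.2 ⟨hP, h⟩
    exact (mem_sepI.1 this).2
  · intro h
    have : P ∈ sepI x A := h2 ▸ mem_sepI.2 ⟨hP, h⟩
    exact (mem_sepI.1 this).2

theorem sep_core (x : ι → Fin r → K) (A L0 : ℕ) : ∀ (k : ℕ) (Ψ : Finset ι) (L : ℕ),
    Ψ.card = k → k * A + L0 ≤ L →
    (∀ p ∈ Ψ, ∀ q ∈ Ψ, p ≠ q → ∃ P ∈ restrictDegree (Fin r) ℚ A,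
      ¬ (aeval (x p) P = 0 ↔ aeval (x q) P = 0)) →
    ∑ q ∈ Ψ, Hd ℚ (x q) L0 ≤
      Module.finrank ℚ ((restrictDegree (Fin r) ℚ L).map (sepEv x Ψ)) := by
  classical
  intro k
  induction k with
  | zero =>
    intro Ψ L hk _ _
    rw [Finset.card_eq_zero] at hk
    subst hk
    simp
  | succ k ih =>
    intro Ψ L hk hL hdist
    have hne : Ψ.Nonempty := by
      rw [← Finset.card_pos]; omega
    obtain ⟨j, hj, hmin⟩ := Finset.exists_min_image Ψ
      (fun i => Module.finrank ℚ (sepI (x i) A)) hne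
    have hk' : (Ψ.erase j).card = k := by rw [Finset.card_erase_of_mem hj]; omega
    have ihj := ih (Ψ.erase j) L hk' (by
      have : k * A ≤ (k + 1) * A := Nat.mul_le_mul_right _ (Nat.le_succ k)
      omega) (fun p hp q hq hpq =>
        hdist p (Finset.mem_of_mem_erase hp) q (Finset.mem_of_mem_erase hq) hpq)
    have hsepj : ∀ i ∈ Ψ.erase j, ∃ P ∈ restrictDegree (Fin r) ℚ A,
        aeval (x i) P = 0 ∧ aeval (x j) P ≠ 0 := fun i hi =>
      sep_exists (hdist i (Finset.mem_of_mem_erase hi) j hj (Finset.ne_of_mem_erase hi))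
        (hmin i (Finset.mem_of_mem_erase hi))
    choose! P hPd hP0 hP1 using hsepj
    set S : MvPolynomial (Fin r) ℚ := ∏ i ∈ Ψ.erase j, P i with hS
    have hSd : S ∈ restrictDegree (Fin r) ℚ (k * A) := by
      have := rd_prod (Ψ.erase j) P (fun _ => A) hPd
      simpa [hk'] using this
    have hSj : aeval (x j) S ≠ 0 := by
      rw [hS, map_prod]
      exact Finset.prod_ne_zero_iff.2 hP1
    have hSi : ∀ i ∈ Ψ.erase j, aeval (x i) S = 0 := by
      intro i hi
      rw [hS, map_prod]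
      exact Finset.prod_eq_zero hi (hP0 i hi)
    -- the projection
    let π : (Ψ → K) →ₗ[ℚ] (↥(Ψ.erase j) → K) :=
      LinearMap.funLeft ℚ K (fun i : ↥(Ψ.erase j) => (⟨i, Finset.mem_of_mem_erase i.2⟩ : Ψ))
    set E := (restrictDegree (Fin r) ℚ L).map (sepEv x Ψ) with hE
    have hπE : E.map π = (restrictDegree (Fin r) ℚ L).map (sepEv x (Ψ.erase j)) := by
      rw [hE, ← Submodule.map_comp]
      rfl
    -- the injection
    let φ : K →ₗ[ℚ] (Ψ → K) :=
      (LinearMap.single ℚ (fun _ : Ψ => K) ⟨j, hj⟩) ∘ₗ (LinearMap.mulLeft ℚ (aeval (x j) S))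
    have hφ : Function.Injective φ := by
      intro a b hab
      have h1 : φ a ⟨j, hj⟩ = φ b ⟨j, hj⟩ := by rw [hab]
      have h2 : aeval (x j) S * a = aeval (x j) S * b := by simpa [φ] using h1
      exact mul_left_cancel₀ hSj h2
    have hφE : (Sp ℚ (x j) L0).map φ ≤ E ⊓ LinearMap.ker π := by
      rintro _ ⟨w, hw, rfl⟩
      obtain ⟨R, hR, rfl⟩ := mem_Sp.1 hw
      refine ⟨⟨S * R, ?_, ?_⟩, ?_⟩
      · refine rd_mono ?_ (rd_mul hSd hR)
        have : (k + 1) * A = k * A + A := Nat.succ_mul k A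
        omega
      · funext q
        rw [sepEv_apply, map_mul]
        by_cases hq : q = ⟨j, hj⟩
        · subst hq
          simp [φ]
        · have hq2 : (q : ι) ≠ j := fun h => hq (Subtype.ext h)
          rw [hSi q (Finset.mem_erase.2 ⟨hq2, q.2⟩), zero_mul]
          simp [φ, hq]
      · change φ (aeval (x j) R) ∈ LinearMap.ker π
        rw [LinearMap.mem_ker]
        funext q
        have hq2 : (⟨q, Finset.mem_of_mem_erase q.2⟩ : Ψ) ≠ ⟨j, hj⟩ := fun h =>
          Finset.ne_of_mem_erase q.2 (congrArg Subtype.val h)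
        simp [π, φ, LinearMap.funLeft_apply, hq2]
    have h1 : Hd ℚ (x j) L0 ≤ Module.finrank ℚ (E ⊓ LinearMap.ker π : Submodule ℚ (Ψ → K)) := by
      have h2 : Module.finrank ℚ ((Sp ℚ (x j) L0).map φ) = Hd ℚ (x j) L0 :=
        (Submodule.equivMapOfInjective φ hφ (Sp ℚ (x j) L0)).finrank_eq.symm
      rw [← h2]
      exact Submodule.finrank_mono hφE
    have h3 : Module.finrank ℚ (E.map π) +
        Module.finrank ℚ (E ⊓ LinearMap.ker π : Submodule ℚ (Ψ → K)) = Module.finrank ℚ E := by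
      have h4 := LinearMap.finrank_range_add_finrank_ker (π.domRestrict E)
      rw [LinearMap.range_domRestrict, LinearMap.ker_domRestrict] at h4
      rw [← h4, ← Submodule.map_comap_subtype, Submodule.finrank_map_subtype_eq]
    rw [← Finset.add_sum_erase Ψ _ hj]
    rw [hπE] at h3
    omega

end general

theorem separators (b : Fin r → K) (Ψ : Finset Nat.Primes) (A L0 L : ℕ)
    (hL : Ψ.card * A + L0 ≤ L)
    (hdist : ∀ p ∈ Ψ, ∀ q ∈ Ψ, p ≠ q → ∃ P ∈ restrictDegree (Fin r) ℚ A,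
      ¬ (aeval (pw b (p : ℕ)) P = 0 ↔ aeval (pw b (q : ℕ)) P = 0)) :
    ∑ q ∈ Ψ, Hd ℚ (pw b (q : ℕ)) L0 ≤ Jd b Ψ L := by
  classical
  refine (sep_core (fun q : Nat.Primes => pw b (q : ℕ)) A L0 _ Ψ L rfl hL hdist).trans ?_
  unfold Jd
  apply Submodule.finrank_mono
  rintro _ ⟨P, hP, rfl⟩
  have hP' := mem_rd.1 hP
  have h1 : sepEv (fun q : Nat.Primes => pw b (q : ℕ)) Ψ P =
      ∑ s ∈ P.support, P.coeff s • (fun q : Ψ => (∏ i, b i ^ s i) ^ ((q : Nat.Primes) : ℕ)) := by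
    funext q
    rw [sepEv_apply, aeval_def, eval₂_eq', Finset.sum_apply]
    refine Finset.sum_congr rfl fun s _ => ?_
    rw [Pi.smul_apply, Algebra.smul_def]
    congr 1
    rw [← Finset.prod_pow]
    refine Finset.prod_congr rfl fun i _ => ?_
    simp only [pw]
    rw [← pow_mul, ← pow_mul, mul_comm]
  rw [h1]
  refine Submodule.sum_mem _ fun s hs => Submodule.smul_mem _ _ (Submodule.subset_span ?_)
  refine ⟨fun i => ⟨s i, Nat.lt_succ_of_le (hP' s hs i)⟩, ?_⟩
  funext q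
  simp [jw, bm]

theorem Hd_two_mul (b : Fin r → K) (L : ℕ) : Hd ℚ b (2 * L) ≤ 2 ^ r * Hd ℚ b L := by
  classical
  let Φ : ((Fin r → Bool) → Sp ℚ b L) →ₗ[ℚ] K :=
    ∑ ε : Fin r → Bool, (LinearMap.mulLeft ℚ (∏ i, b i ^ (if ε i then L else 0))) ∘ₗ
      (Sp ℚ b L).subtype ∘ₗ (LinearMap.proj ε)
  have h1 : Sp ℚ b (2 * L) ≤ LinearMap.range Φ := by
    rw [Sp_eq_span, Submodule.span_le]
    rintro _ ⟨v, hv, rfl⟩
    have hv' : ∀ i, v i ≤ 2 * L := hv
    let ε : Fin r → Bool := fun i => decide (L < v i)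
    let w : Fin r → ℕ := fun i => v i - (if ε i then L else 0)
    have hw : ∀ i, w i ≤ L := by
      intro i
      have := hv' i
      simp only [w, ε, decide_eq_true_eq]
      split_ifs <;> omega
    have hw2 : (∏ i, b i ^ w i) ∈ Sp ℚ b L := by
      rw [Sp_eq_span]
      exact Submodule.subset_span ⟨w, hw, rfl⟩
    refine ⟨Pi.single ε ⟨∏ i, b i ^ w i, hw2⟩, ?_⟩
    simp only [Φ, LinearMap.sum_apply, LinearMap.comp_apply, LinearMap.proj_apply,
      Submodule.subtype_apply, LinearMap.mulLeft_apply]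
    rw [Finset.sum_eq_single ε]
    · rw [Pi.single_eq_same, ← Finset.prod_mul_distrib]
      refine Finset.prod_congr rfl fun i _ => ?_
      rw [← pow_add]
      congr 1
      simp only [w, ε, decide_eq_true_eq]
      split_ifs <;> omega
    · intro c _ hc
      rw [Pi.single_eq_of_ne hc]
      simp
    · intro h
      exact absurd (Finset.mem_univ _) h
  calc Hd ℚ b (2 * L) ≤ Module.finrank ℚ (LinearMap.range Φ) := Submodule.finrank_mono h1
    _ ≤ Module.finrank ℚ ((Fin r → Bool) → Sp ℚ b L) := LinearMap.finrank_range_le Φ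
    _ = 2 ^ r * Hd ℚ b L := by
      rw [Module.finrank_pi_fintype]
      simp [Hd]

end H25.Arith
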