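import Pool.Agent.H25.Arith.LocEx
import Pool.Agent.H25.Arith.FewBad
import Pool.Agent.H25.Arith.LemA
import Pool.Agent.H25.Arith.LemECor
import Pool.Agent.H25.Arith.Sep
import Pool.Agent.H25.Arith.PrimeCount

/-!
# AH-FIN1 : two primes with the same relations of low degree

PROOF. `C₁` from `lemmaE r d`, `K₀ := 2^(r+1) * C₁ + 1`, `ℓ q := Classical.choice (exists_loc K q q.2)`,
`A := n / N^3`, `L₀ := K₀ * A`, `S := ∑ i, hh σ (a i) ≤ r/n`. `n₀` is chosen at the end; note `N ≥ n^d`, so `N`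
is as large as we want, `N ≥ 2`, and `log n ≤ log N / d`, `1 ≤ 2 log N`.
(1) Sizes: `2 L₀ + 1 ≤ n` and `N^2 * (2 L₀) * S ≤ 2 K₀ r N^2 / N^3 ≤ 1`, also `L₀ S ≤ 1`, if `N ≥ 4 K₀ (r+1)`, `n ≥ 2`.
(2) Let `Ψ₁` be the set of the primes in `[N, N^2]` (as a `Finset Nat.Primes`, e.g.
    `(Finset.Icc N (N^2)).subtype Nat.Prime`), `#Ψ₁ ≥ C N` by `many_primes` with any constant `C` we like.
(3) `B₁ := {q ∈ Ψ₁ | #bad (ℓ q) a > #G/4}`: `few_bad` (`η = 1`, `β = 1/4`):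
    `#B₁ * (log N)/4 ≤ 4 r^2 (log n + 1)`, so `#B₁ ≤ 16 r^2 (1/d + 2)`.
(4) `X := {q ∈ Ψ₁ \ B₁ | Hd (pw a q) L₀ ≤ 1/2 Hd a L₀}`: `lemmaA` (`θ = 1/2`, `β = 1/4`):
    `#X * (log N)/4 ≤ r log (L₀+1) + L₀ S ≤ r log n + 1`, so `#X ≤ 4 (r/d + 2)`.
(5) For `n` large there is `Ψ ⊆ Ψ₁ \ (B₁ ∪ X)` with `#Ψ = K₀` (`Finset.exists_subset_card_eq`).
(6) If for all `p ≠ q` in `Ψ` the relations differ (in the sense of `hdist` of `separators`), then with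
    `L = K₀ A + L₀ = 2 L₀`, `separators`, `lemmaE` (`Q = N^2`) and `Hd_two_mul`:
    `∑_{q ∈ Ψ} Hd (pw a q) L₀ ≤ Jd a Ψ (2 L₀) ≤ C₁ Hd a (2 L₀) ≤ C₁ 2^r Hd a L₀`, and every term is
    `> 1/2 Hd a L₀`, `Hd a L₀ > 0` (`H61.Geo.Hd_pos`): `K₀/2 ≤ C₁ 2^r`, contradiction. So there are `p ≠ q` in `Ψ` with
    `∀ P ∈ restrictDegree A, (P(a^p) = 0 ↔ P(a^q) = 0)`: these are `m1`, `m2`.
-/

open H61.Geo MvPolynomial

namespace H25.Arith

/-- sizes of the parameters -/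
lemma fin1_large (d : ℝ) (hd : 0 < d) (M : ℕ) : ∃ n0 : ℕ, 2 ≤ n0 ∧
    ∀ n N : ℕ, n0 ≤ n → (n : ℝ) ^ d ≤ N → M ≤ N := by
  refine ⟨max 2 ⌈(M : ℝ) ^ (1 / d)⌉₊, le_max_left _ _, fun n N hn hN => ?_⟩
  have h1 : (M : ℝ) ^ (1 / d) ≤ n := by
    refine (Nat.le_ceil _).trans ?_
    exact_mod_cast (le_max_right _ _).trans hn
  have h2 : (M : ℝ) ≤ (n : ℝ) ^ d := by
    calc (M : ℝ) = ((M : ℝ) ^ (1 / d)) ^ d := by
          rw [← Real.rpow_mul (Nat.cast_nonneg _), one_div_mul_cancel hd.ne', Real.rpow_one]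
      _ ≤ (n : ℝ) ^ d := Real.rpow_le_rpow (by positivity) h1 hd.le
  exact_mod_cast h2.trans hN

lemma fin1_log {d : ℝ} (hd : 0 < d) {n N : ℕ} (hn : 2 ≤ n) (hN : (n : ℝ) ^ d ≤ N) :
    Real.log n ≤ Real.log N / d := by
  have hn' : (0 : ℝ) < n := by exact_mod_cast (by omega : 0 < n)
  rw [le_div_iff₀ hd, mul_comm, ← Real.log_rpow hn']
  exact Real.log_le_log (Real.rpow_pos_of_pos hn' d) hN

lemma fin1_one_le {N : ℕ} (hN : 2 ≤ N) : 1 ≤ 2 * Real.log N := by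
  have h1 : Real.log 2 ≤ Real.log N :=
    Real.log_le_log (by norm_num) (by exact_mod_cast hN)
  have h2 := Real.log_two_gt_d9
  linarith

theorem step_one (r : ℕ) (d : ℝ) (hd : 0 < d) : ∃ n0 : ℕ,
    ∀ (K : Type) [Field K] [NumberField K] [IsGalois ℚ K] (σ : K →+* ℂ) (a : Fin r → K)
      (n N : ℕ), n0 ≤ n → (n : ℝ) ^ d ≤ N → (∀ i, a i ≠ 0) → (∀ i, IsIntegral ℤ (a i)) →
      (∀ i, (orb (a i)).card ≤ n) → (∀ i, n * hh σ (a i) ≤ 1) →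
      ∃ m1 m2 : ℕ, m1 ≠ m2 ∧ m1.Prime ∧ m2.Prime ∧ N ≤ m1 ∧ m1 ≤ N ^ 2 ∧ N ≤ m2 ∧ m2 ≤ N ^ 2 ∧
        ∀ P ∈ restrictDegree (Fin r) ℚ (n / N ^ 3),
          (aeval (pw a m1) P = 0 ↔ aeval (pw a m2) P = 0) := by
  classical
  obtain ⟨C1, hC1⟩ := lemmaE r d hd
  set K0 : ℕ := 2 ^ (r + 1) * C1 + 1 with hK0
  obtain ⟨N0, hN0⟩ := many_primes 1
  set D : ℕ := ⌈16 * (r : ℝ) ^ 2 * (1 / d + 2) + 4 * (r / d + 2)⌉₊ + K0 with hD
  obtain ⟨n0, hn02, hn0⟩ := fin1_large d hd (N0 + D + 4 * K0 * (r + 1) + 2)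
  refine ⟨n0, ?_⟩
  intro K _ _ _ σ a n N hn hnN ha0 haint horb hh1
  have hNM := hn0 n N hn hnN
  have hn2 : 2 ≤ n := hn02.trans hn
  have hN2 : 2 ≤ N := by omega
  have hNK : 4 * K0 * (r + 1) ≤ N := by omega
  have hND : D ≤ N := by omega
  have hNN0 : N0 ≤ N := by omega
  have hK0pos : 0 < K0 := by omega
  have hlogn := fin1_log hd hn2 hnN
  have hlog1 := fin1_one_le hN2
  have hNr : (2 : ℝ) ≤ N := by exact_mod_cast hN2
  have hNpos : (0 : ℝ) < N := by linarith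
  have hlogN : 0 < Real.log N := Real.log_pos (by linarith)
  have hnr : (2 : ℝ) ≤ n := by exact_mod_cast hn2
  have hnpos : (0 : ℝ) < n := by linarith
  set A : ℕ := n / N ^ 3 with hA
  set L0 : ℕ := K0 * A with hL0
  set S : ℝ := ∑ i, hh σ (a i) with hS
  have hS0 : 0 ≤ S := Finset.sum_nonneg fun i _ => hh_nonneg σ (a i)
  have hnS : (n : ℝ) * S ≤ r := by
    rw [hS, Finset.mul_sum]
    calc ∑ i, (n : ℝ) * hh σ (a i) ≤ ∑ _i : Fin r, (1 : ℝ) := Finset.sum_le_sum fun i _ => hh1 i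
      _ = r := by simp
  have hAN : A * N ^ 3 ≤ n := Nat.div_mul_le_self _ _
  have hANr : (A : ℝ) * (N : ℝ) ^ 3 ≤ n := by exact_mod_cast hAN
  -- sizes
  have hsize1 : 2 * L0 + 1 ≤ n := by
    have h1 : 4 * K0 ≤ N ^ 3 := by
      calc 4 * K0 ≤ 4 * K0 * (r + 1) := Nat.le_mul_of_pos_right _ (Nat.succ_pos _)
        _ ≤ N := hNK
        _ ≤ N ^ 3 := Nat.le_self_pow (by norm_num) N
    have h2 : 2 * (2 * L0) ≤ n := by
      calc 2 * (2 * L0) = A * (4 * K0) := by rw [hL0]; ring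
        _ ≤ A * N ^ 3 := Nat.mul_le_mul_left _ h1
        _ ≤ n := hAN
    omega
  have hsize2 : ((N ^ 2 : ℕ) : ℝ) * ((2 * L0 : ℕ) : ℝ) * S ≤ 1 := by
    have h1 : ((N ^ 2 : ℕ) : ℝ) * ((2 * L0 : ℕ) : ℝ) * S * N ≤ 1 * N := by
      calc ((N ^ 2 : ℕ) : ℝ) * ((2 * L0 : ℕ) : ℝ) * S * N
          = 2 * K0 * S * ((A : ℝ) * (N : ℝ) ^ 3) := by rw [hL0]; push_cast; ring
        _ ≤ 2 * K0 * S * n := by
            apply mul_le_mul_of_nonneg_left hANr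
            positivity
        _ = 2 * K0 * (n * S) := by ring
        _ ≤ 2 * K0 * r := by
            apply mul_le_mul_of_nonneg_left hnS
            positivity
        _ ≤ 1 * N := by
            have h2 : ((4 * K0 * (r + 1) : ℕ) : ℝ) ≤ N := by exact_mod_cast hNK
            push_cast at h2
            have h3 : (0 : ℝ) ≤ K0 := Nat.cast_nonneg _
            have h4 : (0 : ℝ) ≤ (K0 : ℝ) * r := by positivity
            nlinarith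
    exact le_of_mul_le_mul_right h1 hNpos
  have hL0S : (L0 : ℝ) * S ≤ 1 := by
    refine le_trans ?_ hsize2
    apply mul_le_mul_of_nonneg_right _ hS0
    have h1 : L0 ≤ N ^ 2 * (2 * L0) := by
      calc L0 ≤ 2 * L0 := by omega
        _ ≤ N ^ 2 * (2 * L0) := Nat.le_mul_of_pos_left _ (by positivity)
    exact_mod_cast h1
  have hlogL0 : Real.log ((L0 : ℝ) + 1) ≤ Real.log n := by
    apply Real.log_le_log (by positivity)
    have : L0 + 1 ≤ n := by omega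
    exact_mod_cast this
  -- local data
  let ℓ : ∀ q : Nat.Primes, Loc K q := fun q => Classical.choice (exists_loc K q q.2)
  -- the primes
  set Ψ1 : Finset Nat.Primes := (Finset.Icc N (N ^ 2)).subtype Nat.Prime with hΨ1
  have hΨ1mem : ∀ q : Nat.Primes, q ∈ Ψ1 ↔ N ≤ (q : ℕ) ∧ (q : ℕ) ≤ N ^ 2 := by
    intro q
    rw [hΨ1]
    exact Finset.mem_subtype.trans Finset.mem_Icc
  have hΨ1card : N ≤ Ψ1.card := by
    have h1 : Ψ1.card = ((Finset.Icc N (N ^ 2)).filter Nat.Prime).card :=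
      Finset.card_subtype Nat.Prime _
    rw [h1]
    simpa using hN0 N hNN0
  set G : ℝ := (Fintype.card (K ≃ₐ[ℚ] K) : ℝ) with hG
  set B1 : Finset Nat.Primes := Ψ1.filter fun q => 1 / 4 * G < ((bad (ℓ q) a).card : ℝ) with hB1
  set X : Finset Nat.Primes := (Ψ1.filter fun q => ¬ 1 / 4 * G < ((bad (ℓ q) a).card : ℝ)).filter
    fun q => (Hd ℚ (pw a (q : ℕ)) L0 : ℝ) ≤ 1 / 2 * Hd ℚ a L0 with hX
  have hB1card : (B1.card : ℝ) ≤ 16 * (r : ℝ) ^ 2 * (1 / d + 2) := by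
    have h1 := few_bad σ ℓ a haint n horb 1 hh1 (1 / 4) (by norm_num) N hN2 B1 (by
      intro q hq
      rw [hB1, Finset.mem_filter] at hq
      exact ⟨((hΨ1mem q).1 hq.1).1, hq.2⟩)
    have h2 : Real.log n + 1 ≤ (1 / d + 2) * Real.log N := by
      have : (1 / d + 2) * Real.log N = Real.log N / d + 2 * Real.log N := by ring
      linarith
    have h3 : (B1.card : ℝ) * Real.log N ≤ 16 * (r : ℝ) ^ 2 * (1 / d + 2) * Real.log N := by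
      have h4 : 4 * (r : ℝ) ^ 2 * (Real.log n + 1) ≤
          4 * (r : ℝ) ^ 2 * ((1 / d + 2) * Real.log N) :=
        mul_le_mul_of_nonneg_left h2 (by positivity)
      nlinarith
    exact le_of_mul_le_mul_right h3 hlogN
  have hXcard : (X.card : ℝ) ≤ 4 * (r / d + 2) := by
    have h1 := lemmaA σ ℓ a haint L0 X N hN2 (1 / 2) (1 / 4) (by norm_num) (by
      intro q hq
      rw [hX, Finset.mem_filter, Finset.mem_filter] at hq
      exact ⟨((hΨ1mem q).1 hq.1.1).1, not_lt.1 hq.1.2, hq.2⟩)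
    have h2 : (r : ℝ) * Real.log (L0 + 1) ≤ r * (Real.log N / d) :=
      mul_le_mul_of_nonneg_left (hlogL0.trans hlogn) (Nat.cast_nonneg _)
    have h3 : (X.card : ℝ) * Real.log N ≤ 4 * (r / d + 2) * Real.log N := by
      have h4 : 4 * ((r : ℝ) / d + 2) * Real.log N =
        4 * (r * (Real.log N / d)) + 8 * Real.log N := by ring
      rw [h4]
      nlinarith
    exact le_of_mul_le_mul_right h3 hlogN
  have hBXcard : (B1 ∪ X).card + K0 ≤ Ψ1.card := by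
    have h1 : (((B1 ∪ X).card : ℕ) : ℝ) ≤
        16 * (r : ℝ) ^ 2 * (1 / d + 2) + 4 * (r / d + 2) := by
      have h2 : (((B1 ∪ X).card : ℕ) : ℝ) ≤ (B1.card : ℝ) + X.card := by
        exact_mod_cast Finset.card_union_le B1 X
      linarith
    have h3 : (B1 ∪ X).card ≤ ⌈16 * (r : ℝ) ^ 2 * (1 / d + 2) + 4 * (r / d + 2)⌉₊ := by
      have := h1.trans (Nat.le_ceil _)
      exact_mod_cast this
    omega
  have hcard2 : K0 ≤ (Ψ1 \ (B1 ∪ X)).card := by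
    have := Finset.le_card_sdiff (B1 ∪ X) Ψ1
    omega
  obtain ⟨Ψ, hΨsub, hΨcard⟩ := Finset.exists_subset_card_eq hcard2
  have hΨmem : ∀ q ∈ Ψ, (N ≤ (q : ℕ) ∧ (q : ℕ) ≤ N ^ 2) ∧
      ((bad (ℓ q) a).card : ℝ) ≤ 1 / 4 * G ∧
      (Hd ℚ a L0 : ℝ) < 2 * (Hd ℚ (pw a (q : ℕ)) L0 : ℝ) := by
    intro q hq
    have h1 := hΨsub hq
    rw [Finset.mem_sdiff, Finset.mem_union, not_or] at h1
    obtain ⟨h2, h3, h4⟩ := h1
    have h5 : ¬ 1 / 4 * G < ((bad (ℓ q) a).card : ℝ) := by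
      intro h
      exact h3 (Finset.mem_filter.2 ⟨h2, h⟩)
    have h6 : ¬ (Hd ℚ (pw a (q : ℕ)) L0 : ℝ) ≤ 1 / 2 * Hd ℚ a L0 := by
      intro h
      exact h4 (Finset.mem_filter.2 ⟨Finset.mem_filter.2 ⟨h2, h5⟩, h⟩)
    refine ⟨(hΨ1mem q).1 h2, not_lt.1 h5, ?_⟩
    rw [not_le] at h6
    linarith
  by_contra hcon
  have hdist : ∀ p ∈ Ψ, ∀ q ∈ Ψ, p ≠ q → ∃ P ∈ restrictDegree (Fin r) ℚ A,
      ¬ (aeval (pw a (p : ℕ)) P = 0 ↔ aeval (pw a (q : ℕ)) P = 0) := by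
    intro p hp q hq hpq
    by_contra h
    push Not at h
    refine hcon ⟨p, q, fun h' => hpq (Subtype.ext h'), p.2, q.2, (hΨmem p hp).1.1,
      (hΨmem p hp).1.2, (hΨmem q hq).1.1, (hΨmem q hq).1.2, fun P hP => ?_⟩
    have := h P hP
    tauto
  have hsep := separators a Ψ A L0 (2 * L0) (by rw [hΨcard, hL0]; omega) hdist
  have hE := hC1 K σ ℓ a ha0 haint n N (N ^ 2) (2 * L0) Ψ hN2 hnN hsize1
    (fun q hq => ⟨(hΨmem q hq).1.1, (hΨmem q hq).1.2, (hΨmem q hq).2.1⟩) hsize2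
  have hdouble := Hd_two_mul a L0
  have hpos : 0 < Hd ℚ a L0 := Hd_pos a L0
  have h1 : K0 * Hd ℚ a L0 ≤ 2 * ∑ q ∈ Ψ, Hd ℚ (pw a (q : ℕ)) L0 := by
    rw [← hΨcard, Finset.mul_sum, ← smul_eq_mul]
    refine Finset.card_nsmul_le_sum _ _ _ fun q hq => ?_
    have := (hΨmem q hq).2.2
    have h2 : Hd ℚ a L0 < 2 * Hd ℚ (pw a (q : ℕ)) L0 := by exact_mod_cast this
    exact h2.le
  have h2 : K0 * Hd ℚ a L0 ≤ 2 ^ (r + 1) * C1 * Hd ℚ a L0 := by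
    calc K0 * Hd ℚ a L0 ≤ 2 * ∑ q ∈ Ψ, Hd ℚ (pw a (q : ℕ)) L0 := h1
      _ ≤ 2 * Jd a Ψ (2 * L0) := Nat.mul_le_mul_left _ hsep
      _ ≤ 2 * (C1 * Hd ℚ a (2 * L0)) := Nat.mul_le_mul_left _ hE
      _ ≤ 2 * (C1 * (2 ^ r * Hd ℚ a L0)) :=
          Nat.mul_le_mul_left _ (Nat.mul_le_mul_left _ hdouble)
      _ = 2 ^ (r + 1) * C1 * Hd ℚ a L0 := by ring
  have h3 := Nat.le_of_mul_le_mul_right h2 hpos
  omega

end H25.Arith
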