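import Pool.Agent.H25.Arith.DetA
import Pool.Agent.H25.Arith.HH

/-!
# AH-LEMEARCH : archimedean bound of the joint minor

`BE` is the bound. PROOF of `archE`: `σ (h det M) = det (σ ∘ h ∘ M)`; row bounds for `norm_det_le`:
row `inl i`, `f1 i = (g, κ)`: the entry at `v = c j` is `∏_k binom(v_k, κ_k) (g b_k)^(v_k - κ_k)`, its image under
`h` and `σ` is at most `∏_k binom(v_k, κ_k) max(1, ‖σ (h (g b_k))‖)^L` (`v_k - κ_k ≤ v_k ≤ L`), and
`binom(v_k, κ_k) ≤ v_k^(κ_k) ≤ (L+1)^T` (`Nat.choose_le_pow...`; `κ_k < T`, `v_k ≤ L`), the product over `k` of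
these is `≤ ((L+1)^T)^r = (L+1)^(r*T)`.
row `inr p`, `f2 p = (g, q)`, `q ≤ Q`: the entry is `g (bm b v ^ q)`, bounded by `∏_k max(1,‖σ (h (g b_k))‖)^(Q*L)`
(`bm_bound`). `Fintype.card (Fin R ⊕ Fin E) = R + E`.
PROOF of `sum_log_BE`: `log` of the product (all factors are positive), `∑_h log max(1,‖σ (h (g b_k))‖) = #G hh (b k)`
by `sum_shift`, `log (R+E)! ≤ (R+E) log (R+E)`.
-/

open H61.Geo

namespace H25.Arith

variable {K : Type*} [Field K] [NumberField K] {r : ℕ}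

/-- the archimedean bound of the joint minor -/
noncomputable def BE (σ : K →+* ℂ) (b : Fin r → K) (L T Q : ℕ) {R E : ℕ}
    (g1 : Fin R → (K ≃ₐ[ℚ] K)) (g2 : Fin E → (K ≃ₐ[ℚ] K)) (h : K ≃ₐ[ℚ] K) : ℝ :=
  ((R + E).factorial : ℝ) *
    ((∏ i, (((L : ℝ) + 1) ^ (r * T) * ∏ k, max 1 ‖σ (h (g1 i (b k)))‖ ^ L)) *
      ∏ p, ∏ k, max 1 ‖σ (h (g2 p (b k)))‖ ^ (Q * L))

private lemma one_le_fprod {ι : Type*} [Fintype ι] {f : ι → ℝ} (h : ∀ i, 1 ≤ f i) :
    1 ≤ ∏ i, f i := by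
  calc (1 : ℝ) = ∏ _i : ι, (1 : ℝ) := by simp
    _ ≤ ∏ i, f i := Finset.prod_le_prod (fun _ _ => zero_le_one) fun i _ => h i

omit [NumberField K] in
private lemma arch_term (σ : K →+* ℂ) (x : K) {L T : ℕ} (n m : ℕ) (hn : n ≤ L) (hm : m < T) :
    ‖σ (((Nat.choose n m : ℕ) : K) * x ^ (n - m))‖ ≤ ((L : ℝ) + 1) ^ T * max 1 ‖σ x‖ ^ L := by
  rw [map_mul, map_natCast, map_pow, norm_mul, norm_pow, Complex.norm_natCast]
  have h1 : ((Nat.choose n m : ℕ) : ℝ) ≤ ((L : ℝ) + 1) ^ T := by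
    have h2 : Nat.choose n m ≤ (L + 1) ^ T := by
      calc Nat.choose n m ≤ n ^ m := Nat.choose_le_pow n m
        _ ≤ (L + 1) ^ m := Nat.pow_le_pow_left (by omega) _
        _ ≤ (L + 1) ^ T := Nat.pow_le_pow_right (by omega) hm.le
    exact_mod_cast h2
  have h3 : ‖σ x‖ ^ (n - m) ≤ max 1 ‖σ x‖ ^ L := by
    calc ‖σ x‖ ^ (n - m) ≤ max 1 ‖σ x‖ ^ (n - m) :=
          pow_le_pow_left₀ (norm_nonneg _) (le_max_right _ _) _
      _ ≤ max 1 ‖σ x‖ ^ L := pow_le_pow_right₀ (le_max_left _ _) (by omega)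
  exact mul_le_mul h1 h3 (by positivity) (by positivity)

theorem archE (σ : K →+* ℂ) (b : Fin r → K) (L T Q : ℕ) (Ψ : Finset Nat.Primes)
    (hQ : ∀ q ∈ Ψ, (q : ℕ) ≤ Q) {R E : ℕ}
    (f1 : Fin R → (K ≃ₐ[ℚ] K) × (Fin r → Fin T))
    (f2 : Fin E → (K ≃ₐ[ℚ] K) × Ψ) (c : Fin R ⊕ Fin E → Box r L) (h : K ≃ₐ[ℚ] K) :
    ‖σ (h ((Matrix.fromRows (JJ b L T) (MM (jw (L := L) b Ψ))).submatrix
      (Sum.map f1 f2) c).det)‖ ≤ BE σ b L T Q (fun i => (f1 i).1) (fun p => (f2 p).1) h := by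
  classical
  have hdet := RingHom.map_det (σ.comp (h : K →+* K))
    ((Matrix.fromRows (JJ b L T) (MM (jw (L := L) b Ψ))).submatrix (Sum.map f1 f2) c)
  have hdet' : σ (h ((Matrix.fromRows (JJ b L T) (MM (jw (L := L) b Ψ))).submatrix
      (Sum.map f1 f2) c).det) = ((σ.comp (h : K →+* K)).mapMatrix
        ((Matrix.fromRows (JJ b L T) (MM (jw (L := L) b Ψ))).submatrix
          (Sum.map f1 f2) c)).det := hdet
  rw [hdet']
  refine (norm_det_le _ (Sum.elim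
    (fun i => ((L : ℝ) + 1) ^ (r * T) * ∏ k, max 1 ‖σ (h ((f1 i).1 (b k)))‖ ^ L)
    (fun p => ∏ k, max 1 ‖σ (h ((f2 p).1 (b k)))‖ ^ (Q * L))) ?_).trans (le_of_eq ?_)
  · rintro (i | p) j
    · have e1 : ((σ.comp (h : K →+* K)).mapMatrix
          ((Matrix.fromRows (JJ b L T) (MM (jw (L := L) b Ψ))).submatrix
            (Sum.map f1 f2) c)) (Sum.inl i) j =
          ∏ k, σ (((Nat.choose (c j k) ((f1 i).2 k) : ℕ) : K) *
            (h ((f1 i).1 (b k))) ^ ((c j k : ℕ) - ((f1 i).2 k : ℕ))) := by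
        have e2 : ((σ.comp (h : K →+* K)).mapMatrix
          ((Matrix.fromRows (JJ b L T) (MM (jw (L := L) b Ψ))).submatrix
            (Sum.map f1 f2) c)) (Sum.inl i) j = σ (h (JJ b L T (f1 i) (c j))) := rfl
        rw [e2]
        simp [JJ]
      rw [e1, norm_prod, Sum.elim_inl]
      calc _ ≤ ∏ k : Fin r, (((L : ℝ) + 1) ^ T * max 1 ‖σ (h ((f1 i).1 (b k)))‖ ^ L) := by
            refine Finset.prod_le_prod (fun k _ => norm_nonneg _) fun k _ => ?_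
            exact arch_term σ _ _ _ (Nat.lt_succ_iff.1 (c j k).2) ((f1 i).2 k).2
        _ = _ := by
            rw [Finset.prod_mul_distrib, Finset.prod_const, Finset.card_univ, Fintype.card_fin,
              ← pow_mul, mul_comm T r]
    · have e1 : ((σ.comp (h : K →+* K)).mapMatrix
          ((Matrix.fromRows (JJ b L T) (MM (jw (L := L) b Ψ))).submatrix
            (Sum.map f1 f2) c)) (Sum.inr p) j =
          σ ((h * (f2 p).1) (bm b (c j))) ^ (((f2 p).2 : Nat.Primes) : ℕ) := by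
        have e2 : ((σ.comp (h : K →+* K)).mapMatrix
          ((Matrix.fromRows (JJ b L T) (MM (jw (L := L) b Ψ))).submatrix
            (Sum.map f1 f2) c)) (Sum.inr p) j =
              σ (h ((f2 p).1 (bm b (c j) ^ (((f2 p).2 : Nat.Primes) : ℕ)))) := rfl
        rw [e2]
        simp
      rw [e1, norm_pow, Sum.elim_inr]
      have h2 := bm_bound σ b (h * (f2 p).1) (c j)
      have h3 : (1 : ℝ) ≤ ∏ k, max 1 ‖σ (h ((f2 p).1 (b k)))‖ ^ L :=
        one_le_fprod fun k => one_le_pow₀ (le_max_left _ _)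
      calc _ ≤ (∏ k, max 1 ‖σ (h ((f2 p).1 (b k)))‖ ^ L) ^ (((f2 p).2 : Nat.Primes) : ℕ) :=
            pow_le_pow_left₀ (norm_nonneg _) h2 _
        _ ≤ (∏ k, max 1 ‖σ (h ((f2 p).1 (b k)))‖ ^ L) ^ Q :=
            pow_le_pow_right₀ h3 (hQ _ (f2 p).2.2)
        _ = _ := by
            rw [← Finset.prod_pow]
            refine Finset.prod_congr rfl fun k _ => ?_
            rw [← pow_mul, mul_comm L Q]
  · unfold BE
    rw [Fintype.prod_sum_type]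
    simp [Fintype.card_sum]

theorem sum_log_BE (σ : K →+* ℂ) (b : Fin r → K) (L T Q : ℕ) {R E : ℕ}
    (g1 : Fin R → (K ≃ₐ[ℚ] K)) (g2 : Fin E → (K ≃ₐ[ℚ] K)) :
    ∑ h, Real.log (BE σ b L T Q g1 g2 h) ≤ (Fintype.card (K ≃ₐ[ℚ] K) : ℝ) *
      (((R : ℝ) + E) * Real.log ((R : ℝ) + E) +
        R * (r * T * Real.log ((L : ℝ) + 1) + L * ∑ i, hh σ (b i)) +
        E * (Q * L * ∑ i, hh σ (b i))) := by
  classical
  have hpos : ∀ x : ℝ, 0 < max 1 x := fun x => lt_of_lt_of_le one_pos (le_max_left _ _)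
  have hlog : ∀ h : K ≃ₐ[ℚ] K, Real.log (BE σ b L T Q g1 g2 h) =
      Real.log ((R + E).factorial : ℝ) +
        ((∑ i, ((r * T : ℕ) * Real.log ((L : ℝ) + 1) +
          ∑ k, (L : ℝ) * Real.log (max 1 ‖σ (h (g1 i (b k)))‖))) +
        ∑ p, ∑ k, ((Q * L : ℕ) : ℝ) * Real.log (max 1 ‖σ (h (g2 p (b k)))‖)) := by
    intro h
    unfold BE
    have p1 : ∀ (g : K ≃ₐ[ℚ] K) (n : ℕ), (0 : ℝ) < ∏ k, max 1 ‖σ (h (g (b k)))‖ ^ n :=
      fun g n => Finset.prod_pos fun k _ => pow_pos (hpos _) _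
    have p2 : (0 : ℝ) < ((L : ℝ) + 1) ^ (r * T) := by positivity
    have p3 : (0 : ℝ) < ∏ i, (((L : ℝ) + 1) ^ (r * T) * ∏ k, max 1 ‖σ (h (g1 i (b k)))‖ ^ L) :=
      Finset.prod_pos fun i _ => mul_pos p2 (p1 _ _)
    have p4 : (0 : ℝ) < ∏ p, ∏ k, max 1 ‖σ (h (g2 p (b k)))‖ ^ (Q * L) :=
      Finset.prod_pos fun i _ => p1 _ _
    have p5 : (0 : ℝ) < ((R + E).factorial : ℝ) := by exact_mod_cast Nat.factorial_pos _
    rw [Real.log_mul p5.ne' (mul_pos p3 p4).ne', Real.log_mul p3.ne' p4.ne',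
      Real.log_prod (fun i _ => (mul_pos p2 (p1 _ _)).ne'),
      Real.log_prod (fun i _ => (p1 _ _).ne')]
    congr 2
    · refine Finset.sum_congr rfl fun i _ => ?_
      rw [Real.log_mul p2.ne' (p1 _ _).ne', Real.log_pow,
        Real.log_prod (fun k _ => (pow_pos (hpos _) _).ne')]
      congr 1
      exact Finset.sum_congr rfl fun k _ => by rw [Real.log_pow]
    · refine Finset.sum_congr rfl fun i _ => ?_
      rw [Real.log_prod (fun k _ => (pow_pos (hpos _) _).ne')]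
      exact Finset.sum_congr rfl fun k _ => by rw [Real.log_pow]
  simp_rw [hlog]
  rw [Finset.sum_add_distrib, Finset.sum_add_distrib]
  have s1 : ∑ h : K ≃ₐ[ℚ] K, Real.log ((R + E).factorial : ℝ) ≤
      (Fintype.card (K ≃ₐ[ℚ] K) : ℝ) * (((R : ℝ) + E) * Real.log ((R : ℝ) + E)) := by
    rw [Finset.sum_const, nsmul_eq_mul, Finset.card_univ]
    refine mul_le_mul_of_nonneg_left ?_ (Nat.cast_nonneg _)
    have h1 : Real.log ((R + E).factorial : ℝ) ≤ Real.log (((R + E : ℕ) : ℝ) ^ (R + E)) := by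
      refine Real.log_le_log (by exact_mod_cast Nat.factorial_pos _) ?_
      exact_mod_cast Nat.factorial_le_pow (R + E)
    rw [Real.log_pow] at h1
    push_cast at h1
    exact h1
  have s2 : ∑ h : K ≃ₐ[ℚ] K, ∑ i : Fin R, (((r * T : ℕ) : ℝ) * Real.log ((L : ℝ) + 1) +
      ∑ k, (L : ℝ) * Real.log (max 1 ‖σ (h (g1 i (b k)))‖)) =
      (Fintype.card (K ≃ₐ[ℚ] K) : ℝ) * (R * (r * T * Real.log ((L : ℝ) + 1) +
        L * ∑ i, hh σ (b i))) := by
    rw [Finset.sum_comm]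
    have : ∀ i ∈ (Finset.univ : Finset (Fin R)),
        ∑ h : K ≃ₐ[ℚ] K, (((r * T : ℕ) : ℝ) * Real.log ((L : ℝ) + 1) +
          ∑ k, (L : ℝ) * Real.log (max 1 ‖σ (h (g1 i (b k)))‖)) =
        (Fintype.card (K ≃ₐ[ℚ] K) : ℝ) * (r * T * Real.log ((L : ℝ) + 1) +
          L * ∑ i, hh σ (b i)) := by
      intro i _
      rw [Finset.sum_add_distrib, Finset.sum_const, nsmul_eq_mul, Finset.card_univ,
        Finset.sum_comm]
      have h2 : ∀ k ∈ (Finset.univ : Finset (Fin r)),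
          ∑ h : K ≃ₐ[ℚ] K, (L : ℝ) * Real.log (max 1 ‖σ (h (g1 i (b k)))‖) =
          (Fintype.card (K ≃ₐ[ℚ] K) : ℝ) * (L * hh σ (b k)) := by
        intro k _
        rw [← Finset.mul_sum, sum_shift σ (b k) (g1 i)]
        ring
      rw [Finset.sum_congr rfl h2, ← Finset.mul_sum, ← Finset.mul_sum]
      push_cast
      ring
    rw [Finset.sum_congr rfl this, Finset.sum_const, nsmul_eq_mul, Finset.card_univ,
      Fintype.card_fin]
    ring
  have s3 : ∑ h : K ≃ₐ[ℚ] K, ∑ p : Fin E, ∑ k, ((Q * L : ℕ) : ℝ) *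
      Real.log (max 1 ‖σ (h (g2 p (b k)))‖) =
      (Fintype.card (K ≃ₐ[ℚ] K) : ℝ) * (E * (Q * L * ∑ i, hh σ (b i))) := by
    rw [Finset.sum_comm]
    have : ∀ p ∈ (Finset.univ : Finset (Fin E)),
        ∑ h : K ≃ₐ[ℚ] K, ∑ k, ((Q * L : ℕ) : ℝ) *
          Real.log (max 1 ‖σ (h (g2 p (b k)))‖) =
        (Fintype.card (K ≃ₐ[ℚ] K) : ℝ) * (Q * L * ∑ i, hh σ (b i)) := by
      intro p _
      rw [Finset.sum_comm]
      have h2 : ∀ k ∈ (Finset.univ : Finset (Fin r)),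
          ∑ h : K ≃ₐ[ℚ] K, ((Q * L : ℕ) : ℝ) * Real.log (max 1 ‖σ (h (g2 p (b k)))‖) =
          (Fintype.card (K ≃ₐ[ℚ] K) : ℝ) * ((Q * L : ℕ) * hh σ (b k)) := by
        intro k _
        rw [← Finset.mul_sum, sum_shift σ (b k) (g2 p)]
        ring
      rw [Finset.sum_congr rfl h2, ← Finset.mul_sum, ← Finset.mul_sum]
      push_cast
      ring
    rw [Finset.sum_congr rfl this, Finset.sum_const, nsmul_eq_mul, Finset.card_univ,
      Fintype.card_fin]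
    ring
  rw [s2, s3]
  calc _ ≤ (Fintype.card (K ≃ₐ[ℚ] K) : ℝ) * (((R : ℝ) + E) * Real.log ((R : ℝ) + E)) +
        ((Fintype.card (K ≃ₐ[ℚ] K) : ℝ) * (R * (r * T * Real.log ((L : ℝ) + 1) +
          L * ∑ i, hh σ (b i))) +
          (Fintype.card (K ≃ₐ[ℚ] K) : ℝ) * (E * (Q * L * ∑ i, hh σ (b i)))) :=
        add_le_add_left s1 _
    _ = _ := by ring

end H25.Arith
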