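import Mathlib

/-!
# AH-TAYLOR : truncated Taylor expansion of monomials

PROOF. Let `δ i = y i - z i`, `v (δ i) ≤ ε ≤ 1`. For one variable and `m : ℕ`, by the binomial theorem
`y^m = (z + δ)^m = ∑_{κ ≤ m} binom(m,κ) δ^κ z^(m-κ)`; the terms with `κ ≥ T` have `v ≤ ε^T`
(`v` of a natural number is `≤ 1`: `IsNonarchimedean.apply_natCast_le_one`; `v z ≤ 1`;
`ε^κ ≤ ε^T`), and `binom(m,κ) = 0` for `κ > m`, so with
`t_i := ∑_{κ : Fin T} δ_i^κ binom(m_i,κ) z_i^(m_i-κ)` we have `v (y_i^(m_i) - t_i) ≤ ε^T`; moreover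
`v (y_i^(m_i)) ≤ 1` and `v (t_i) ≤ 1`. Telescoping (induction over a finset of indices):
`v (∏ i, y_i^(m_i) - ∏ i, t_i) ≤ ε^T`. Finally `∏ i, t_i` expands
(`Finset.prod_univ_sum`, `Fintype.piFinset_univ`) into the sum over `κ : Fin r → Fin T` of the statement.
-/

namespace H25.Arith

private lemma sum_le {K : Type*} [Field K] (v : AbsoluteValue K ℝ) (hna : IsNonarchimedean v)
    {ι : Type*} (s : Finset ι) (f : ι → K) {B : ℝ} (hB : 0 ≤ B) (h : ∀ j ∈ s, v (f j) ≤ B) :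
    v (∑ j ∈ s, f j) ≤ B := by
  classical
  induction s using Finset.induction_on with
  | empty => simpa using hB
  | insert a s ha ih =>
    rw [Finset.sum_insert ha]
    exact (hna _ _).trans (max_le (h a (Finset.mem_insert_self _ _))
      (ih fun j hj => h j (Finset.mem_insert_of_mem hj)))

private lemma prod_sub_le {K : Type*} [Field K] (v : AbsoluteValue K ℝ) (hna : IsNonarchimedean v)
    {ι : Type*} (s : Finset ι) (a b : ι → K) {E : ℝ} (hE : 0 ≤ E) (ha : ∀ i, v (a i) ≤ 1)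
    (hb : ∀ i, v (b i) ≤ 1) (h : ∀ i, v (a i - b i) ≤ E) :
    v (∏ i ∈ s, a i - ∏ i ∈ s, b i) ≤ E := by
  classical
  induction s using Finset.induction_on with
  | empty => simpa using hE
  | insert j s hj ih =>
    rw [Finset.prod_insert hj, Finset.prod_insert hj]
    have h1 : a j * ∏ i ∈ s, a i - b j * ∏ i ∈ s, b i =
        (a j - b j) * ∏ i ∈ s, a i + b j * (∏ i ∈ s, a i - ∏ i ∈ s, b i) := by ring
    rw [h1]
    refine (hna _ _).trans (max_le ?_ ?_)
    · rw [map_mul, map_prod]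
      calc v (a j - b j) * ∏ i ∈ s, v (a i) ≤ E * 1 :=
            mul_le_mul (h j) (Finset.prod_le_one (fun i _ => v.nonneg _) fun i _ => ha i)
              (Finset.prod_nonneg fun i _ => v.nonneg _) hE
        _ = E := mul_one E
    · rw [map_mul]
      calc v (b j) * v (∏ i ∈ s, a i - ∏ i ∈ s, b i) ≤ 1 * E :=
            mul_le_mul (hb j) ih (v.nonneg _) zero_le_one
        _ = E := one_mul E

private lemma term_le {K : Type*} [Field K] (v : AbsoluteValue K ℝ) (hna : IsNonarchimedean v)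
    {d z : K} {ε : ℝ} (hz : v z ≤ 1) (hd : v d ≤ ε) (c k l : ℕ) :
    v (d ^ k * ((c : K) * z ^ l)) ≤ ε ^ k := by
  have hc : v (c : K) ≤ 1 := hna.apply_natCast_le_one
  rw [map_mul, map_mul, map_pow, map_pow]
  calc v d ^ k * (v (c : K) * v z ^ l) ≤ ε ^ k * (1 * 1) := by
        refine mul_le_mul (pow_le_pow_left₀ (v.nonneg _) hd k) ?_ (by positivity)
          (pow_nonneg ((v.nonneg _).trans hd) k)
        exact mul_le_mul hc (pow_le_one₀ (v.nonneg _) hz) (by positivity) zero_le_one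
    _ = ε ^ k := by ring

private lemma taylor_one {K : Type*} [Field K] (v : AbsoluteValue K ℝ) (hna : IsNonarchimedean v)
    (y z : K) (hz : v z ≤ 1) (ε : ℝ) (h1 : ε ≤ 1) (h : v (y - z) ≤ ε) (T m : ℕ) :
    v (y ^ m - ∑ κ : Fin T, (y - z) ^ (κ : ℕ) * (((Nat.choose m κ : ℕ) : K) * z ^ (m - (κ : ℕ))))
      ≤ ε ^ T := by
  have h0 : 0 ≤ ε := (v.nonneg _).trans h
  set f : ℕ → K := fun κ => (y - z) ^ κ * (((Nat.choose m κ : ℕ) : K) * z ^ (m - κ)) with hf
  have hy : y ^ m = ∑ κ ∈ Finset.range (m + 1), f κ := by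
    have h2 : y ^ m = ((y - z) + z) ^ m := by rw [sub_add_cancel]
    rw [h2, add_pow]
    refine Finset.sum_congr rfl fun κ _ => ?_
    simp only [hf]
    ring
  have hy2 : y ^ m = ∑ κ ∈ Finset.range (T + (m + 1)), f κ := by
    rw [hy]
    refine Finset.sum_subset (Finset.range_mono (by omega)) ?_
    intro κ _ hκ
    have h3 : m < κ := by
      rw [Finset.mem_range] at hκ
      omega
    simp only [hf]
    rw [Nat.choose_eq_zero_of_lt h3]
    simp
  have h4 : ∑ κ : Fin T, (y - z) ^ (κ : ℕ) * (((Nat.choose m κ : ℕ) : K) * z ^ (m - (κ : ℕ))) =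
      ∑ κ ∈ Finset.range T, f κ := by
    rw [Finset.sum_range]
  rw [h4, hy2, Finset.sum_range_add, add_sub_cancel_left]
  refine sum_le v hna _ _ (pow_nonneg h0 T) fun j _ => ?_
  exact (term_le v hna hz h _ _ _).trans (pow_le_pow_of_le_one h0 h1 (by omega))

theorem taylor_multi {K : Type*} [Field K] (v : AbsoluteValue K ℝ) (hna : IsNonarchimedean v)
    {r : ℕ} (y z : Fin r → K) (hy : ∀ i, v (y i) ≤ 1) (hz : ∀ i, v (z i) ≤ 1) (ε : ℝ)
    (h0 : 0 ≤ ε) (h1 : ε ≤ 1) (h : ∀ i, v (y i - z i) ≤ ε) (T : ℕ) (m : Fin r → ℕ) :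
    v (∏ i, y i ^ m i - ∑ κ : Fin r → Fin T, (∏ i, (y i - z i) ^ (κ i : ℕ)) *
      ∏ i, ((Nat.choose (m i) (κ i) : ℕ) : K) * z i ^ (m i - (κ i : ℕ))) ≤ ε ^ T := by
  have h2 : ∑ κ : Fin r → Fin T, (∏ i, (y i - z i) ^ (κ i : ℕ)) *
      ∏ i, ((Nat.choose (m i) (κ i) : ℕ) : K) * z i ^ (m i - (κ i : ℕ)) =
      ∏ i, ∑ κ : Fin T, (y i - z i) ^ (κ : ℕ) *
        (((Nat.choose (m i) κ : ℕ) : K) * z i ^ (m i - (κ : ℕ))) := by
    rw [Finset.prod_univ_sum, Fintype.piFinset_univ]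
    refine Finset.sum_congr rfl fun κ _ => ?_
    rw [← Finset.prod_mul_distrib]
  rw [h2]
  refine prod_sub_le v hna _ _ _ (pow_nonneg h0 T) ?_ ?_ ?_
  · intro i
    rw [map_pow]
    exact pow_le_one₀ (v.nonneg _) (hy i)
  · intro i
    refine sum_le v hna _ _ zero_le_one fun j _ => ?_
    exact (term_le v hna (hz i) (h i) _ _ _).trans (pow_le_one₀ h0 h1)
  · intro i
    exact taylor_one v hna (y i) (z i) (hz i) ε h1 (h i) T (m i)

end H25.Arith
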