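import Pool.Agent.H25.Arith.DetB
import Pool.Agent.H25.Arith.Minor
import Pool.Agent.H25.Arith.JRank
import Pool.Agent.H25.Arith.Taylor
import Pool.Agent.H25.Arith.FC

/-!
# AH-LEMEVAL : valuation of the joint minor

Notation `J = JJ b L T`, `P = MM (jw b Ψ)`, `M = (fromRows J P).submatrix (Sum.map f1 f2) c`, `det M ≠ 0`,
`f1 : Fin (rank J) → ...`.
PROOF of `JJ_span`. The rows `J (f1 i)`, `i < rank J`, are linearly independent (a relation between them gives one
between the rows `inl i` of `M`, whose determinant is not `0`), so they form a basis of the row space of `J`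
(dimension `rank J`). Let `(g, κ)` be any row index and `h` in the group. The row `J (h⁻¹ g, κ)` is
`∑ i, d i • J (f1 i)`. Apply `h` to all entries: `J (g, κ) x = h (J (h⁻¹ g, κ) x) = ∑ i, h (d i) * h (J (f1 i) x)`.
PROOF of `valE`. `h (det M) = det M'`, `M' = M.map h`. Let `q ∈ Ψ`,
`S = {p | (f2 p).2 = q ∧ h * (f2 p).1 ∉ bad}`. For `p ∈ S` put `g' = h * (f2 p).1`, `y i = g' (b i) ^ q`,
`z i = φ (g' (b i))`; `v (y i - z i) ≤ v q` by `frob_var`. The entry of `M'` at `(inr p, j)` is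
`g' ((bm b (c j))^q) = ∏ i, y i ^ (c j i)`. By `taylor_multi` with `ε = v q`, `m = c j`:
`v (M' (inr p) j - ∑_κ (∏ i, (y i - z i)^(κ i)) * JJ b L T (φ * g', κ) (c j)) ≤ (v q)^T`,
and each `JJ b L T (φ * g', κ) (c j)` is `∑ i, D κ i * h (J (f1 i) (c j)) = ∑ i, D κ i * M' (inl i) j`
with `D κ i` independent of `j` (`JJ_span`). So `v_det_sum_le` applies with `ρ = (v q)^T`,
`c p i = ∑_κ (∏ ..) * D κ i`; all the entries of `M'` are integral, so have `v ≤ 1`.
`((v q)^T)^(#S) = (v q)^(T * #S)`.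
-/

open H61.Geo

namespace H25.Arith

variable {K : Type*} [Field K] [NumberField K] [IsGalois ℚ K] {r : ℕ}

theorem JJ_span (b : Fin r → K) (L T : ℕ) (Ψ : Finset Nat.Primes) {E : ℕ}
    (f1 : Fin (JJ b L T).rank → (K ≃ₐ[ℚ] K) × (Fin r → Fin T))
    (f2 : Fin E → (K ≃ₐ[ℚ] K) × Ψ) (c : Fin (JJ b L T).rank ⊕ Fin E → Box r L)
    (hdet : ((Matrix.fromRows (JJ b L T) (MM (jw (L := L) b Ψ))).submatrix
      (Sum.map f1 f2) c).det ≠ 0) (g h : K ≃ₐ[ℚ] K) (κ : Fin r → Fin T) :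
    ∃ d : Fin (JJ b L T).rank → K, ∀ x, JJ b L T (g, κ) x =
      ∑ i, d i * h (JJ b L T (f1 i) x) := by
  have hli : LinearIndependent K ((Matrix.fromRows (JJ b L T) (MM (jw (L := L) b Ψ))).submatrix
      (Sum.map f1 f2) c).row := by
    rw [Matrix.linearIndependent_rows_iff_isUnit, Matrix.isUnit_iff_isUnit_det]
    exact IsUnit.mk0 _ hdet
  have hli2 : LinearIndependent K (fun i => (JJ b L T) (f1 i)) := by
    have h1 := hli.comp (Sum.inl : Fin (JJ b L T).rank → _) Sum.inl_injective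
    exact LinearIndependent.of_comp (LinearMap.funLeft K K c) h1
  have hspan : Submodule.span K (Set.range fun i => (JJ b L T) (f1 i)) =
      Submodule.span K (Set.range (JJ b L T).row) := by
    apply Submodule.eq_of_le_of_finrank_eq
    · apply Submodule.span_mono
      rintro _ ⟨i, rfl⟩
      exact ⟨f1 i, rfl⟩
    · rw [finrank_span_eq_card hli2, Fintype.card_fin, ← Matrix.rank_eq_finrank_span_row]
  have hmem : JJ b L T (h⁻¹ * g, κ) ∈ Submodule.span K (Set.range fun i => (JJ b L T) (f1 i)) := by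
    rw [hspan]
    exact Submodule.subset_span ⟨(h⁻¹ * g, κ), rfl⟩
  obtain ⟨d, hd⟩ := (Submodule.mem_span_range_iff_exists_fun K).1 hmem
  refine ⟨fun i => h (d i), fun x => ?_⟩
  have h1 : JJ b L T (g, κ) x = h (JJ b L T (h⁻¹ * g, κ) x) := by
    simp only [JJ, map_prod, map_mul, map_pow, map_natCast]
    refine Finset.prod_congr rfl fun i _ => ?_
    have h2 : h ((h⁻¹ * g) (b i)) = g (b i) := by
      rw [← AlgEquiv.mul_apply, mul_inv_cancel_left]
    rw [h2]
  rw [h1, ← hd]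
  simp only [Finset.sum_apply, Pi.smul_apply, smul_eq_mul, map_sum, map_mul]

open Classical in
theorem valE (ℓ : ∀ q : Nat.Primes, Loc K q) (b : Fin r → K) (hbi : ∀ i, IsIntegral ℤ (b i))
    (L T : ℕ) (Ψ : Finset Nat.Primes) {E : ℕ}
    (f1 : Fin (JJ b L T).rank → (K ≃ₐ[ℚ] K) × (Fin r → Fin T))
    (f2 : Fin E → (K ≃ₐ[ℚ] K) × Ψ) (c : Fin (JJ b L T).rank ⊕ Fin E → Box r L)
    (hdet : ((Matrix.fromRows (JJ b L T) (MM (jw (L := L) b Ψ))).submatrix
      (Sum.map f1 f2) c).det ≠ 0) (q : Nat.Primes) (hq : q ∈ Ψ) (h : K ≃ₐ[ℚ] K) :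
    (ℓ q).v (h ((Matrix.fromRows (JJ b L T) (MM (jw (L := L) b Ψ))).submatrix
      (Sum.map f1 f2) c).det) ≤ (ℓ q).v ((q : ℕ) : K) ^ (T * (Finset.univ.filter
        fun p : Fin E => ((f2 p).2 : Nat.Primes) = q ∧ h * (f2 p).1 ∉ bad (ℓ q) b).card) := by
  rw [AlgEquiv.map_det, pow_mul]
  have hJi : ∀ p x, IsIntegral ℤ (JJ b L T p x) := by
    intro p x
    simp only [JJ]
    exact IsIntegral.prod _ fun i _ =>
      (isIntegral_algebraMap (R := ℤ) (x := ((Nat.choose (x i) (p.2 i) : ℕ) : ℤ)) |>.mul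
        ((isIntegral_gal p.1 (hbi i)).pow _) |> fun H => by simpa using H)
  refine v_det_sum_le (ℓ q).v (ℓ q).na _ ?_ _ _ ?_
  · rintro (i | p) j
    · exact (ℓ q).le_one _ (isIntegral_gal h (hJi (f1 i) (c (j))))
    · exact (ℓ q).le_one _ (isIntegral_gal h (isIntegral_gal (f2 p).1
        ((isIntegral_bm b hbi (c j)).pow _)))
  · intro p hp
    rw [Finset.mem_filter] at hp
    obtain ⟨-, hp1, hp2⟩ := hp
    set g' : K ≃ₐ[ℚ] K := h * (f2 p).1 with hg'
    set y : Fin r → K := fun i => g' (b i) ^ (q : ℕ) with hy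
    set z : Fin r → K := fun i => (ℓ q).φ (g' (b i)) with hz
    have hD : ∀ κ : Fin r → Fin T, ∃ d : Fin (JJ b L T).rank → K, ∀ x,
        JJ b L T ((ℓ q).φ * g', κ) x = ∑ i, d i * h (JJ b L T (f1 i) x) := fun κ =>
      JJ_span b L T Ψ f1 f2 c hdet ((ℓ q).φ * g') h κ
    choose D hD using hD
    refine ⟨fun i => ∑ κ : Fin r → Fin T, (∏ k, (y k - z k) ^ (κ k : ℕ)) * D κ i, fun j => ?_⟩
    have hyi : ∀ i, (ℓ q).v (y i) ≤ 1 := fun i =>
      (ℓ q).le_one _ ((isIntegral_gal g' (hbi i)).pow _)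
    have hzi : ∀ i, (ℓ q).v (z i) ≤ 1 := fun i =>
      (ℓ q).le_one _ (isIntegral_gal _ (isIntegral_gal g' (hbi i)))
    have hT := taylor_multi (ℓ q).v (ℓ q).na y z hyi hzi ((ℓ q).v ((q : ℕ) : K))
      ((ℓ q).v.nonneg _) (ℓ q).lt_one.le
      (fun i => frob_var q.2 (ℓ q) b hbi g' hp2 i) T (fun i => (c j i : ℕ))
    convert hT using 2
    congr 1
    · change h ((f2 p).1 (bm b (c j) ^ (((f2 p).2 : Nat.Primes) : ℕ))) = _
      rw [hp1, map_pow, map_pow]
      have h1 : h ((f2 p).1 (bm b (c j))) = g' (bm b (c j)) := rfl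
      rw [h1, bm, map_prod, ← Finset.prod_pow]
      refine Finset.prod_congr rfl fun i _ => ?_
      simp only [hy, map_pow]
      rw [← pow_mul, ← pow_mul, mul_comm]
    · have h2 : ∀ κ : Fin r → Fin T, ∏ i, ((Nat.choose (c j i : ℕ) (κ i) : ℕ) : K) *
          z i ^ ((c j i : ℕ) - (κ i : ℕ)) = JJ b L T ((ℓ q).φ * g', κ) (c j) := fun κ => rfl
      simp only [h2, hD]
      simp only [Finset.sum_mul, Finset.mul_sum]
      rw [Finset.sum_comm]
      refine Finset.sum_congr rfl fun κ _ => ?_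
      refine Finset.sum_congr rfl fun i _ => ?_
      rw [mul_assoc]
      rfl

end H25.Arith
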