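import Pool.Agent.H25.Arith.PF
import Pool.Agent.H25.Arith.LemEVal
import Pool.Agent.H25.Arith.LemEArch

/-!
# AH-LEME : the joint determinant inequality

PROOF. `J = JJ b L T`, `P = MM (jw b Ψ)`, `R = rank J`, and `E`, `f1`, `f2`, `c` from `exists_minor J P`;
`M` the nonsingular matrix, `Δ = det M ≠ 0`, integral over `ℤ` (`IsIntegral.det`; the entries are products of
natural numbers and conjugates of the `b i`).
* `R ≤ T^r Hd` : `rank_JJ_le`. `R + E = rank (fromRows J P) ≤ #columns = (L+1)^r`. `Jd = rank P ≤ rank (fromRows J P)`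
  (`Jd_eq_rank`; the row space of `P` is contained in that of `fromRows J P`).
* `prod_formula` with `k q h = T * #{p | (f2 p).2 = q ∧ h * (f2 p).1 ∉ bad (ℓ q) b}` (`valE`), `B = BE ..` (`archE`)
  and `sum_log_BE`. Left side: for `q ∈ Ψ`, `E_q := #{p | (f2 p).2 = q}`:
  `∑_h k q h = T * ∑_{p : (f2 p).2 = q} #{h | h * (f2 p).1 ∉ bad} = T * E_q * (#G - #bad) ≥ 0`, and
  `(#G - #bad) ≥ (1-β) #G`, `log q ≥ log N ≥ 0`, `∑_{q ∈ Ψ} E_q = E`. So
  `#G T (1-β) log N * E ≤ #G ((R+E) log (R+E) + R (..) + E (..))`. Divide by `#G` and use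
  `(R+E) log (R+E) ≤ (R+E) r log (L+1)` (`R + E ≤ (L+1)^r`; if `R + E = 0` both sides are `0`).
-/

open H61.Geo

namespace H25.Arith

variable {K : Type*} [Field K] [NumberField K] [IsGalois ℚ K] {r : ℕ}

omit [IsGalois ℚ K] in
open Classical in
theorem lemE_count (B : Finset (K ≃ₐ[ℚ] K)) {E : ℕ} {Q : Type*} (f2 : Fin E → (K ≃ₐ[ℚ] K) × Q)
    (A : Fin E → Prop) :
    ∑ h : K ≃ₐ[ℚ] K, (((Finset.univ.filter fun p : Fin E => A p ∧ h * (f2 p).1 ∉ B).card : ℕ) : ℝ) =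
      ((Fintype.card (K ≃ₐ[ℚ] K) : ℝ) - B.card) *
        ((Finset.univ.filter fun p : Fin E => A p).card : ℝ) := by
  have h1 : ∀ p : Fin E, ((Finset.univ.filter fun h : K ≃ₐ[ℚ] K => h * (f2 p).1 ∉ B).card : ℝ) =
      (Fintype.card (K ≃ₐ[ℚ] K) : ℝ) - B.card := by
    intro p
    have h2 : (Finset.univ.filter fun h : K ≃ₐ[ℚ] K => h * (f2 p).1 ∉ B).card = Bᶜ.card := by
      refine Finset.card_bij (fun h _ => h * (f2 p).1) ?_ ?_ ?_
      · intro h hh
        rw [Finset.mem_compl]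
        exact (Finset.mem_filter.1 hh).2
      · intro h _ h' _ he
        exact mul_right_cancel he
      · intro x hx
        refine ⟨x * (f2 p).1⁻¹, ?_, by simp⟩
        rw [Finset.mem_filter]
        refine ⟨Finset.mem_univ _, ?_⟩
        rw [inv_mul_cancel_right]
        exact Finset.mem_compl.1 hx
    rw [h2, Finset.card_compl, Nat.cast_sub (Finset.card_le_univ B)]
  have h3 : ∀ h : K ≃ₐ[ℚ] K,
      (((Finset.univ.filter fun p : Fin E => A p ∧ h * (f2 p).1 ∉ B).card : ℕ) : ℝ) =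
      ∑ p ∈ Finset.univ.filter (fun p : Fin E => A p), if h * (f2 p).1 ∉ B then (1 : ℝ) else 0 := by
    intro h
    rw [← Finset.filter_filter, Finset.card_filter]
    push_cast
    rfl
  rw [Finset.sum_congr rfl (fun h _ => h3 h), Finset.sum_comm]
  have h4 : ∀ p ∈ Finset.univ.filter (fun p : Fin E => A p),
      (∑ h : K ≃ₐ[ℚ] K, if h * (f2 p).1 ∉ B then (1 : ℝ) else 0) =
        (Fintype.card (K ≃ₐ[ℚ] K) : ℝ) - B.card := by
    intro p _
    rw [← h1 p, Finset.card_filter]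
    push_cast
    rfl
  rw [Finset.sum_congr rfl h4, Finset.sum_const, nsmul_eq_mul, mul_comm]

omit [IsGalois ℚ K] in
theorem lemE_rank_le {R1 R2 X F : Type*} [Fintype R1] [Fintype R2] [Fintype X] [Field F]
    (M1 : Matrix R1 X F) (M2 : Matrix R2 X F) : M2.rank ≤ (Matrix.fromRows M1 M2).rank := by
  rw [Matrix.rank_eq_finrank_span_row, Matrix.rank_eq_finrank_span_row]
  refine Submodule.finrank_mono (Submodule.span_mono ?_)
  rintro _ ⟨i, rfl⟩
  exact ⟨Sum.inr i, rfl⟩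

omit [IsGalois ℚ K] in
theorem lemE_int (b : Fin r → K) (hbi : ∀ i, IsIntegral ℤ (b i)) (L T : ℕ)
    (Ψ : Finset Nat.Primes) {R E : ℕ}
    (f1 : Fin R → (K ≃ₐ[ℚ] K) × (Fin r → Fin T))
    (f2 : Fin E → (K ≃ₐ[ℚ] K) × Ψ) (c : Fin R ⊕ Fin E → Box r L) :
    IsIntegral ℤ ((Matrix.fromRows (JJ b L T) (MM (jw (L := L) b Ψ))).submatrix
      (Sum.map f1 f2) c).det := by
  refine IsIntegral.det fun i j => ?_
  rcases i with i | i
  · change IsIntegral ℤ (JJ b L T (f1 i) (c j))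
    unfold JJ
    refine IsIntegral.prod _ fun k _ => ?_
    refine IsIntegral.mul ?_ ((isIntegral_gal _ (hbi k)).pow _)
    have h : IsIntegral ℤ (algebraMap ℤ K ((Nat.choose (c j k) ((f1 i).2 k) : ℕ) : ℤ)) :=
      isIntegral_algebraMap
    simpa using h
  · change IsIntegral ℤ ((f2 i).1 (jw (L := L) b Ψ (c j) (f2 i).2))
    unfold jw
    exact isIntegral_gal _ ((isIntegral_bm b hbi _).pow _)

theorem lemmaE_raw (σ : K →+* ℂ) (ℓ : ∀ q : Nat.Primes, Loc K q) (b : Fin r → K)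
    (hb0 : ∀ i, b i ≠ 0) (hbi : ∀ i, IsIntegral ℤ (b i)) (L T : ℕ) (Ψ : Finset Nat.Primes)
    (N Q : ℕ) (hN : 2 ≤ N) (β : ℝ)
    (hΨ : ∀ q ∈ Ψ, N ≤ (q : ℕ) ∧ (q : ℕ) ≤ Q ∧
      ((bad (ℓ q) b).card : ℝ) ≤ β * Fintype.card (K ≃ₐ[ℚ] K)) :
    ∃ R E : ℕ, R ≤ T ^ r * Hd ℚ b L ∧ R + E ≤ (L + 1) ^ r ∧ Jd b Ψ L ≤ R + E ∧
      T * ((1 - β) * Real.log N) * E ≤ ((R : ℝ) + E) * (r * Real.log ((L : ℝ) + 1)) +
        R * (r * T * Real.log ((L : ℝ) + 1) + L * ∑ i, hh σ (b i)) +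
        E * (Q * L * ∑ i, hh σ (b i)) := by
  classical
  obtain ⟨E, f1, f2, c, hrank, hf2, hdet⟩ := exists_minor (JJ b L T) (MM (jw (L := L) b Ψ))
  have hRE : (JJ b L T).rank + E ≤ (L + 1) ^ r := by
    rw [← hrank]
    refine (Matrix.rank_le_card_width _).trans ?_
    simp
  refine ⟨(JJ b L T).rank, E, rank_JJ_le b hb0 L T, hRE, ?_, ?_⟩
  · rw [Jd_eq_rank, ← hrank]
    exact lemE_rank_le _ _
  have hval := fun (q : Nat.Primes) (hq : q ∈ Ψ) (h : K ≃ₐ[ℚ] K) =>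
    valE ℓ b hbi L T Ψ f1 f2 c hdet q hq h
  have hpf := prod_formula σ ℓ Ψ _ hdet (lemE_int b hbi L T Ψ f1 f2 c)
    (fun q h => T * (Finset.univ.filter
        fun p : Fin E => ((f2 p).2 : Nat.Primes) = q ∧ h * (f2 p).1 ∉ bad (ℓ q) b).card)
    (fun q hq h => by convert hval q hq h)
    (BE σ b L T Q (fun i => (f1 i).1) (fun p => (f2 p).1))
    (fun h => archE σ b L T Q Ψ (fun q hq => (hΨ q hq).2.1) f1 f2 c h)
  have hBE := sum_log_BE σ b L T Q (fun i => (f1 i).1) (fun p => (f2 p).1)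
  have hG : (0 : ℝ) < Fintype.card (K ≃ₐ[ℚ] K) := by
    exact_mod_cast Fintype.card_pos
  have hlogN : 0 ≤ Real.log N := Real.log_natCast_nonneg N
  -- the left side
  have hsumE : ∑ q ∈ Ψ, (((Finset.univ.filter
      fun p : Fin E => ((f2 p).2 : Nat.Primes) = q).card : ℕ) : ℝ) = E := by
    have h1 := Finset.card_eq_sum_card_fiberwise (s := (Finset.univ : Finset (Fin E)))
      (t := Ψ) (f := fun p => ((f2 p).2 : Nat.Primes)) (fun p _ => (f2 p).2.2)
    rw [Finset.card_univ, Fintype.card_fin] at h1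
    conv_rhs => rw [h1]
    push_cast
    rfl
  have hleft : (Fintype.card (K ≃ₐ[ℚ] K) : ℝ) * (T * ((1 - β) * Real.log N) * E) ≤
      ∑ q ∈ Ψ, (∑ h : K ≃ₐ[ℚ] K, ((T * (Finset.univ.filter
        fun p : Fin E => ((f2 p).2 : Nat.Primes) = q ∧
          h * (f2 p).1 ∉ bad (ℓ q) b).card : ℕ) : ℝ)) * Real.log ((q : ℕ) : ℝ) := by
    conv_lhs => rw [← hsumE]
    rw [Finset.mul_sum, Finset.mul_sum]
    refine Finset.sum_le_sum fun q hq => ?_
    obtain ⟨hq1, hq2, hq3⟩ := hΨ q hq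
    push_cast
    rw [← Finset.mul_sum]
    have h1 := lemE_count (bad (ℓ q) b) f2 (fun p => ((f2 p).2 : Nat.Primes) = q)
    have h2 : (∑ h : K ≃ₐ[ℚ] K, (((Finset.univ.filter fun p : Fin E =>
        ((f2 p).2 : Nat.Primes) = q ∧ h * (f2 p).1 ∉ bad (ℓ q) b).card : ℕ) : ℝ)) =
      ((Fintype.card (K ≃ₐ[ℚ] K) : ℝ) - (bad (ℓ q) b).card) *
        ((Finset.univ.filter fun p : Fin E => ((f2 p).2 : Nat.Primes) = q).card : ℝ) := by
      convert h1
    rw [h2]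
    have hb : ((bad (ℓ q) b).card : ℝ) ≤ Fintype.card (K ≃ₐ[ℚ] K) := by
      exact_mod_cast Finset.card_le_univ _
    have hlog : Real.log N ≤ Real.log ((q : ℕ) : ℝ) := by
      apply Real.log_le_log
      · exact_mod_cast (show 0 < N by omega)
      · exact_mod_cast hq1
    have h3 : (Fintype.card (K ≃ₐ[ℚ] K) : ℝ) * ((1 - β) * Real.log N) ≤
        ((Fintype.card (K ≃ₐ[ℚ] K) : ℝ) - (bad (ℓ q) b).card) * Real.log ((q : ℕ) : ℝ) := by
      have h4 : (Fintype.card (K ≃ₐ[ℚ] K) : ℝ) * (1 - β) ≤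
          (Fintype.card (K ≃ₐ[ℚ] K) : ℝ) - (bad (ℓ q) b).card := by
        nlinarith
      calc (Fintype.card (K ≃ₐ[ℚ] K) : ℝ) * ((1 - β) * Real.log N)
          = ((Fintype.card (K ≃ₐ[ℚ] K) : ℝ) * (1 - β)) * Real.log N := by ring
        _ ≤ ((Fintype.card (K ≃ₐ[ℚ] K) : ℝ) - (bad (ℓ q) b).card) * Real.log N :=
            mul_le_mul_of_nonneg_right h4 hlogN
        _ ≤ _ := mul_le_mul_of_nonneg_left hlog (by linarith)
    have h5 : (0 : ℝ) ≤ T * ((Finset.univ.filter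
        fun p : Fin E => ((f2 p).2 : Nat.Primes) = q).card : ℝ) := by positivity
    calc (Fintype.card (K ≃ₐ[ℚ] K) : ℝ) * (T * ((1 - β) * Real.log N) *
          ((Finset.univ.filter fun p : Fin E => ((f2 p).2 : Nat.Primes) = q).card : ℝ))
        = ((Fintype.card (K ≃ₐ[ℚ] K) : ℝ) * ((1 - β) * Real.log N)) * (T *
          ((Finset.univ.filter fun p : Fin E => ((f2 p).2 : Nat.Primes) = q).card : ℝ)) := by ring
      _ ≤ (((Fintype.card (K ≃ₐ[ℚ] K) : ℝ) - (bad (ℓ q) b).card) * Real.log ((q : ℕ) : ℝ)) *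
          (T * ((Finset.univ.filter fun p : Fin E => ((f2 p).2 : Nat.Primes) = q).card : ℝ)) :=
        mul_le_mul_of_nonneg_right h3 h5
      _ = _ := by ring
  have hmain := (hleft.trans hpf).trans hBE
  have hmain' := le_of_mul_le_mul_left hmain hG
  refine hmain'.trans ?_
  have hlast : (((JJ b L T).rank : ℝ) + E) * Real.log (((JJ b L T).rank : ℝ) + E) ≤
      (((JJ b L T).rank : ℝ) + E) * (r * Real.log ((L : ℝ) + 1)) := by
    rcases Nat.eq_zero_or_pos ((JJ b L T).rank + E) with h0 | h0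
    · have : (((JJ b L T).rank : ℝ) + E) = 0 := by exact_mod_cast h0
      rw [this]
      simp
    · have hpos : (0 : ℝ) < ((JJ b L T).rank : ℝ) + E := by exact_mod_cast h0
      refine mul_le_mul_of_nonneg_left ?_ hpos.le
      rw [← Real.log_pow]
      refine Real.log_le_log hpos ?_
      exact_mod_cast hRE
  linarith

end H25.Arith
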