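import Pool.Agent.H25.Arith.Defs

/-!
# AH-LOCEX : local data exist at every prime

PROOF. Let `𝓞 = 𝓞 K`. Take a prime ideal `Q` of `𝓞` containing `q` (e.g. a maximal ideal containing
the proper ideal `(q)`; `q` is not a unit of `𝓞` because `q` is not a unit of `ℤ` and `𝓞` is integral
over `ℤ`; or `Ideal.exists_ideal_over_prime_of_isIntegral` / `Ideal.primesOver` nonempty).
Let `P : IsDedekindDomain.HeightOneSpectrum 𝓞` be given by `Q` and `v := NumberField.adicAbv K P`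
(file Mathlib/NumberTheory/NumberField/Completion/FinitePlace.lean). It is nonarchimedean
(`isNonarchimedean_adicAbv`), `v x ≤ 1` for `x : 𝓞` (`HeightOneSpectrum.valuation_le_one`,
`NumberField.adicAbv_def`; an element `x : K` with `IsIntegral ℤ x` is the image of an element of `𝓞`)
and for `x : 𝓞` we have `v x < 1 ↔ x ∈ Q` (`HeightOneSpectrum.valuation_lt_one_iff_mem`).
Frobenius: `G = K ≃ₐ[ℚ] K` acts on `𝓞` (Mathlib has the `MulSemiringAction` and the instance
`Algebra.IsInvariant ℤ (𝓞 K) (K ≃ₐ[ℚ] K)` or close to it; file RingTheory/Frobenius.lean,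
`IsArithFrobAt.exists_of_isInvariant`): there is `φ : G` with
`φ • x - x ^ Nat.card (ℤ ⧸ Q.under ℤ) ∈ Q` for all `x : 𝓞`; `Q.under ℤ = span {q}` because it is a prime
ideal of `ℤ` containing the prime `q`, so the cardinality is `q` (`Int.card_ideal_quot`... or
`Ideal.absNorm`/`Int.quotientSpanEquivZMod`). Finiteness of `𝓞 ⧸ Q` : `Ideal.finiteQuotientOfFreeOfNeBot`
or `NumberField` instances.
-/

open NumberField IsDedekindDomain

namespace H25.Arith

theorem exists_loc (K : Type*) [Field K] [NumberField K] [IsGalois ℚ K] (q : ℕ) (hq : q.Prime) :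
    Nonempty (Loc K q) := by
  have hp : (Ideal.span {(q : ℤ)}).IsPrime := by
    rw [Ideal.span_singleton_prime (by exact_mod_cast hq.ne_zero)]
    exact Nat.prime_iff_prime_int.mp hq
  obtain ⟨⟨Q, hQ, hQp⟩⟩ := (Ideal.span {(q : ℤ)}).nonempty_primesOver (S := 𝓞 K)
  have hunder : Q.under ℤ = Ideal.span {(q : ℤ)} := hQp.over.symm
  have hqQ : ((q : ℕ) : 𝓞 K) ∈ Q := by
    have h1 : (q : ℤ) ∈ Q.under ℤ := by
      rw [hunder]
      exact Ideal.mem_span_singleton_self _
    have h2 : algebraMap ℤ (𝓞 K) (q : ℤ) ∈ Q := Ideal.mem_comap.mp h1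
    simpa using h2
  have hne : Q ≠ ⊥ := by
    rintro rfl
    rw [Ideal.mem_bot] at hqQ
    exact hq.ne_zero (by exact_mod_cast hqQ)
  have hfin : Finite (𝓞 K ⧸ Q) := Q.finiteQuotientOfFreeOfNeBot hne
  let P : HeightOneSpectrum (𝓞 K) := ⟨Q, hQ, hne⟩
  obtain ⟨σ, hσ⟩ := IsArithFrobAt.exists_of_isInvariant ℤ (K ≃ₐ[ℚ] K) Q
  have hcard : Nat.card (ℤ ⧸ Q.under ℤ) = q := by
    rw [hunder, Nat.card_congr (Int.quotientSpanNatEquivZMod q).toEquiv, Nat.card_zmod]
  have hle : ∀ y : 𝓞 K, NumberField.HeightOneSpectrum.adicAbv K P (algebraMap (𝓞 K) K y) ≤ 1 :=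
    fun y => P.adicAbv_coe_le_one (NumberField.HeightOneSpectrum.one_lt_absNorm_nnreal P) y
  have hlt : ∀ y : 𝓞 K, NumberField.HeightOneSpectrum.adicAbv K P (algebraMap (𝓞 K) K y) < 1 ↔
      y ∈ Q :=
    fun y => P.adicAbv_coe_lt_one_iff (NumberField.HeightOneSpectrum.one_lt_absNorm_nnreal P) y
  refine ⟨⟨NumberField.HeightOneSpectrum.adicAbv K P,
    NumberField.HeightOneSpectrum.isNonarchimedean_adicAbv K P, ?_, ?_, σ, ?_⟩⟩
  · intro x hx
    exact hle ⟨x, hx⟩
  · have h := (hlt (q : 𝓞 K)).mpr hqQ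
    simpa using h
  · intro x hx
    have h1 := hσ (⟨x, hx⟩ : 𝓞 K)
    rw [hcard] at h1
    have h2 := (hlt _).mpr h1
    exact h2

end H25.Arith
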