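import Pool.Agent.H25.Arith.VInt

/-!
# AH-PF : the product formula inequality

PROOF. `z := Algebra.norm ℤ`-type integer: `∏_g g Δ = algebraMap ℚ K (Algebra.norm ℚ Δ)`
(`Algebra.norm_eq_prod_automorphisms`) and `Algebra.norm ℚ Δ` is a rational number integral over `ℤ`
(`Algebra.isIntegral_norm`), so an integer `z` (`IsIntegrallyClosed` for `ℤ`), `z ≠ 0`.
For `q ∈ Ψ`: `v z = ∏_g v (g Δ) ≤ ∏_g v q ^ k q g = v q ^ (∑_g k q g)`, so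
`q ^ (∑_g k q g) ∣ z` by `dvd_of_v_le`. The prime powers for distinct `q ∈ Ψ` are pairwise coprime, so
`∏_{q ∈ Ψ} q ^ (∑_g k q g) ∣ z` (`Finset.prod_dvd_of_coprime`), hence
`∏_{q ∈ Ψ} q ^ (∑_g k q g) ≤ |z|`. And `|z| = ‖σ z‖ = ∏_g ‖σ (g Δ)‖ ≤ ∏_g B g`, with
`0 < ‖σ (g Δ)‖ ≤ B g`. Take logarithms (`Real.log_prod`, `Real.log_pow`).
-/

namespace H25.Arith

theorem prod_formula {K : Type*} [Field K] [NumberField K] [IsGalois ℚ K] (σ : K →+* ℂ)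
    (ℓ : ∀ q : Nat.Primes, Loc K q) (Ψ : Finset Nat.Primes) (Δ : K) (h0 : Δ ≠ 0)
    (hint : IsIntegral ℤ Δ) (k : Nat.Primes → (K ≃ₐ[ℚ] K) → ℕ)
    (hk : ∀ q ∈ Ψ, ∀ g : K ≃ₐ[ℚ] K, (ℓ q).v (g Δ) ≤ (ℓ q).v ((q : ℕ) : K) ^ k q g)
    (B : (K ≃ₐ[ℚ] K) → ℝ) (hB : ∀ g : K ≃ₐ[ℚ] K, ‖σ (g Δ)‖ ≤ B g) :
    ∑ q ∈ Ψ, (∑ g, (k q g : ℝ)) * Real.log ((q : ℕ) : ℝ) ≤ ∑ g, Real.log (B g) := by
  have hN : IsIntegral ℤ (Algebra.norm ℚ Δ) := Algebra.isIntegral_norm ℚ hint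
  obtain ⟨z, hz⟩ := IsIntegrallyClosed.isIntegral_iff.1 hN
  have hzK : (z : K) = ∏ g : K ≃ₐ[ℚ] K, g Δ := by
    rw [← Algebra.norm_eq_prod_automorphisms, ← hz]
    simp
  have hg0 : ∀ g : K ≃ₐ[ℚ] K, g Δ ≠ 0 := fun g => by simpa using h0
  have hz0 : z ≠ 0 := by
    rintro rfl
    rw [Int.cast_zero] at hzK
    exact Finset.prod_ne_zero_iff.2 (fun g _ => hg0 g) hzK.symm
  have hdvd : ∀ q ∈ Ψ, ((q : ℕ) : ℤ) ^ (∑ g, k q g) ∣ z := by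
    intro q hq
    apply dvd_of_v_le q.2 (ℓ q)
    rw [hzK, map_prod, ← Finset.prod_pow_eq_pow_sum]
    exact Finset.prod_le_prod (fun _ _ => AbsoluteValue.nonneg _ _) (fun g _ => hk q hq g)
  have hall : ∏ q ∈ Ψ, ((q : ℕ) : ℤ) ^ (∑ g, k q g) ∣ z := by
    apply Finset.prod_dvd_of_coprime
    · intro p _ q _ hne
      apply IsCoprime.pow
      exact Nat.isCoprime_iff_coprime.2
        ((Nat.coprime_primes p.2 q.2).2 (fun h => hne (Subtype.ext h)))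
    · exact hdvd
  have hle : (∏ q ∈ Ψ, ((q : ℕ) : ℝ) ^ (∑ g, k q g)) ≤ |(z : ℝ)| := by
    have := Int.le_of_dvd (abs_pos.2 hz0) ((dvd_abs _ _).2 hall)
    exact_mod_cast this
  have hzr : |(z : ℝ)| = ∏ g : K ≃ₐ[ℚ] K, ‖σ (g Δ)‖ := by
    have h1 := congrArg (fun x => ‖σ x‖) hzK
    simp only [map_intCast, map_prod, norm_prod, Complex.norm_intCast] at h1
    exact h1
  have hpos : ∀ g : K ≃ₐ[ℚ] K, 0 < ‖σ (g Δ)‖ := fun g =>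
    norm_pos_iff.2 (by simpa using hg0 g)
  have hq0 : ∀ q : Nat.Primes, (0 : ℝ) < ((q : ℕ) : ℝ) := fun q => by
    exact_mod_cast q.2.pos
  calc ∑ q ∈ Ψ, (∑ g, (k q g : ℝ)) * Real.log ((q : ℕ) : ℝ)
      = Real.log (∏ q ∈ Ψ, ((q : ℕ) : ℝ) ^ (∑ g, k q g)) := by
        rw [Real.log_prod (fun q _ => (pow_pos (hq0 q) _).ne')]
        refine Finset.sum_congr rfl fun q _ => ?_
        rw [Real.log_pow, Nat.cast_sum]
    _ ≤ Real.log |(z : ℝ)| :=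
        Real.log_le_log (Finset.prod_pos fun q _ => pow_pos (hq0 q) _) hle
    _ = ∑ g : K ≃ₐ[ℚ] K, Real.log ‖σ (g Δ)‖ := by
        rw [hzr, Real.log_prod (fun g _ => (hpos g).ne')]
    _ ≤ ∑ g, Real.log (B g) :=
        Finset.sum_le_sum fun g _ => Real.log_le_log (hpos g) (hB g)

end H25.Arith
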