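import Pool.Agent.H25.Arith.Defs

/-!
# AH-RK : the `K`-rank of the matrix of conjugates is the `ℚ`-dimension of the span

`w : X → (Y → K)`; `MM w` has the columns `(g (w x y))_{(g,y)}`.
PROOF. Let `d = finrank ℚ (span ℚ (range w))`. Choose a maximal `ℚ`-linearly independent subfamily
`(w x)_{x ∈ X₀}`, `#X₀ = d` (`exists_linearIndependent`...).
(≤) Every `w x` is a rational combination `∑_{x' ∈ X₀} c_{x'} w x'`, so the column `x` of `MM w` is the same
    combination of the columns in `X₀` (`g` is `ℚ`-linear): the column space is spanned by `d` vectors.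
    (`Matrix.rank_eq_finrank_span_cols`.)
(≥) The columns in `X₀` are `K`-linearly independent: let `∑_{x ∈ X₀} c_x g (w x y) = 0` for all `g, y`.
    Apply `g⁻¹`: `∑_x g⁻¹(c_x) (w x y) = 0`; multiply by `g⁻¹ t`, `t ∈ K`, and sum over `g`:
    `∑_x (∑_g g⁻¹ (t c_x)) (w x y) = 0`, and `∑_g g⁻¹ (t c_x) = algebraMap (Algebra.trace ℚ K (t c_x))`
    (`trace_eq_sum_automorphisms`). By independence over `ℚ`, `trace (t c_x) = 0` for all `t`, so `c_x = 0`
    (`traceForm_nondegenerate`).
-/

namespace H25.Arith

/-- the column attached to a vector -/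
def rkT {K : Type*} [Field K] [NumberField K] {Y : Type*} (u : Y → K) :
    (K ≃ₐ[ℚ] K) × Y → K := fun p => p.1 (u p.2)

/-- independence over `ℚ` of vectors gives independence over `K` of the columns -/
theorem rk_indep {K : Type*} [Field K] [NumberField K] [IsGalois ℚ K] {ι Y : Type*} [Fintype ι]
    (e : ι → Y → K) (he : LinearIndependent ℚ e) : LinearIndependent K (fun i => rkT (e i)) := by
  rw [Fintype.linearIndependent_iff] at he ⊢
  intro c hc i
  have h1 : ∀ (g : K ≃ₐ[ℚ] K) (y : Y), ∑ j, c j * g (e j y) = 0 := by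
    intro g y
    have := congrFun hc (g, y)
    simpa [rkT, Finset.sum_apply] using this
  have h2 : ∀ (t : K) (σ : K ≃ₐ[ℚ] K) (y : Y), ∑ j, σ (t * c j) * e j y = 0 := by
    intro t σ y
    have h3 := congrArg (fun z => σ (t * z)) (h1 σ⁻¹ y)
    simp only [Finset.mul_sum, map_sum, mul_zero, map_zero, map_mul] at h3
    rw [← h3]
    refine Finset.sum_congr rfl fun j _ => ?_
    have h4 : σ (σ⁻¹ (e j y)) = e j y := by
      change (σ * σ⁻¹) (e j y) = e j y
      rw [mul_inv_cancel]
      rfl
    rw [h4, map_mul]
    ring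
  have h3 : ∀ (t : K) (j : ι), Algebra.trace ℚ K (t * c j) = 0 := by
    intro t
    apply he (fun j => Algebra.trace ℚ K (t * c j))
    funext y
    rw [Finset.sum_apply, Pi.zero_apply]
    have h4 : ∑ σ : K ≃ₐ[ℚ] K, ∑ j, σ (t * c j) * e j y = 0 :=
      Finset.sum_eq_zero fun σ _ => h2 t σ y
    rw [Finset.sum_comm] at h4
    rw [← h4]
    refine Finset.sum_congr rfl fun j _ => ?_
    rw [← Finset.sum_mul, ← trace_eq_sum_automorphisms, Pi.smul_apply, Algebra.smul_def]
  have h5 := (traceForm_nondegenerate ℚ K).1 (c i)
  apply h5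
  intro t
  rw [Algebra.traceForm_apply, mul_comm]
  exact h3 t i

/-- the span of the columns depends only on the `ℚ`-span -/
theorem rk_span_le {K : Type*} [Field K] [NumberField K] {Y : Type*} (A B : Set (Y → K))
    (h : A ⊆ Submodule.span ℚ B) :
    Submodule.span K (rkT '' A) ≤ Submodule.span K (rkT '' B) := by
  rw [Submodule.span_le]
  rintro _ ⟨a, ha, rfl⟩
  have ha' := h ha
  clear ha
  rw [SetLike.mem_coe] at ha' ⊢
  induction ha' using Submodule.span_induction with
  | mem x hx => exact Submodule.subset_span ⟨x, hx, rfl⟩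
  | zero =>
    have : (rkT (0 : Y → K)) = 0 := by
      funext p
      simp [rkT]
    rw [this]
    exact Submodule.zero_mem _
  | add x y _ _ hx hy =>
    have : rkT (x + y) = rkT x + rkT y := by
      funext p
      simp [rkT]
    rw [this]
    exact Submodule.add_mem _ hx hy
  | smul q x _ hx =>
    have : rkT (q • x) = (algebraMap ℚ K q) • rkT x := by
      funext p
      simp [rkT, Algebra.smul_def]
    rw [this]
    exact Submodule.smul_mem _ _ hx

theorem rank_MM {K : Type*} [Field K] [NumberField K] [IsGalois ℚ K] {X Y : Type*} [Fintype X]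
    [Fintype Y] (w : X → Y → K) :
    (MM w).rank = Module.finrank ℚ (Submodule.span ℚ (Set.range w)) := by
  classical
  set V := Submodule.span ℚ (Set.range w) with hV
  have hfin : FiniteDimensional ℚ V := FiniteDimensional.span_of_finite ℚ (Set.finite_range w)
  let e := Module.finBasis ℚ V
  have he : LinearIndependent ℚ (fun i => ((e i : V) : Y → K)) :=
    e.linearIndependent.map' V.subtype (Submodule.ker_subtype V)
  have hspan : Submodule.span ℚ (Set.range (fun i => ((e i : V) : Y → K))) = V := by
    have h1 : Set.range (fun i => ((e i : V) : Y → K)) = V.subtype '' Set.range e := by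
      rw [← Set.range_comp]
      rfl
    rw [h1, Submodule.span_image, e.span_eq, Submodule.map_top, Submodule.range_subtype]
  rw [Matrix.rank_eq_finrank_span_cols]
  have h2 : Set.range (MM w).col = rkT '' Set.range w := by
    rw [← Set.range_comp]
    rfl
  have h3 : Submodule.span K (rkT '' Set.range w) =
      Submodule.span K (rkT '' Set.range (fun i => ((e i : V) : Y → K))) := by
    apply le_antisymm
    · apply rk_span_le
      rw [hspan]
      exact Submodule.subset_span
    · apply rk_span_le
      rintro _ ⟨i, rfl⟩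
      exact (e i).2
  rw [h2, h3, ← Set.range_comp]
  have h4 := finrank_span_eq_card (rk_indep _ he)
  rw [Fintype.card_fin] at h4
  exact h4

end H25.Arith
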