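import Mathlib

/-!
# AH-RANKMOD : an integer matrix of rank at most `s` modulo `q` has determinant divisible by `q^(n-s)`

PROOF. (1) Reduction to `F = ZMod q`: the rank of `M mod q` over `ZMod q` is at most its rank over `k`
(if the rank over `ZMod q` is `t` there is a `t × t` minor which is nonzero in `ZMod q`, hence nonzero in
`k`, so the rank over `k` is at least `t`; or `Matrix.rank` and base change of linear independence).
(2) Let `N = M mod q : Matrix (Fin n) (Fin n) F`, `rank N ≤ s`. The kernel of `mulVec N` has dimension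
`≥ n - s`. Choose `n - s` linearly independent vectors in the kernel and complete to a basis
`w_0, …, w_{n-1}` of `F^n`, indexed so that the first `n - s` are in the kernel. Let `U` be an integer matrix
whose columns lift the `w_j`. `det U` is not divisible by `q` (its reduction is the determinant of a basis),
and the first `n - s` columns of `M * U` are divisible by `q`. So `q^(n-s) ∣ det (M U) = det M * det U`
(take out the factor `q` from each of these columns, `Matrix.det_mul_row`/`det_mul_column` with a diagonal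
matrix: `M U = V * diag(q or 1)`), and `q^(n-s)` is coprime to `det U`, so `q^(n-s) ∣ det M`.
-/

namespace H25.Arith

open Matrix in
/-- The rank does not change under an extension of fields. -/
theorem rank_map_field {F k : Type*} [Field F] [Field k] (f : F →+* k) {n : ℕ}
    (N : Matrix (Fin n) (Fin n) F) : (N.map f).rank = N.rank := by
  classical
  obtain ⟨V, U, e, hV, hU, h⟩ := Matrix.exists_rank_normal_form N
  have hV' : IsUnit (V.map f) := hV.map f.mapMatrix
  have hU' : IsUnit (U.map f) := hU.map f.mapMatrix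
  have h2 : V.map f * N.map f * U.map f = (fromBlocks (1 : Matrix (Fin N.rank) (Fin N.rank) k) 0 0
      (0 : Matrix (Fin (Fintype.card (Fin n) - N.rank)) _ k)).submatrix e e := by
    have h3 := congrArg (fun A => A.map f) h
    simp only [Matrix.map_mul] at h3
    rw [h3, ← Matrix.submatrix_map, Matrix.fromBlocks_map]
    simp
  have h3 : (V.map f * N.map f * U.map f).rank = (N.map f).rank := by
    rw [rank_mul_eq_left_of_isUnit_det _ _ ((isUnit_iff_isUnit_det _).1 hU'),
      rank_mul_eq_right_of_isUnit_det _ _ ((isUnit_iff_isUnit_det _).1 hV')]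
  rw [← h3, h2, rank_submatrix, ← diagonal_one, ← diagonal_zero, fromBlocks_diagonal,
    rank_diagonal]
  have e1 : {i : Fin N.rank ⊕ Fin (Fintype.card (Fin n) - N.rank) //
      (Sum.elim (fun _ => (1 : k)) (fun _ => (0 : k)) i) ≠ 0} ≃ Fin N.rank :=
    { toFun := fun i => match i with
        | ⟨Sum.inl a, _⟩ => a
        | ⟨Sum.inr _, h⟩ => absurd rfl h
      invFun := fun a => ⟨Sum.inl a, by simp⟩
      left_inv := by
        rintro ⟨a | a, h⟩
        · rfl
        · exact absurd rfl h
      right_inv := fun a => rfl }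
  rw [Fintype.card_congr e1, Fintype.card_fin]

open Matrix in
theorem pow_dvd_det_aux {q : ℕ} (hq : q.Prime) {n : ℕ} (M : Matrix (Fin n) (Fin n) ℤ)
    [Fact q.Prime] :
    (q : ℤ) ^ (n - (M.map (Int.castRingHom (ZMod q))).rank) ∣ M.det := by
  classical
  set N := M.map (Int.castRingHom (ZMod q)) with hN
  obtain ⟨V, U, e, hV, hU, h⟩ := Matrix.exists_rank_normal_form N
  -- lift `U`
  have hsurj : Function.Surjective (Int.castRingHom (ZMod q)) := ZMod.intCast_surjective
  let U' : Matrix (Fin n) (Fin n) ℤ := fun i j => (hsurj (U i j)).choose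
  have hU'' : U'.map (Int.castRingHom (ZMod q)) = U := by
    ext i j
    exact (hsurj (U i j)).choose_spec
  -- zero columns
  have hcol : ∀ j, (∃ b, e j = Sum.inr b) → ∀ i, (N * U) i j = 0 := by
    rintro j ⟨b, hb⟩ i
    obtain ⟨W, hW⟩ := hV.exists_left_inv
    have h1 : N * U = W * (V * N * U) := by
      rw [Matrix.mul_assoc V N U, ← Matrix.mul_assoc W V, hW, Matrix.one_mul]
    rw [h1, h, Matrix.mul_apply]
    refine Finset.sum_eq_zero fun l _ => ?_
    have : ((fromBlocks (1 : Matrix (Fin N.rank) (Fin N.rank) (ZMod q)) 0 0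
      (0 : Matrix (Fin (Fintype.card (Fin n) - N.rank)) _ (ZMod q))).submatrix e e) l j = 0 := by
      rw [Matrix.submatrix_apply, hb]
      rcases e l with a | a
      · rfl
      · rfl
    rw [this, mul_zero]
  have hdiv : ∀ j, (∃ b, e j = Sum.inr b) → ∀ i, (q : ℤ) ∣ (M * U') i j := by
    intro j hj i
    rw [← ZMod.intCast_zmod_eq_zero_iff_dvd]
    have h1 : ((M * U').map (Int.castRingHom (ZMod q))) i j = 0 := by
      rw [Matrix.map_mul, hU'', ← hN]
      exact hcol j hj i
    simpa using h1
  -- the factorisation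
  let dd : Fin n → ℤ := fun j => if (∃ b, e j = Sum.inr b) then (q : ℤ) else 1
  let W : Matrix (Fin n) (Fin n) ℤ := fun i j =>
    if h : (∃ b, e j = Sum.inr b) then (hdiv j h i).choose else (M * U') i j
  have hfac : M * U' = W * diagonal dd := by
    ext i j
    rw [Matrix.mul_diagonal]
    by_cases hj : ∃ b, e j = Sum.inr b
    · simp only [W, dd, dif_pos hj, if_pos hj]
      rw [mul_comm]
      exact (hdiv j hj i).choose_spec
    · simp only [W, dd, dif_neg hj, if_neg hj, mul_one]
  have hdet : M.det * U'.det = W.det * ∏ j, dd j := by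
    rw [← Matrix.det_mul, hfac, Matrix.det_mul, Matrix.det_diagonal]
  have hprod : ∏ j, dd j = (q : ℤ) ^ (n - N.rank) := by
    have h1 : ∏ j, dd j = ∏ x : Fin N.rank ⊕ Fin (Fintype.card (Fin n) - N.rank),
        Sum.elim (fun _ => (1 : ℤ)) (fun _ => (q : ℤ)) x := by
      refine Fintype.prod_equiv e _ _ fun j => ?_
      rcases hj : e j with a | a
      · simp only [dd, Sum.elim_inl]
        rw [if_neg]
        rintro ⟨b, hb⟩
        rw [hj] at hb
        cases hb
      · simp only [dd, Sum.elim_inr]
        rw [if_pos ⟨a, hj⟩]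
    rw [h1, Fintype.prod_sum_type]
    simp
  have hcop : IsCoprime ((q : ℤ) ^ (n - N.rank)) U'.det := by
    refine IsCoprime.pow_left ?_
    rw [Int.isCoprime_iff_gcd_eq_one]
    have hp : Prime (q : ℤ) := Nat.prime_iff_prime_int.1 hq
    have h1 : ¬ (q : ℤ) ∣ U'.det := by
      intro h1
      have h2 : (Int.castRingHom (ZMod q)) U'.det = 0 := by
        rw [eq_intCast, ZMod.intCast_zmod_eq_zero_iff_dvd]
        exact h1
      rw [RingHom.map_det] at h2
      have h3 : (Int.castRingHom (ZMod q)).mapMatrix U' = U := hU''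
      rw [h3] at h2
      exact ((isUnit_iff_isUnit_det _).1 hU).ne_zero h2
    have := (Int.isCoprime_iff_gcd_eq_one).1 ((Prime.coprime_iff_not_dvd hp).2 h1)
    exact this
  have h5 : (q : ℤ) ^ (n - N.rank) ∣ M.det * U'.det := by
    rw [hdet, hprod]
    exact Dvd.intro_left _ rfl
  exact hcop.dvd_of_dvd_mul_right h5

theorem pow_dvd_det {q : ℕ} (hq : q.Prime) {k : Type*} [Field k] [CharP k q] {n : ℕ}
    (M : Matrix (Fin n) (Fin n) ℤ) (s : ℕ) (h : (M.map (Int.castRingHom k)).rank ≤ s) :
    (q : ℤ) ^ (n - s) ∣ M.det := by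
  have : Fact q.Prime := ⟨hq⟩
  let f : ZMod q →+* k := ZMod.castHom (dvd_refl q) k
  have h1 : (M.map (Int.castRingHom (ZMod q))).map f = M.map (Int.castRingHom k) := by
    ext i j
    simp [f]
  have h2 : (M.map (Int.castRingHom (ZMod q))).rank ≤ s := by
    rw [← rank_map_field f, h1]
    exact h
  exact (pow_dvd_pow _ (Nat.sub_le_sub_left h2 n)).trans (pow_dvd_det_aux hq M)

end H25.Arith
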