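import Pool.Agent.H25.Arith.Defs

/-!
# AH-SC : the Frobenius congruence at simple conjugates

PROOF. Let `P(X) = minpoly ℤ x ∈ ℤ[X]` (monic) (or the integer polynomial whose image in `K[X]` is
`∏_{y ∈ orb x} (X - y)`). Over `K` (Galois) `P = ∏_{y ∈ orb x} (X - y)`:
the roots of the minimal polynomial in `K` are the conjugates `g x` (Mathlib:
`minpoly.exists_algEquiv_of_root`/`Normal.exists...`, `minpoly ℚ x` splits by normality and is separable;
`minpoly.isIntegrallyClosed_eq_field_fractions'`), each simple.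
(1) `P(X^q) - P(X)^q = q * R(X)` with `R ∈ ℤ[X]` : reduce modulo `q`
    (`ZMod.expand_card : expand p f = f ^ p` in `(ZMod p)[X]`). Hence
    `P(x^q) = P(x)^q + q R(x) = q R(x)` and `v (P(x^q)) ≤ v q` because `R(x)` is integral over `ℤ`.
(2) `v (P(x^q)) = ∏_{y ∈ orb x} v (x^q - y)`. `φ x ∈ orb x`. For `y ∈ orb x`, `y ≠ φ x` :
    `v (x^q - y) = 1`. Indeed it is `≤ 1`; if it were `< 1`, then
    `v (φ x - y) ≤ max (v (φ x - x^q)) (v (x^q - y)) < 1`, and `y = g (φ x)` for some `g`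
    (both are conjugates of `x`), so `hs` gives `y = φ x`, contradiction.
So `v (x^q - φ x) = v (P(x^q)) ≤ v q`.
-/

namespace H25.Arith

open Polynomial in
theorem simple_congr_expand {q : ℕ} (hq : q.Prime) (P : ℤ[X]) :
    ∃ R : ℤ[X], expand ℤ q P = P ^ q + C (q : ℤ) * R := by
  have hF : Fact q.Prime := ⟨hq⟩
  have h1 : (expand ℤ q P - P ^ q).map (Int.castRingHom (ZMod q)) = 0 := by
    rw [Polynomial.map_sub, Polynomial.map_pow, map_expand, ZMod.expand_card, sub_self]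
  have h2 : C (q : ℤ) ∣ expand ℤ q P - P ^ q := by
    rw [C_dvd_iff_dvd_coeff]
    intro i
    have h3 := congrArg (fun f : (ZMod q)[X] => f.coeff i) h1
    simp only [coeff_map, coeff_zero, eq_intCast] at h3
    exact (ZMod.intCast_zmod_eq_zero_iff_dvd _ q).1 h3
  obtain ⟨R, hR⟩ := h2
  exact ⟨R, by rw [← hR]; ring⟩

theorem simple_congr {K : Type*} [Field K] [NumberField K] [IsGalois ℚ K] {q : ℕ} (hq : q.Prime)
    (ℓ : Loc K q) {x : K} (hx : IsIntegral ℤ x) (hs : Simple ℓ (ℓ.φ x)) :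
    ℓ.v (x ^ q - ℓ.φ x) ≤ ℓ.v (q : K) := by
  classical
  set P := minpoly ℤ x with hP
  have hPm : P.Monic := minpoly.monic hx
  have hxQ : IsIntegral ℚ x := hx.tower_top
  have hPQ : minpoly ℚ x = P.map (algebraMap ℤ ℚ) :=
    minpoly.isIntegrallyClosed_eq_field_fractions' ℚ hx
  have hFQ : P.map (algebraMap ℤ K) = (minpoly ℚ x).map (algebraMap ℚ K) := by
    rw [hPQ, Polynomial.map_map]
    congr 1
    exact RingHom.ext_int _ _
  have hsplit : (P.map (algebraMap ℤ K)).Splits := by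
    rw [hFQ]
    exact Normal.splits inferInstance x
  have hev : Polynomial.aeval (x ^ q) P = ((P.aroots K).map (x ^ q - ·)).prod :=
    hsplit.aeval_eq_prod_aroots_of_monic hPm _
  have hnod : (P.aroots K).Nodup := by
    rw [Polynomial.aroots, hFQ]
    have hsep : (minpoly ℚ x).Separable := Algebra.IsSeparable.isSeparable ℚ x
    exact Polynomial.nodup_roots hsep.map
  have hroot : ∀ y ∈ P.aroots K, ∃ g : K ≃ₐ[ℚ] K, g x = y := by
    intro y hy
    have h1 : Polynomial.aeval y P = 0 := (Polynomial.mem_aroots.1 hy).2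
    have h2 : Polynomial.aeval y (minpoly ℚ x) = 0 := by
      rw [hPQ, Polynomial.aeval_map_algebraMap, h1]
    exact minpoly.exists_algEquiv_of_root' hxQ.isAlgebraic h2
  have hφmem : ℓ.φ x ∈ P.aroots K := by
    rw [Polynomial.mem_aroots]
    refine ⟨hPm.ne_zero, ?_⟩
    have h1 : Polynomial.aeval x P = 0 := minpoly.aeval ℤ x
    have h2 := Polynomial.aeval_algHom_apply ((ℓ.φ : K →ₐ[ℚ] K).restrictScalars ℤ) x P
    rw [h1, map_zero] at h2
    exact h2
  -- the value at `x ^ q`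
  obtain ⟨R, hR⟩ := simple_congr_expand hq P
  have h1 : Polynomial.aeval (x ^ q) P = (q : K) * Polynomial.aeval x R := by
    have h2 := congrArg (Polynomial.aeval x) hR
    rw [Polynomial.expand_aeval, map_add, map_pow, map_mul, minpoly.aeval,
      zero_pow hq.ne_zero, zero_add, Polynomial.aeval_C] at h2
    rw [h2]
    simp
  have hRint : IsIntegral ℤ (Polynomial.aeval x R) := by
    refine IsIntegral.of_mem_of_fg (Algebra.adjoin ℤ {x}) hx.fg_adjoin_singleton _ ?_
    exact Polynomial.aeval_mem_adjoin_singleton ℤ x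
  have h3 : ℓ.v (Polynomial.aeval (x ^ q) P) ≤ ℓ.v (q : K) := by
    rw [h1, map_mul]
    exact mul_le_of_le_one_right (ℓ.v.nonneg _) (ℓ.le_one _ hRint)
  -- the other factors
  have hother : ∀ y ∈ (P.aroots K).erase (ℓ.φ x), ℓ.v (x ^ q - y) = 1 := by
    intro y hy
    obtain ⟨hne, hy2⟩ := hnod.mem_erase_iff.1 hy
    obtain ⟨g, hg⟩ := hroot y hy2
    have hyint : IsIntegral ℤ y := by
      rw [← hg]
      exact hx.map ((g : K →ₐ[ℚ] K).restrictScalars ℤ)
    have hle : ℓ.v (x ^ q - y) ≤ 1 := ℓ.le_one _ ((hx.pow q).sub hyint)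
    by_contra hlt
    have hlt2 : ℓ.v (x ^ q - y) < 1 := lt_of_le_of_ne hle hlt
    have h4 : ℓ.v (y - ℓ.φ x) < 1 := by
      have h5 : ℓ.φ x - y = (ℓ.φ x - x ^ q) + (x ^ q - y) := by ring
      rw [ℓ.v.map_sub y, h5]
      exact lt_of_le_of_lt (ℓ.na _ _) (max_lt (ℓ.frob x hx) hlt2)
    apply hne
    have h6 : (g * ℓ.φ⁻¹) (ℓ.φ x) = y := by
      have h5 : ℓ.φ⁻¹ (ℓ.φ x) = x := ℓ.φ.symm_apply_apply x
      rw [AlgEquiv.mul_apply, h5, hg]
    have h7 := hs (g * ℓ.φ⁻¹)
    rw [h6] at h7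
    exact h7 h4
  have h8 : ℓ.v (Polynomial.aeval (x ^ q) P) = ℓ.v (x ^ q - ℓ.φ x) := by
    rw [hev, ← Multiset.cons_erase hφmem, Multiset.map_cons, Multiset.prod_cons, map_mul,
      map_multiset_prod, Multiset.map_map, Multiset.prod_eq_one, mul_one]
    intro a ha
    obtain ⟨y, hy, rfl⟩ := Multiset.mem_map.1 ha
    exact hother y hy
  rw [← h8]
  exact h3

end H25.Arith
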