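import Mathlib

/-!
# The statement of Theorem W (weak Amoroso-David theorem)

`TheoremW r E`: for `n` large there are no `r` multiplicatively independent algebraic integers of
degree `n` and Mahler measure at most `e` (i.e. of absolute logarithmic height at most `1/n`) in a
field of degree at most `n ^ E`. It is proved for all `0 < E < r` (TWProof.lean).
-/

namespace H25

/-- for large `n`, `r` multiplicatively independent algebraic integers of degree `n` and Mahler
measure at most `e` generate a field of degree larger than `n ^ E` -/
def TheoremW (r : ℕ) (E : ℝ) : Prop :=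
  ∃ n0 : ℕ, ∀ (K : Type) [Field K] [NumberField K] [IsGalois ℚ K] (n : ℕ) (β : Fin r → K),
    n0 ≤ n → (∀ i, IsIntegral ℤ (β i)) → (∀ i, (minpoly ℚ (β i)).natDegree = n) →
    (∀ i, ((minpoly ℤ (β i)).map (Int.castRingHom ℂ)).mahlerMeasure ≤ Real.exp 1) →
    (∀ m : Fin r → ℤ, ∏ i, β i ^ m i = 1 → m = 0) →
    (n : ℝ) ^ E < Module.finrank ℚ (IntermediateField.adjoin ℚ (Set.range β))

end H25
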