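import Pool.Agent.H25.Arith.Arith
import Pool.Agent.H25.Arith.TW

/-!
# Theorem W from the two halves
-/

open H61.Geo MvPolynomial

namespace H25

/-- the output of the geometric half -/
def GeoHalf (r : ℕ) (E : ℝ) : Prop :=
  ∃ d : ℝ, 0 < d ∧ ∀ C1 : ℕ, ∃ n0 : ℕ,
    ∀ (K : Type) [Field K] [NumberField K] [IsGalois ℚ K] (a : Fin r → K) (n N m1 m2 : ℕ),
      n0 ≤ n → (n : ℝ) ^ d ≤ N → (N : ℝ) ≤ 2 * (n : ℝ) ^ d → (∀ i, a i ≠ 0) →
      (Module.finrank ℚ (IntermediateField.adjoin ℚ (Set.range a)) : ℝ) ≤ (n : ℝ) ^ E →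
      m1 ≠ m2 → m1.Prime → m2.Prime → N ≤ m1 → m1 ≤ N ^ 2 → N ≤ m2 → m2 ≤ N ^ 2 →
      (∀ P ∈ restrictDegree (Fin r) ℚ (n / N ^ 3),
        (aeval (pw a m1) P = 0 ↔ aeval (pw a m2) P = 0)) →
      (∃ LL : Finset ℕ, N ^ 3 ≤ LL.card ∧ ∀ l ∈ LL, l.Prime ∧ N ^ 3 ≤ l ∧ l ≤ N ^ 6 ∧
        ∀ L : ℕ, L * N ^ 9 ≤ n → Hd ℚ (pw (pw a m1) l) L ≤ C1 * Hd ℚ (pw a m1) L) →
      ∃ m : Fin r → ℤ, m ≠ 0 ∧ ∃ k : ℕ, 0 < k ∧ (∏ i, a i ^ m i) ^ k = 1

theorem theoremW_of_geo (r : ℕ) (E : ℝ) (h : GeoHalf r E) : TheoremW r E := by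
  obtain ⟨d, hd, hgeo⟩ := h
  obtain ⟨C1, n1, h1⟩ := Arith.arith_half r d hd
  obtain ⟨n2, h2⟩ := hgeo C1
  refine ⟨max (max n1 n2) 2, ?_⟩
  intro K _ _ _ n β hn hint hdeg hM hind
  by_contra hcon
  rw [not_lt] at hcon
  have hn1 : n1 ≤ n := le_trans (le_trans (le_max_left _ _) (le_max_left _ _)) hn
  have hn2 : n2 ≤ n := le_trans (le_trans (le_max_right _ _) (le_max_left _ _)) hn
  have hn3 : 2 ≤ n := le_trans (le_max_right _ _) hn
  obtain ⟨σ⟩ : Nonempty (K →+* ℂ) := inferInstance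
  have hne : ∀ i, β i ≠ 0 := by
    intro i h0
    have := hdeg i
    rw [h0, minpoly.zero, Polynomial.natDegree_X] at this
    omega
  have horb : ∀ i, (Arith.orb (β i)).card = n := fun i => by rw [Arith.orb_card, hdeg i]
  have hhh : ∀ i, n * Arith.hh σ (β i) ≤ 1 := by
    intro i
    have h3 := Arith.hh_mahler σ (β i) (hint i)
    rw [horb i] at h3
    rw [h3]
    have h4 : 0 < ((minpoly ℤ (β i)).map (Int.castRingHom ℂ)).mahlerMeasure := by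
      apply Polynomial.mahlerMeasure_pos_of_ne_zero
      have := (minpoly.monic (hint i)).map (Int.castRingHom ℂ)
      exact this.ne_zero
    calc Real.log _ ≤ Real.log (Real.exp 1) := Real.log_le_log h4 (hM i)
      _ = 1 := Real.log_exp 1
  have hnd : (1 : ℝ) ≤ (n : ℝ) ^ d := by
    apply Real.one_le_rpow _ hd.le
    exact_mod_cast le_trans (by norm_num) hn3
  set N : ℕ := ⌈(n : ℝ) ^ d⌉₊ with hN
  have hN1 : (n : ℝ) ^ d ≤ N := Nat.le_ceil _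
  have hN2 : (N : ℝ) ≤ 2 * (n : ℝ) ^ d := by
    have := Nat.ceil_lt_add_one (le_trans zero_le_one hnd)
    rw [← hN] at this
    linarith
  obtain ⟨m1, m2, hne', hp1, hp2, ha, hb, hc, hd', hP, hLL⟩ :=
    h1 K σ β n N hn1 hN1 hne hint (fun i => (horb i).le) hhh
  obtain ⟨m, hm0, k, hk, hmk⟩ := h2 K β n N m1 m2 hn2 hN1 hN2 hne hcon hne' hp1 hp2 ha hb hc hd'
    hP hLL
  apply hm0
  have h5 := hind (fun i => m i * k) (by
    rw [← hmk, ← Finset.prod_pow]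
    refine Finset.prod_congr rfl fun i _ => ?_
    rw [zpow_mul, zpow_natCast])
  funext i
  have h6 := congrFun h5 i
  simp only [Pi.zero_apply, mul_eq_zero] at h6
  rcases h6 with h6 | h6
  · simpa using h6
  · exact absurd (by exact_mod_cast h6) hk.ne'

end H25
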