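import Pool.Agent.H25.Arith.Defs

/-!
# AH-VINT : a rational integer of small `v` is divisible by a power of `q`

PROOF. If `z = 0` trivial. Otherwise `z = q ^ j * z'` with `¬ q ∣ z'`
(`Int.exists_eq_pow_mul_and_not_dvd` or `multiplicity`). `a * z' + c * q = 1` for integers `a, c`; as `v` is
nonarchimedean and `v` of integers is `≤ 1`, `1 = v 1 ≤ max (v a * v z') (v c * v q)` and
`v c * v q ≤ v q < 1`, so `1 ≤ v a * v z' ≤ v z' ≤ 1`. Hence `v z = v q ^ j`, and `v q ^ j ≤ v q ^ k`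
with `0 < v q < 1` gives `k ≤ j` (`pow_le_pow_iff_right_of_lt_one₀`).
-/

namespace H25.Arith

theorem VInt_le_one {K : Type*} [Field K] [NumberField K] {q : ℕ} (ℓ : Loc K q) (c : ℤ) :
    ℓ.v (c : K) ≤ 1 := by
  refine ℓ.le_one _ ?_
  have h : IsIntegral ℤ (algebraMap ℤ K c) := isIntegral_algebraMap
  rwa [eq_intCast] at h

theorem VInt_pos {K : Type*} [Field K] [NumberField K] {q : ℕ} (hq : q.Prime) (ℓ : Loc K q) :
    0 < ℓ.v (q : K) :=
  ℓ.v.pos (Nat.cast_ne_zero.2 hq.ne_zero)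

theorem VInt_dvd_of_lt {K : Type*} [Field K] [NumberField K] {q : ℕ} (hq : q.Prime) (ℓ : Loc K q)
    (z : ℤ) (h : ℓ.v (z : K) < 1) : (q : ℤ) ∣ z := by
  by_contra hd
  obtain ⟨c, a, hac⟩ := ((Nat.prime_iff_prime_int.1 hq).coprime_iff_not_dvd (n := z)).2 hd
  have h1 : (c : K) * (q : K) + (a : K) * (z : K) = 1 := by exact_mod_cast congrArg (Int.cast : ℤ → K) hac
  have h2 : ℓ.v 1 ≤ max (ℓ.v ((c : K) * (q : K))) (ℓ.v ((a : K) * (z : K))) := by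
    rw [← h1]
    exact ℓ.na _ _
  rw [map_one, map_mul, map_mul] at h2
  have h3 : ℓ.v (c : K) * ℓ.v (q : K) < 1 :=
    lt_of_le_of_lt (mul_le_of_le_one_left (ℓ.v.nonneg _) (VInt_le_one ℓ c)) ℓ.lt_one
  have h4 : ℓ.v (a : K) * ℓ.v (z : K) < 1 :=
    lt_of_le_of_lt (mul_le_of_le_one_left (ℓ.v.nonneg _) (VInt_le_one ℓ a)) h
  exact absurd h2 (not_le.2 (max_lt h3 h4))

theorem dvd_of_v_le {K : Type*} [Field K] [NumberField K] {q : ℕ} (hq : q.Prime) (ℓ : Loc K q)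
    (z : ℤ) (k : ℕ) (h : ℓ.v (z : K) ≤ ℓ.v (q : K) ^ k) : (q : ℤ) ^ k ∣ z := by
  induction k generalizing z with
  | zero => simp
  | succ k ih =>
    have h0 := VInt_pos hq ℓ
    have h1 : ℓ.v (q : K) ^ (k + 1) < 1 := pow_lt_one₀ h0.le ℓ.lt_one (Nat.succ_ne_zero k)
    obtain ⟨z', rfl⟩ := VInt_dvd_of_lt hq ℓ z (lt_of_le_of_lt h h1)
    have h2 : ℓ.v (((q : ℤ) * z' : ℤ) : K) = ℓ.v (q : K) * ℓ.v (z' : K) := by
      rw [Int.cast_mul, map_mul, Int.cast_natCast]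
    rw [h2, pow_succ'] at h
    rw [pow_succ']
    exact mul_dvd_mul_left _ (ih z' (le_of_mul_le_mul_left h h0))

end H25.Arith
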